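import Pool.Agent.Helper60.AD.Defs
import Pool.Agent.Helper22.AE.E0
import Pool.Agent.Helper22.AC.Defs

/-!
# AM (MP_fb29e9_nt): all moments of the error, uniformly in the centre, for almost every oval. Definitions
-/

open MeasureTheory Real Set Filter Topology

set_option autoImplicit false

namespace Pool.Agent.Helper22.AM

open Pool.Agent.Helper22.AE
open Pool.Agent.Helper22.AC (cntc)
open Pool.Agent.Helper92.GC (dt sqa)
open Pool.Agent.Helper60.AD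

/-- the mean over the good angles of the exponential sum over the block `n` -/
noncomputable def Um (h : ℝ → ℝ) (n : ℕ) (b : ℝ → ℤ × ℤ → ℂ) (β R : ℝ) (c : ℝ × ℝ) : ℝ :=
  ∫ α in Icc (-π) π ∩ {α | 1 / 2 ≤ |cos α|}, k0 β α * ‖Sc h (blk n) (b α) R α c‖

/-- there is a majorant of `Um` for all centres whose `p`-th power has integral at most `A` over the radii `R₀ / 2 ≤ R ≤ 4 R₀` -/
def Maj (h : ℝ → ℝ) (n : ℕ) (b : ℝ → ℤ × ℤ → ℂ) (β R₀ : ℝ) (p : ℕ) (A : ℝ) : Prop :=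
  ∃ G : ℝ → ℝ, Measurable G ∧ (∀ R, 0 ≤ G R ∧ G R ≤ 500 * 4 ^ n) ∧
    (∀ R ∈ Icc (R₀ / 2) (4 * R₀), ∀ c : ℝ × ℝ, Um h n b β R c ≤ G R) ∧ ∫ R in Icc (R₀ / 2) (4 * R₀), G R ^ p ≤ A

/-- the difference of the phases of two tuples -/
noncomputable def Phi {J : ℕ} (h : ℝ → ℝ) (k k' : Fin J → ℤ × ℤ) (α : ℝ) : ℝ :=
  ∑ t, nk (k t) * gph h (k t) α - ∑ t, nk (k' t) * gph h (k' t) α

open Classical in
/-- the pairs of tuples with a moment larger than `g` -/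
noncomputable def far {J : ℕ} (B : Finset (ℤ × ℤ)) (g : ℝ) : Finset ((Fin J → ℤ × ℤ) × (Fin J → ℤ × ℤ)) :=
  ((Fintype.piFinset fun _ : Fin J => B) ×ˢ (Fintype.piFinset fun _ : Fin J => B)).filter (fun q => ¬ ∀ l < 2 * J, ‖Mom q.1 q.2 l‖ ≤ g)

open Classical in
/-- the pairs of tuples with all moments at most `g` -/
noncomputable def near {J : ℕ} (B : Finset (ℤ × ℤ)) (g : ℝ) : Finset ((Fin J → ℤ × ℤ) × (Fin J → ℤ × ℤ)) :=
  ((Fintype.piFinset fun _ : Fin J => B) ×ˢ (Fintype.piFinset fun _ : Fin J => B)).filter (fun q => ∀ l < 2 * J, ‖Mom q.1 q.2 l‖ ≤ g)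

/-- the contribution of the far pairs -/
noncomputable def Wf {L J : ℕ} (H₀ : ℝ → ℝ) (B : Finset (ℤ × ℤ)) (g R₀ α : ℝ) (w : (Fin L → ℝ) × (Fin L → ℝ)) : ℝ :=
  ∑ q ∈ far (J := J) B g, R₀ * exp (-π * (R₀ * Phi (Hw H₀ w) q.1 q.2 α) ^ 2)

/-- every frequency has a partner with the same direction -/
def Paired {J : ℕ} (k k' : Fin J → ℤ × ℤ) : Prop :=
  ∀ i : Fin J ⊕ Fin J, ∃ j : Fin J ⊕ Fin J, j ≠ i ∧ zk (Sum.elim k k' j) = zk (Sum.elim k k' i)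

end Pool.Agent.Helper22.AM
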