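import Pool.Agent.Helper22.AM.Star
import Pool.Agent.Helper29.AM.MeanA

/-!
# Project AM, section 4: the operator `Q` with `E(ζ) = Q(ζ) ζ`, parameter integrals
-/

set_option autoImplicit false

namespace Pool.Agent.Helper22.AM

open Pool.Agent.Helper29.AM
open MeasureTheory Set Filter Topology
open scoped ComplexOrder

variable {n : ℕ}

/-- `Q(ζ) = ∫_0^1 E'(rζ) dr` -/
noncomputable def QQ (E : V n → V n) (ζ : V n) : Lin n :=
  ∫ r in (0 : ℝ)..1, fderiv ℂ E ((r : ℂ) • ζ)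

theorem smul_mem_ball {R : ℝ} {ζ : V n} (hζ : ζ ∈ Metric.ball (0 : V n) R) {r : ℝ} (hr : r ∈ Icc (0 : ℝ) 1) :
    (r : ℂ) • ζ ∈ Metric.ball (0 : V n) R := by
  rw [mem_ball_zero_iff] at hζ ⊢
  rw [norm_smul, Complex.norm_real, Real.norm_eq_abs, abs_of_nonneg hr.1]
  calc r * ‖ζ‖ ≤ 1 * ‖ζ‖ := mul_le_mul_of_nonneg_right hr.2 (norm_nonneg _)
    _ < R := by rw [one_mul]; exact hζ

theorem norm_smul_le' {ζ : V n} {r : ℝ} (hr : r ∈ Icc (0 : ℝ) 1) : ‖(r : ℂ) • ζ‖ ≤ ‖ζ‖ := by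
  rw [norm_smul, Complex.norm_real, Real.norm_eq_abs, abs_of_nonneg hr.1]
  exact (mul_le_mul_of_nonneg_right hr.2 (norm_nonneg _)).trans (by rw [one_mul])

variable {E : V n → V n} {R : ℝ}

theorem cont_curve (hE : DifferentiableOn ℂ E (Metric.ball 0 R)) {ζ : V n} (hζ : ζ ∈ Metric.ball (0 : V n) R) :
    ContinuousOn (fun r : ℝ => fderiv ℂ E ((r : ℂ) • ζ)) (Icc 0 1) := by
  refine (continuousOn_fderiv Metric.isOpen_ball hE).comp (f := fun r : ℝ => (r : ℂ) • ζ) ?_ fun r hr =>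
    smul_mem_ball hζ hr
  exact (Complex.continuous_ofReal.smul continuous_const).continuousOn

theorem QQ_apply_self (hE : DifferentiableOn ℂ E (Metric.ball 0 R)) (hE0 : E 0 = 0) {ζ : V n}
    (hζ : ζ ∈ Metric.ball (0 : V n) R) : QQ E ζ ζ = E ζ := by
  have hi : IntervalIntegrable (fun r : ℝ => fderiv ℂ E ((r : ℂ) • ζ)) volume 0 1 := by
    refine ContinuousOn.intervalIntegrable ?_
    rw [uIcc_of_le zero_le_one]
    exact cont_curve hE hζ
  have h1 : QQ E ζ ζ = ∫ r in (0 : ℝ)..1, fderiv ℂ E ((r : ℂ) • ζ) ζ := by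
    unfold QQ
    exact ContinuousLinearMap.intervalIntegral_apply hi ζ
  rw [h1]
  have hd : ∀ r ∈ uIcc (0 : ℝ) 1, HasDerivAt (fun r : ℝ => E ((r : ℂ) • ζ)) (fderiv ℂ E ((r : ℂ) • ζ) ζ) r := by
    intro r hr
    rw [uIcc_of_le zero_le_one] at hr
    have h2 := smul_mem_ball hζ hr
    have h3 : HasFDerivAt E (fderiv ℂ E ((r : ℂ) • ζ)) ((r : ℂ) • ζ) :=
      ((hE _ h2).differentiableAt (Metric.isOpen_ball.mem_nhds h2)).hasFDerivAt
    have h4 : HasDerivAt (fun r : ℝ => (r : ℂ) • ζ) ζ r := by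
      have h5 : HasDerivAt (fun r : ℝ => (r : ℂ)) 1 r := Complex.ofRealCLM.hasDerivAt
      simpa using h5.smul_const ζ
    exact (h3.restrictScalars ℝ).comp_hasDerivAt r h4
  rw [intervalIntegral.integral_eq_sub_of_hasDerivAt hd]
  · simp [hE0]
  · refine ContinuousOn.intervalIntegrable ?_
    rw [uIcc_of_le zero_le_one]
    exact (cont_curve hE hζ).clm_apply continuousOn_const

theorem norm_QQ_le {q : ℝ} (hq : ∀ z ∈ Metric.ball (0 : V n) R, ‖fderiv ℂ E z‖ ≤ q) {ζ : V n}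
    (hζ : ζ ∈ Metric.ball (0 : V n) R) : ‖QQ E ζ‖ ≤ q := by
  have := intervalIntegral.norm_integral_le_of_norm_le_const (a := 0) (b := 1) (C := q)
    (f := fun r : ℝ => fderiv ℂ E ((r : ℂ) • ζ)) fun r hr => ?_
  · simpa [QQ] using this
  · rw [uIoc_of_le zero_le_one] at hr
    exact hq _ (smul_mem_ball hζ ⟨hr.1.le, hr.2⟩)

theorem differentiableOn_QQ (hE : DifferentiableOn ℂ E (Metric.ball 0 R)) :
    DifferentiableOn ℂ (QQ E) (Metric.ball 0 R) := by
  have hE1 : DifferentiableOn ℂ (fderiv ℂ E) (Metric.ball 0 R) :=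
    ((contDiffOn_infty_iff_fderiv_of_isOpen Metric.isOpen_ball).1
      (contDiffOn_of_differentiableOn Metric.isOpen_ball hE)).2.differentiableOn (by simp)
  have hc2 := continuousOn_fderiv Metric.isOpen_ball hE1
  intro ζ₀ hζ₀
  refine DifferentiableAt.differentiableWithinAt ?_
  obtain ⟨R', hR1, hR2⟩ := exists_between (mem_ball_zero_iff.1 hζ₀)
  have hsub : Metric.closedBall (0 : V n) R' ⊆ Metric.ball 0 R := Metric.closedBall_subset_ball hR2
  obtain ⟨C, hC⟩ := (isCompact_closedBall (0 : V n) R').exists_bound_of_continuousOn (hc2.mono hsub)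
  have hs : Metric.ball (0 : V n) R' ∈ 𝓝 ζ₀ := Metric.isOpen_ball.mem_nhds (mem_ball_zero_iff.2 hR1)
  have hmem : ∀ ζ ∈ Metric.ball (0 : V n) R', ∀ r ∈ Icc (0 : ℝ) 1, (r : ℂ) • ζ ∈ Metric.closedBall (0 : V n) R' := by
    intro ζ hζ r hr
    exact Metric.ball_subset_closedBall (smul_mem_ball hζ hr)
  have hball : ∀ ζ ∈ Metric.ball (0 : V n) R', ζ ∈ Metric.ball (0 : V n) R := fun ζ hζ =>
    hsub (Metric.ball_subset_closedBall hζ)
  unfold QQ
  simp only [intervalIntegral.integral_of_le zero_le_one]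
  have key := hasFDerivAt_integral_of_dominated_of_fderiv_le (𝕜 := ℂ)
    (μ := (volume : Measure ℝ).restrict (Ioc 0 1))
    (F := fun ζ r => fderiv ℂ E ((r : ℂ) • ζ))
    (F' := fun ζ r => (fderiv ℂ (fderiv ℂ E) ((r : ℂ) • ζ)).comp ((r : ℂ) • ContinuousLinearMap.id ℂ (V n)))
    (x₀ := ζ₀) (s := Metric.ball 0 R') (bound := fun _ => C) hs ?_ ?_ ?_ ?_ ?_ ?_
  · exact key.differentiableAt
  · filter_upwards [hs] with ζ hζ
    exact ((cont_curve hE (hball ζ hζ)).mono Ioc_subset_Icc_self).aestronglyMeasurable measurableSet_Ioc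
  · exact ((cont_curve hE hζ₀).integrableOn_Icc).mono_set Ioc_subset_Icc_self
  · refine (ContinuousOn.mono ?_ Ioc_subset_Icc_self).aestronglyMeasurable measurableSet_Ioc
    refine ContinuousOn.clm_comp ?_ ?_
    · exact hc2.comp (f := fun r : ℝ => (r : ℂ) • ζ₀)
        (Complex.continuous_ofReal.smul continuous_const).continuousOn fun r hr => smul_mem_ball hζ₀ hr
    · exact (Complex.continuous_ofReal.smul continuous_const).continuousOn
  · refine (ae_restrict_iff' measurableSet_Ioc).2 (Eventually.of_forall fun r hr ζ hζ => ?_)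
    have hr' : r ∈ Icc (0 : ℝ) 1 := ⟨hr.1.le, hr.2⟩
    have h1 := hC _ (hmem ζ hζ r hr')
    have h2 : ‖(r : ℂ) • ContinuousLinearMap.id ℂ (V n)‖ ≤ 1 := by
      rw [norm_smul, Complex.norm_real, Real.norm_eq_abs, abs_of_nonneg hr'.1]
      calc r * ‖ContinuousLinearMap.id ℂ (V n)‖ ≤ 1 * 1 :=
            mul_le_mul hr'.2 ContinuousLinearMap.norm_id_le (norm_nonneg _) zero_le_one
        _ = 1 := one_mul 1
    refine (ContinuousLinearMap.opNorm_comp_le _ _).trans ?_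
    calc _ ≤ C * 1 := mul_le_mul h1 h2 (norm_nonneg _) ((norm_nonneg _).trans h1)
      _ = C := mul_one C
  · exact integrable_const C
  · refine (ae_restrict_iff' measurableSet_Ioc).2 (Eventually.of_forall fun r hr ζ hζ => ?_)
    have hr' : r ∈ Icc (0 : ℝ) 1 := ⟨hr.1.le, hr.2⟩
    have h1 := hsub (hmem ζ hζ r hr')
    have h2 : HasFDerivAt (fderiv ℂ E) (fderiv ℂ (fderiv ℂ E) ((r : ℂ) • ζ)) ((r : ℂ) • ζ) :=
      ((hE1 _ h1).differentiableAt (Metric.isOpen_ball.mem_nhds h1)).hasFDerivAt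
    have h3 : HasFDerivAt (fun ζ : V n => (r : ℂ) • ζ) ((r : ℂ) • ContinuousLinearMap.id ℂ (V n)) ζ :=
      ((r : ℂ) • ContinuousLinearMap.id ℂ (V n)).hasFDerivAt
    exact HasFDerivAt.comp (f := fun ζ : V n => (r : ℂ) • ζ) ζ h2 h3

/-- differentiation of the mean with respect to a parameter -/
theorem hasDerivAt_int {W : Set (ℝ × V n)} (hW : IsOpen W) {G : ℝ × V n → ℝ}
    (hG : ContDiffOn ℝ 1 G W) {s₀ : ℝ} (h : ∀ η : V n, ‖η‖ ≤ 1 → (s₀, η) ∈ W) :
    HasDerivAt (fun s => ∫ η, rho η * G (s, η)) (∫ η, rho η * fderiv ℝ G (s₀, η) (1, 0)) s₀ := by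
  have hfc : ContinuousOn (fderiv ℝ G) W := hG.continuousOn_fderiv_of_isOpen hW le_rfl
  have hcpt : IsCompact (Metric.closedBall (0 : V n) 1) := isCompact_closedBall _ _
  have hc0 : ContinuousOn (fun η : V n => fderiv ℝ G (s₀, η)) (Metric.closedBall 0 1) :=
    hfc.comp (f := fun η : V n => (s₀, η)) (by fun_prop) fun η hη => h η (mem_closedBall_zero_iff.1 hη)
  obtain ⟨C, hC⟩ := hcpt.exists_bound_of_continuousOn hc0
  have hC0 : 0 ≤ C := (norm_nonneg _).trans (hC 0 (by simp))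
  have hev : ∀ᶠ s in 𝓝 s₀, ∀ η ∈ Metric.closedBall (0 : V n) 1, (s, η) ∈ W ∧ ‖fderiv ℝ G (s, η)‖ < C + 1 := by
    refine hcpt.eventually_forall_of_forall_eventually fun η hη => ?_
    have h1 := h η (mem_closedBall_zero_iff.1 hη)
    have h2 : ContinuousAt (fun p : ℝ × V n => ‖fderiv ℝ G p‖) (s₀, η) := (hfc.continuousAt (hW.mem_nhds h1)).norm
    have h3 : ‖fderiv ℝ G (s₀, η)‖ < C + 1 := by linarith [hC η hη]
    exact (Filter.eventually_mem_set.2 (hW.mem_nhds h1)).and (h2.eventually (gt_mem_nhds h3))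
  obtain ⟨δ, hδ, hball⟩ := Metric.eventually_nhds_iff_ball.1 hev
  have hGc : ∀ s ∈ Metric.ball s₀ δ, ContinuousOn (fun η : V n => G (s, η)) (Metric.closedBall 0 1) := by
    intro s hs
    exact hG.continuousOn.comp (f := fun η : V n => (s, η)) (by fun_prop) fun η hη => (hball s hs η hη).1
  have key := hasDerivAt_integral_of_dominated_loc_of_deriv_le (μ := (volume : Measure (V n)))
    (F := fun s η => rho η * G (s, η)) (F' := fun s η => rho η * fderiv ℝ G (s, η) (1, 0)) (x₀ := s₀)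
    (s := Metric.ball s₀ δ) (bound := fun η => rho η * (C + 1)) (Metric.ball_mem_nhds s₀ hδ) ?_ ?_ ?_ ?_ ?_ ?_
  · exact key.2
  · filter_upwards [Metric.ball_mem_nhds s₀ hδ] with s hs
    exact (intg rho_contDiff.continuous (fun _ h => rho_eq_zero h) (hGc s hs)).aestronglyMeasurable
  · exact intg rho_contDiff.continuous (fun _ h => rho_eq_zero h) (hGc s₀ (Metric.mem_ball_self hδ))
  · exact (intg rho_contDiff.continuous (fun _ h => rho_eq_zero h)
      (hc0.clm_apply continuousOn_const)).aestronglyMeasurable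
  · refine Eventually.of_forall fun η s hs => ?_
    rcases le_or_gt ‖η‖ 1 with hη | hη
    · have h1 := (hball s hs η (mem_closedBall_zero_iff.2 hη)).2
      rw [norm_mul, Real.norm_eq_abs, abs_of_nonneg (rho_nonneg η)]
      refine mul_le_mul_of_nonneg_left ?_ (rho_nonneg η)
      refine (ContinuousLinearMap.le_opNorm _ _).trans ?_
      have h2 : ‖((1 : ℝ), (0 : V n))‖ = 1 := by simp
      rw [h2, mul_one]
      exact h1.le
    · rw [rho_eq_zero hη.le, zero_mul, zero_mul, norm_zero]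
  · exact (rho_integrable.mul_const _)
  · refine Eventually.of_forall fun η s hs => ?_
    rcases le_or_gt ‖η‖ 1 with hη | hη
    · have h1 := (hball s hs η (mem_closedBall_zero_iff.2 hη)).1
      have h2 : HasFDerivAt G (fderiv ℝ G (s, η)) (s, η) :=
        ((hG.contDiffAt (hW.mem_nhds h1)).differentiableAt (by norm_num)).hasFDerivAt
      have h3 : HasDerivAt (fun s : ℝ => (s, η)) ((1 : ℝ), (0 : V n)) s :=
        (hasDerivAt_id s).prodMk (hasDerivAt_const s η)
      exact (h2.comp_hasDerivAt s h3).const_mul _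
    · simp only [rho_eq_zero hη.le, zero_mul]
      exact hasDerivAt_const s 0

end Pool.Agent.Helper22.AM
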