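import Pool.Agent.Helper22.AM.CC1
import Pool.Agent.Helper13.AM.K3

/-!
# Project AM, section 4: the comparison lemma (4.1) for smooth psh functions
-/

set_option autoImplicit false

namespace Pool.Agent.Helper22.AM

open Pool.Agent.Helper29.AM
open MeasureTheory Set Filter Topology
open scoped ComplexOrder

variable {n : ℕ}

/-- `F_s(ζ) = bζ + sE(ζ)` -/
noncomputable def FF (b : ℂ) (E : V n → V n) (s : ℝ) (ζ : V n) : V n := b • ζ + (s : ℂ) • E ζ

/-- the derivative of `F_s` -/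
noncomputable def LL (b : ℂ) (E : V n → V n) (s : ℝ) (ζ : V n) : Lin n :=
  b • ContinuousLinearMap.id ℂ (V n) + (s : ℂ) • fderiv ℂ E ζ

/-- `e^x η` -/
noncomputable def zt (x : ℝ) (η : V n) : V n := ((Real.exp x : ℝ) : ℂ) • η

variable {E : V n → V n} {q : ℝ} {b : ℂ}

theorem LL_apply (b : ℂ) (E : V n → V n) (s : ℝ) (ζ w : V n) :
    LL b E s ζ w = b • w + (s : ℂ) • fderiv ℂ E ζ w := by
  simp [LL]

theorem hasFDerivAt_FF (hE : DifferentiableOn ℂ E (Metric.ball 0 3)) (s : ℝ) {ζ : V n}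
    (hζ : ζ ∈ Metric.ball (0 : V n) 3) : HasFDerivAt (FF b E s) (LL b E s ζ) ζ := by
  have h1 : HasFDerivAt E (fderiv ℂ E ζ) ζ :=
    ((hE ζ hζ).differentiableAt (Metric.isOpen_ball.mem_nhds hζ)).hasFDerivAt
  have h2 : HasFDerivAt (fun ζ : V n => b • ζ) (b • ContinuousLinearMap.id ℂ (V n)) ζ :=
    (b • ContinuousLinearMap.id ℂ (V n)).hasFDerivAt
  exact h2.add (h1.const_smul (s : ℂ))

theorem norm_E_le (hE : DifferentiableOn ℂ E (Metric.ball 0 3)) (hE0 : E 0 = 0)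
    (hEq : ∀ z ∈ Metric.ball (0 : V n) 3, ‖fderiv ℂ E z‖ ≤ q) {ζ : V n}
    (hζ : ζ ∈ Metric.ball (0 : V n) 3) : ‖E ζ‖ ≤ q * ‖ζ‖ := by
  rw [← QQ_apply_self hE hE0 hζ]
  exact (ContinuousLinearMap.le_opNorm _ _).trans (mul_le_mul_of_nonneg_right (norm_QQ_le hEq hζ) (norm_nonneg _))

theorem norm_FF_le (hE : DifferentiableOn ℂ E (Metric.ball 0 3)) (hE0 : E 0 = 0)
    (hEq : ∀ z ∈ Metric.ball (0 : V n) 3, ‖fderiv ℂ E z‖ ≤ q) (hb : ‖b‖ = 2 * q) {s : ℝ}
    (hs : s ∈ Icc (0 : ℝ) 1) {ζ : V n}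
    (hζ : ζ ∈ Metric.ball (0 : V n) 3) : ‖FF b E s ζ‖ ≤ 3 * q * ‖ζ‖ := by
  have h1 := norm_E_le hE hE0 hEq hζ
  unfold FF
  refine (norm_add_le _ _).trans ?_
  rw [norm_smul, norm_smul, hb, Complex.norm_real, Real.norm_eq_abs, abs_of_nonneg hs.1]
  have h2 : s * ‖E ζ‖ ≤ 1 * (q * ‖ζ‖) :=
    mul_le_mul hs.2 h1 (norm_nonneg _) zero_le_one
  linarith

theorem LL_lower (hEq : ∀ z ∈ Metric.ball (0 : V n) 3, ‖fderiv ℂ E z‖ ≤ q) (hb : ‖b‖ = 2 * q) {s : ℝ}
    (hs : s ∈ Icc (0 : ℝ) 1) {ζ : V n} (hζ : ζ ∈ Metric.ball (0 : V n) 3) (w : V n) :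
    q * ‖w‖ ≤ ‖LL b E s ζ w‖ := by
  have hq0 : 0 ≤ q := (norm_nonneg _).trans (hEq ζ hζ)
  rw [LL_apply]
  have h1 : ‖(s : ℂ) • fderiv ℂ E ζ w‖ ≤ q * ‖w‖ := by
    rw [norm_smul, Complex.norm_real, Real.norm_eq_abs, abs_of_nonneg hs.1]
    have h2 : ‖fderiv ℂ E ζ w‖ ≤ q * ‖w‖ :=
      (ContinuousLinearMap.le_opNorm _ _).trans (mul_le_mul_of_nonneg_right (hEq ζ hζ) (norm_nonneg _))
    calc s * ‖fderiv ℂ E ζ w‖ ≤ 1 * (q * ‖w‖) := mul_le_mul hs.2 h2 (norm_nonneg _) zero_le_one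
      _ = q * ‖w‖ := one_mul _
  have h3 : ‖b • w‖ = 2 * q * ‖w‖ := by rw [norm_smul, hb]
  have h4 := norm_sub_le (b • w + (s : ℂ) • fderiv ℂ E ζ w) ((s : ℂ) • fderiv ℂ E ζ w)
  rw [add_sub_cancel_right] at h4
  linarith

theorem isUnit_LL (hq : 0 < q) (hEq : ∀ z ∈ Metric.ball (0 : V n) 3, ‖fderiv ℂ E z‖ ≤ q) (hb : ‖b‖ = 2 * q)
    {s : ℝ} (hs : s ∈ Icc (0 : ℝ) 1) {ζ : V n} (hζ : ζ ∈ Metric.ball (0 : V n) 3) :
    IsUnit (LL b E s ζ) := by
  rw [ContinuousLinearMap.isUnit_iff_bijective]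
  have hinj : Function.Injective (LL b E s ζ) := by
    rw [injective_iff_map_eq_zero]
    intro w hw
    have h1 := LL_lower hEq hb hs hζ w
    rw [hw, norm_zero] at h1
    have h2 : ‖w‖ = 0 := le_antisymm (by
      by_contra h
      have := mul_pos hq (not_le.1 h)
      linarith) (norm_nonneg _)
    exact norm_eq_zero.1 h2
  refine ⟨hinj, ?_⟩
  exact LinearMap.surjective_of_injective (f := (LL b E s ζ : V n →ₗ[ℂ] V n)) hinj

theorem LL_inverse (hq : 0 < q) (hEq : ∀ z ∈ Metric.ball (0 : V n) 3, ‖fderiv ℂ E z‖ ≤ q) (hb : ‖b‖ = 2 * q)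
    {s : ℝ} (hs : s ∈ Icc (0 : ℝ) 1) {ζ : V n} (hζ : ζ ∈ Metric.ball (0 : V n) 3) (w : V n) :
    LL b E s ζ (Ring.inverse (LL b E s ζ) w) = w := by
  have h1 := Ring.mul_inverse_cancel _ (isUnit_LL hq hEq hb hs hζ)
  have h2 := congrArg (fun T : Lin n => T w) h1
  simpa using h2

theorem norm_inverse_LL (hq : 0 < q) (hEq : ∀ z ∈ Metric.ball (0 : V n) 3, ‖fderiv ℂ E z‖ ≤ q)
    (hb : ‖b‖ = 2 * q) {s : ℝ} (hs : s ∈ Icc (0 : ℝ) 1) {ζ : V n} (hζ : ζ ∈ Metric.ball (0 : V n) 3) :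
    ‖Ring.inverse (LL b E s ζ)‖ ≤ q⁻¹ := by
  refine ContinuousLinearMap.opNorm_le_bound _ (inv_nonneg.2 hq.le) fun w => ?_
  have h1 := LL_lower hEq hb hs hζ (Ring.inverse (LL b E s ζ) w)
  rw [LL_inverse hq hEq hb hs hζ] at h1
  rw [← div_eq_inv_mul, le_div_iff₀ hq]
  linarith

theorem hasDerivAt_zt (s : ℝ) (η : V n) : HasDerivAt (fun s : ℝ => zt (1 - s) η) (-(zt (1 - s) η)) s := by
  have h1 : HasDerivAt (fun s : ℝ => Real.exp (1 - s)) (-Real.exp (1 - s)) s := by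
    have := ((hasDerivAt_id s).const_sub 1).exp
    simpa using this
  have h2 : HasDerivAt (fun s : ℝ => ((Real.exp (1 - s) : ℝ) : ℂ)) ((-Real.exp (1 - s) : ℝ) : ℂ) s :=
    h1.ofReal_comp
  have h3 : HasDerivAt (fun s : ℝ => zt (1 - s) η) (((-Real.exp (1 - s) : ℝ) : ℂ) • η) s :=
    h2.smul_const η
  refine h3.congr_deriv ?_
  unfold zt
  rw [Complex.ofReal_neg, neg_smul]

theorem norm_zt {x : ℝ} (hx : x ∈ Icc (0 : ℝ) 1) {η : V n} (hη : ‖η‖ ≤ 1) : ‖zt x η‖ ≤ Real.exp 1 := by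
  unfold zt
  rw [norm_smul, Complex.norm_real, Real.norm_eq_abs, abs_of_pos (Real.exp_pos x)]
  calc Real.exp x * ‖η‖ ≤ Real.exp 1 * 1 :=
        mul_le_mul (Real.exp_le_exp.2 hx.2) hη (norm_nonneg _) (Real.exp_pos 1).le
    _ = Real.exp 1 := mul_one _

theorem exp_one_lt_3 : Real.exp 1 < 3 := Real.exp_one_lt_d9.trans (by norm_num)

/-- (4.1), Step 1 -/
theorem step_b (hq : 0 < q) (hE : DifferentiableOn ℂ E (Metric.ball 0 3)) (hE0 : E 0 = 0)
    (hEq : ∀ z ∈ Metric.ball (0 : V n) 3, ‖fderiv ℂ E z‖ ≤ q) (hb : ‖b‖ = 2 * q)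
    {Ω : Set (V n)} (hΩ : IsOpen Ω) {v : V n → ℝ} (hv : SPsh Ω v)
    (hB : Metric.closedBall 0 (9 * q) ⊆ Ω) :
    ∫ η, rho η * v (b • η + E η) ≤ Phi v 0 (2 * q * Real.exp 1) := by
  -- the set of parameters
  have hpc : Continuous fun p : ℝ × V n => zt (1 - p.1) p.2 := by
    unfold zt
    fun_prop
  have hps : ContDiff ℝ 1 fun p : ℝ × V n => zt (1 - p.1) p.2 := by
    have h1 : (fun p : ℝ × V n => zt (1 - p.1) p.2) = fun p => Real.exp (1 - p.1) • p.2 := by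
      funext p
      unfold zt
      rw [Complex.coe_smul]
    rw [h1]
    fun_prop
  have hEs : ContDiffOn ℝ 1 E (Metric.ball 0 3) :=
    ((contDiffOn_of_differentiableOn Metric.isOpen_ball hE).restrict_scalars ℝ).of_le
      (by exact_mod_cast (le_top : (1 : ℕ∞) ≤ ⊤))
  obtain ⟨W₁, hW₁⟩ : ∃ W₁ : Set (ℝ × V n), W₁ = {p | zt (1 - p.1) p.2 ∈ Metric.ball (0 : V n) 3} := ⟨_, rfl⟩
  have hW₁o : IsOpen W₁ := by rw [hW₁]; exact Metric.isOpen_ball.preimage hpc
  have hFs : ContDiffOn ℝ 1 (fun p : ℝ × V n => FF b E p.1 (zt (1 - p.1) p.2)) W₁ := by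
    unfold FF
    have h1 : ContDiffOn ℝ 1 (fun p : ℝ × V n => b • zt (1 - p.1) p.2) W₁ :=
      (hps.const_smul b).contDiffOn
    have h2 : ContDiffOn ℝ 1 (fun p : ℝ × V n => E (zt (1 - p.1) p.2)) W₁ :=
      hEs.comp hps.contDiffOn fun p hp => by rw [hW₁] at hp; exact hp
    have h3 : (fun p : ℝ × V n => (p.1 : ℂ) • E (zt (1 - p.1) p.2)) = fun p => p.1 • E (zt (1 - p.1) p.2) := by
      funext p
      rw [Complex.coe_smul]
    have h4 : ContDiffOn ℝ 1 (fun p : ℝ × V n => (p.1 : ℂ) • E (zt (1 - p.1) p.2)) W₁ := by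
      rw [h3]
      exact contDiff_fst.contDiffOn.smul h2
    exact h1.add h4
  obtain ⟨W, hW⟩ : ∃ W : Set (ℝ × V n), W = W₁ ∩ (fun p => FF b E p.1 (zt (1 - p.1) p.2)) ⁻¹' Ω := ⟨_, rfl⟩
  have hWo : IsOpen W := by rw [hW]; exact hFs.continuousOn.isOpen_inter_preimage hW₁o hΩ
  obtain ⟨G, hGdef⟩ : ∃ G : ℝ × V n → ℝ, G = fun p => v (FF b E p.1 (zt (1 - p.1) p.2)) := ⟨_, rfl⟩
  have hv1 : ContDiffOn ℝ 1 v Ω := hv.smooth.of_le (by exact_mod_cast (le_top : (1 : ℕ∞) ≤ ⊤))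
  have hG : ContDiffOn ℝ 1 G W := by
    rw [hGdef]
    exact hv1.comp (hFs.mono (by rw [hW]; exact inter_subset_left)) fun p hp => by rw [hW] at hp; exact hp.2
  have hx : ∀ s ∈ Icc (0 : ℝ) 1, (1 - s) ∈ Icc (0 : ℝ) 1 := fun s hs => ⟨by linarith [hs.2], by linarith [hs.1]⟩
  have hmemball : ∀ s ∈ Icc (0 : ℝ) 1, ∀ η : V n, ‖η‖ ≤ 1 → zt (1 - s) η ∈ Metric.ball (0 : V n) 3 := by
    intro s hs η hη
    rw [mem_ball_zero_iff]
    exact (norm_zt (hx s hs) hη).trans_lt exp_one_lt_3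
  have hmemW : ∀ s ∈ Icc (0 : ℝ) 1, ∀ η : V n, ‖η‖ ≤ 1 → (s, η) ∈ W := by
    intro s hs η hη
    rw [hW]
    refine ⟨by rw [hW₁]; exact hmemball s hs η hη, hB ?_⟩
    rw [mem_closedBall_zero_iff]
    refine (norm_FF_le hE hE0 hEq hb hs (hmemball s hs η hη)).trans ?_
    have h1 := norm_zt (hx s hs) hη
    have h2 := exp_one_lt_3
    nlinarith
  -- the derivative is nonpositive
  have hder : ∀ s ∈ Icc (0 : ℝ) 1, ∫ η, rho η * fderiv ℝ G (s, η) (1, 0) ≤ 0 := by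
    intro s hs
    obtain ⟨Ω', hΩ'⟩ : ∃ Ω' : Set (V n), Ω' = {η | (s, η) ∈ W} := ⟨_, rfl⟩
    have hΩ'o : IsOpen Ω' := by rw [hΩ']; exact hWo.preimage (Continuous.prodMk_right s)
    have hΩ'm : ∀ η ∈ Ω', zt (1 - s) η ∈ Metric.ball (0 : V n) 3 ∧ FF b E s (zt (1 - s) η) ∈ Ω := by
      intro η hη
      rw [hΩ', hW, hW₁] at hη
      exact hη
    have hΩ'B : Metric.closedBall 0 1 ⊆ Ω' := by
      intro η hη
      rw [hΩ']
      exact hmemW s hs η (mem_closedBall_zero_iff.1 hη)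
    -- the holomorphic map `η ↦ F_s(e^x η)`
    obtain ⟨κ, hκ⟩ : ∃ κ : V n → V n, κ = fun η => FF b E s (zt (1 - s) η) := ⟨_, rfl⟩
    have hκd : ∀ η ∈ Ω', HasFDerivAt κ ((LL b E s (zt (1 - s) η)).comp
        (((Real.exp (1 - s) : ℝ) : ℂ) • ContinuousLinearMap.id ℂ (V n))) η := by
      intro η hη
      rw [hκ]
      have h1 : HasFDerivAt (fun η : V n => zt (1 - s) η)
          (((Real.exp (1 - s) : ℝ) : ℂ) • ContinuousLinearMap.id ℂ (V n)) η :=
        (((Real.exp (1 - s) : ℝ) : ℂ) • ContinuousLinearMap.id ℂ (V n)).hasFDerivAt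
      exact HasFDerivAt.comp (f := fun η : V n => zt (1 - s) η) η (hasFDerivAt_FF hE s (hΩ'm η hη).1) h1
    have hκD : DifferentiableOn ℂ κ Ω' := fun η hη => (hκd η hη).differentiableAt.differentiableWithinAt
    have hκC := contDiffOn_of_differentiableOn hΩ'o hκD
    obtain ⟨f, hf⟩ : ∃ f : V n → ℝ, f = fun η => v (κ η) := ⟨_, rfl⟩
    have hfC : ContDiffOn ℝ (⊤ : ℕ∞) f Ω' := by
      rw [hf]
      exact hv.smooth.comp (hκC.restrict_scalars ℝ) fun η hη => by rw [hκ]; exact (hΩ'm η hη).2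
    have two_le : (2 : WithTop ℕ∞) ≤ ((⊤ : ℕ∞) : WithTop ℕ∞) := by
      have h : ((2 : ℕ∞) : WithTop ℕ∞) ≤ ((⊤ : ℕ∞) : WithTop ℕ∞) := WithTop.coe_le_coe.2 le_top
      exact h
    have hfp : ∀ z ∈ Ω', ∀ w, 0 ≤ lev f z w := by
      intro z hz w
      have h1 : ContDiffAt ℂ 2 κ z := (hκC.contDiffAt (hΩ'o.mem_nhds hz)).of_le two_le
      have hmem : κ z ∈ Ω := by rw [hκ]; exact (hΩ'm z hz).2
      have h2 : ContDiffAt ℝ 2 v (κ z) := (hv.smooth.contDiffAt (hΩ.mem_nhds hmem)).of_le two_le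
      rw [hf, lev_comp_holo h1 h2]
      exact hv.psh _ hmem _
    obtain ⟨Q, hQ⟩ : ∃ Q : V n → Lin n, Q = fun η =>
      Ring.inverse (LL b E s (zt (1 - s) η)) * QQ E (zt (1 - s) η) := ⟨_, rfl⟩
    have hztd : DifferentiableOn ℂ (fun η : V n => zt (1 - s) η) Ω' := by
      unfold zt
      fun_prop
    have hQD : DifferentiableOn ℂ Q Ω' := by
      rw [hQ]
      have hE1 : DifferentiableOn ℂ (fderiv ℂ E) (Metric.ball 0 3) :=
        ((contDiffOn_infty_iff_fderiv_of_isOpen Metric.isOpen_ball).1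
          (contDiffOn_of_differentiableOn Metric.isOpen_ball hE)).2.differentiableOn (by simp)
      have h1 : DifferentiableOn ℂ (fun η => LL b E s (zt (1 - s) η)) Ω' := by
        unfold LL
        have h1a : DifferentiableOn ℂ (fun η => fderiv ℂ E (zt (1 - s) η)) Ω' :=
          hE1.comp hztd fun η hη => (hΩ'm η hη).1
        exact (differentiableOn_const _).add (h1a.fun_const_smul (s : ℂ))
      have h2 : DifferentiableOn ℂ (fun η => QQ E (zt (1 - s) η)) Ω' :=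
        (differentiableOn_QQ hE).comp hztd fun η hη => (hΩ'm η hη).1
      have h3 : DifferentiableOn ℂ (fun η => Ring.inverse (LL b E s (zt (1 - s) η))) Ω' := by
        intro η hη
        have h4 : DifferentiableAt ℂ (fun η => LL b E s (zt (1 - s) η)) η :=
          (h1 η hη).differentiableAt (hΩ'o.mem_nhds hη)
        have h5 := differentiableAt_inverse (𝕜 := ℂ) (isUnit_LL hq hEq hb hs (hΩ'm η hη).1)
        exact (DifferentiableAt.comp (f := fun η => LL b E s (zt (1 - s) η)) η h5 h4).differentiableWithinAt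
      exact h3.mul h2
    have hQn : ∀ η : V n, ‖η‖ ≤ 1 → ‖Q η‖ ≤ 1 := by
      intro η hη
      have hm := hmemball s hs η hη
      rw [hQ]
      refine (norm_mul_le _ _).trans ?_
      calc _ ≤ q⁻¹ * q := mul_le_mul (norm_inverse_LL hq hEq hb hs hm) (norm_QQ_le hEq hm) (norm_nonneg _)
            (inv_nonneg.2 hq.le)
        _ = 1 := inv_mul_cancel₀ hq.ne'
    have hst := star hΩ'o hΩ'B (hfC.of_le two_le) hfp hQD hQn
    have hfd : ∀ η ∈ Ω', ∀ w, fderiv ℝ f η w = fderiv ℝ v (κ η)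
        (LL b E s (zt (1 - s) η) (((Real.exp (1 - s) : ℝ) : ℂ) • w)) := by
      intro η hη w
      have hmem : κ η ∈ Ω := by rw [hκ]; exact (hΩ'm η hη).2
      have h1 : HasFDerivAt v (fderiv ℝ v (κ η)) (κ η) :=
        ((hv1.contDiffAt (hΩ.mem_nhds hmem)).differentiableAt (by norm_num)).hasFDerivAt
      have h2 := (hκd η hη).restrictScalars ℝ
      have h3 := HasFDerivAt.comp (f := κ) η h1 h2
      rw [hf, show (fun η => v (κ η)) = v ∘ κ from rfl, h3.fderiv]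
      simp
    have hpt : ∀ η : V n, rho η * fderiv ℝ G (s, η) (1, 0) =
        rho η * fderiv ℝ f η (Q η η) - rho η * fderiv ℝ f η η := by
      intro η
      rcases le_or_gt ‖η‖ 1 with hη | hη
      · have hηW := hmemW s hs η hη
        have hηΩ := hΩ'B (mem_closedBall_zero_iff.2 hη)
        have hm := hmemball s hs η hη
        have hmem : κ η ∈ Ω := by rw [hκ]; exact (hΩ'm η hηΩ).2
        have h1 : HasFDerivAt G (fderiv ℝ G (s, η)) (s, η) :=
          ((hG.contDiffAt (hWo.mem_nhds hηW)).differentiableAt (by norm_num)).hasFDerivAt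
        have h2 : HasDerivAt (fun s : ℝ => (s, η)) ((1 : ℝ), (0 : V n)) s :=
          (hasDerivAt_id s).prodMk (hasDerivAt_const s η)
        have h3 := h1.comp_hasDerivAt s h2
        have h4 : HasDerivAt (fun s : ℝ => FF b E s (zt (1 - s) η))
            (E (zt (1 - s) η) - LL b E s (zt (1 - s) η) (zt (1 - s) η)) s := by
          have h5 := hasDerivAt_zt s η
          have h6 : HasFDerivAt E (fderiv ℂ E (zt (1 - s) η)) (zt (1 - s) η) :=
            ((hE _ hm).differentiableAt (Metric.isOpen_ball.mem_nhds hm)).hasFDerivAt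
          have h7 := (h6.restrictScalars ℝ).comp_hasDerivAt s h5
          have h8 : HasDerivAt (fun s : ℝ => (s : ℂ)) 1 s := Complex.ofRealCLM.hasDerivAt
          have h9 := h8.smul h7
          have h10 := (h5.const_smul b).add h9
          refine h10.congr_deriv ?_
          rw [LL_apply]
          simp only [ContinuousLinearMap.coe_restrictScalars', Function.comp_apply, map_neg, smul_neg, one_smul]
          abel
        have h11 : HasFDerivAt v (fderiv ℝ v (κ η)) (FF b E s (zt (1 - s) η)) := by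
          have := ((hv1.contDiffAt (hΩ.mem_nhds hmem)).differentiableAt (by norm_num)).hasFDerivAt
          rw [hκ] at this ⊢
          exact this
        have h12 := h11.comp_hasDerivAt s h4
        have h13 : fderiv ℝ G (s, η) (1, 0) = fderiv ℝ v (κ η)
            (E (zt (1 - s) η) - LL b E s (zt (1 - s) η) (zt (1 - s) η)) := by
          refine h3.unique ?_
          rw [hGdef]
          exact h12
        rw [h13, map_sub, hfd η hηΩ, hfd η hηΩ, mul_sub]
        congr 3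
        · -- `E ζ = Q ζ ζ`
          have h14 : LL b E s (zt (1 - s) η) (((Real.exp (1 - s) : ℝ) : ℂ) • Q η η) = E (zt (1 - s) η) := by
            rw [map_smul, hQ]
            simp only [mul_apply_eq_comp]
            rw [LL_inverse hq hEq hb hs hm, ← map_smul]
            exact QQ_apply_self hE hE0 hm
          rw [h14]
      · rw [rho_eq_zero hη.le]
        ring
    simp only [hpt]
    have hI1 : Integrable fun η : V n => rho η * fderiv ℝ f η (Q η η) := by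
      refine intg rho_contDiff.continuous (fun _ h => rho_eq_zero h) (ContinuousOn.mono ?_ hΩ'B)
      have h1 : ContinuousOn (fderiv ℝ f) Ω' := (hfC.fderiv_of_isOpen (m := 0) hΩ'o (by simp)).continuousOn
      exact h1.clm_apply (hQD.continuousOn.clm_apply continuousOn_id)
    have hI2 : Integrable fun η : V n => rho η * fderiv ℝ f η η := by
      refine intg rho_contDiff.continuous (fun _ h => rho_eq_zero h) (ContinuousOn.mono ?_ hΩ'B)
      have h1 : ContinuousOn (fderiv ℝ f) Ω' := (hfC.fderiv_of_isOpen (m := 0) hΩ'o (by simp)).continuousOn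
      exact h1.clm_apply continuousOn_id
    rw [integral_sub hI1 hI2]
    linarith
  -- monotonicity
  have hdv : ∀ s ∈ Icc (0 : ℝ) 1, HasDerivAt (fun s => ∫ η, rho η * G (s, η))
      (∫ η, rho η * fderiv ℝ G (s, η) (1, 0)) s := fun s hs => hasDerivAt_int hWo hG (hmemW s hs)
  have hanti : AntitoneOn (fun s => ∫ η, rho η * G (s, η)) (Icc (0 : ℝ) 1) := by
    refine antitoneOn_of_deriv_nonpos (convex_Icc 0 1)
      (fun s hs => (hdv s hs).continuousAt.continuousWithinAt)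
      (fun s hs => (hdv s (interior_subset hs)).differentiableAt.differentiableWithinAt) fun s hs => ?_
    rw [(hdv s (interior_subset hs)).deriv]
    exact hder s (interior_subset hs)
  have hfin := hanti (left_mem_Icc.2 zero_le_one) (right_mem_Icc.2 zero_le_one) zero_le_one
  simp only [hGdef, FF, zt, sub_self, sub_zero, Real.exp_zero, Complex.ofReal_one, one_smul,
    Complex.ofReal_zero, zero_smul, add_zero] at hfin
  have h0 : ∫ η : V n, rho η * v (b • ((Real.exp 1 : ℝ) : ℂ) • η) = Phi v 0 (2 * q * Real.exp 1) := by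
    have h1 := M_radial v 0 (b * ((Real.exp 1 : ℝ) : ℂ))
    rw [norm_mul, hb, Complex.norm_real, Real.norm_eq_abs, abs_of_pos (Real.exp_pos 1)] at h1
    rw [← h1]
    unfold M
    refine integral_congr_ae (Eventually.of_forall fun η => ?_)
    simp [mul_smul]
  rw [h0] at hfin
  exact hfin

end Pool.Agent.Helper22.AM
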