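import Pool.Agent.Helper22.AM.CC2
import Pool.Agent.Helper29.AM.GS4

/-!
# Project AM, section 4: (4.1), (4.2), (4.3)
-/

set_option autoImplicit false

namespace Pool.Agent.Helper22.AM

open Pool.Agent.Helper29.AM
open MeasureTheory Set Filter Topology
open scoped ComplexOrder

variable {n : ℕ} {E : V n → V n} {q : ℝ}

/-- (4.1) -/
theorem cmp_smooth (hq : 0 < q) (hE : DifferentiableOn ℂ E (Metric.ball 0 3)) (hE0 : E 0 = 0)
    (hEq : ∀ z ∈ Metric.ball (0 : V n) 3, ‖fderiv ℂ E z‖ ≤ q)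
    {Ω : Set (V n)} (hΩ : IsOpen Ω) {v : V n → ℝ} (hv : SPsh Ω v)
    (hB : Metric.closedBall 0 (9 * q) ⊆ Ω) :
    ∫ η, rho η * v (E η) ≤ Phi v 0 (2 * q * Real.exp 1) := by
  have hpi : (0 : ℝ) ≤ 2 * Real.pi := by positivity
  have hball : ∀ η ∈ Metric.closedBall (0 : V n) 1, η ∈ Metric.ball (0 : V n) 3 := fun η hη => by
    rw [mem_closedBall_zero_iff] at hη
    rw [mem_ball_zero_iff]
    linarith
  have hEc : ContinuousOn E (Metric.closedBall 0 1) := hE.continuousOn.mono hball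
  have hvc : ContinuousOn v (Metric.closedBall 0 (9 * q)) := hv.smooth.continuousOn.mono hB
  obtain ⟨f, hf⟩ : ∃ f : ℝ → V n → ℝ, f = fun (θ : ℝ) (η : V n) =>
    rho η * v (E η + Complex.exp (θ * Complex.I) • (((2 * q : ℝ) : ℂ) • η)) := ⟨_, rfl⟩
  have hnorm : ∀ η ∈ Metric.closedBall (0 : V n) 1, ∀ ζ : ℂ, ‖ζ‖ ≤ 1 →
      E η + ζ • (((2 * q : ℝ) : ℂ) • η) ∈ Metric.closedBall (0 : V n) (9 * q) := by
    intro η hη ζ hζ
    have h1 := norm_E_le hE hE0 hEq (hball η hη)
    rw [mem_closedBall_zero_iff] at hη ⊢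
    refine (norm_add_le _ _).trans ?_
    rw [norm_smul, norm_smul, Complex.norm_real, Real.norm_eq_abs, abs_of_pos (by positivity)]
    have h2 : q * ‖η‖ ≤ q * 1 := mul_le_mul_of_nonneg_left hη hq.le
    have h3 : ‖ζ‖ * (2 * q * ‖η‖) ≤ 1 * (2 * q * 1) :=
      mul_le_mul hζ (mul_le_mul_of_nonneg_left hη (by positivity)) (by positivity) zero_le_one
    linarith
  -- integrability on the product
  have hK : IsCompact (Icc (0 : ℝ) (2 * Real.pi) ×ˢ Metric.closedBall (0 : V n) 1) :=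
    isCompact_Icc.prod (isCompact_closedBall _ _)
  have hFc : ContinuousOn (Function.uncurry f) (Icc (0 : ℝ) (2 * Real.pi) ×ˢ Metric.closedBall (0 : V n) 1) := by
    rw [hf]
    have h1 : ContinuousOn (fun p : ℝ × V n => E p.2) (Icc (0 : ℝ) (2 * Real.pi) ×ˢ Metric.closedBall (0 : V n) 1) :=
      hEc.comp continuousOn_snd fun p hp => hp.2
    have h2 : ContinuousOn (fun p : ℝ × V n => E p.2 + Complex.exp (p.1 * Complex.I) • (((2 * q : ℝ) : ℂ) • p.2))
        (Icc (0 : ℝ) (2 * Real.pi) ×ˢ Metric.closedBall (0 : V n) 1) :=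
      h1.add (Continuous.continuousOn (by fun_prop))
    have h3 := hvc.comp h2 fun p hp => hnorm p.2 hp.2 _ (by rw [Complex.norm_exp_ofReal_mul_I])
    exact ((rho_contDiff.continuous.comp continuous_snd).continuousOn).mul h3
  have hI1 : IntegrableOn (Function.uncurry f) (Icc (0 : ℝ) (2 * Real.pi) ×ˢ Metric.closedBall (0 : V n) 1)
      ((volume : Measure ℝ).prod (volume : Measure (V n))) := hFc.integrableOn_compact hK
  have hI2 : IntegrableOn (Function.uncurry f) (Icc (0 : ℝ) (2 * Real.pi) ×ˢ (univ : Set (V n)))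
      ((volume : Measure ℝ).prod (volume : Measure (V n))) := by
    refine hI1.of_forall_sdiff_eq_zero (measurableSet_Icc.prod MeasurableSet.univ) fun p hp => ?_
    have h1 : 1 < ‖p.2‖ := by
      by_contra h
      exact hp.2 ⟨hp.1.1, mem_closedBall_zero_iff.2 (not_lt.1 h)⟩
    rw [hf]
    show rho p.2 * _ = 0
    rw [rho_eq_zero h1.le, zero_mul]
  have hI3 : Integrable (Function.uncurry f) (((volume : Measure ℝ).restrict (Ioc 0 (2 * Real.pi))).prod
      (volume : Measure (V n))) := by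
    have h1 : ((volume : Measure ℝ).restrict (Ioc 0 (2 * Real.pi))).prod (volume : Measure (V n)) =
        ((volume : Measure ℝ).prod (volume : Measure (V n))).restrict (Ioc 0 (2 * Real.pi) ×ˢ univ) := by
      rw [← Measure.prod_restrict, Measure.restrict_univ]
    rw [h1]
    exact hI2.mono_set (prod_mono Ioc_subset_Icc_self subset_rfl)
  have hsw := integral_integral_swap hI3
  -- the mean value inequality
  have hv0 : Integrable fun η : V n => rho η * v (E η) := by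
    refine intg rho_contDiff.continuous (fun _ h => rho_eq_zero h) ?_
    refine hvc.comp hEc fun η hη => ?_
    have := hnorm η hη 0 (by simp)
    simpa using this
  have hA : 2 * Real.pi * ∫ η, rho η * v (E η) ≤ ∫ η, ∫ θ in Ioc (0 : ℝ) (2 * Real.pi), f θ η := by
    rw [← integral_const_mul]
    refine integral_mono (hv0.const_mul _) hI3.integral_prod_right fun η => ?_
    show 2 * Real.pi * (rho η * v (E η)) ≤ ∫ θ in Ioc (0 : ℝ) (2 * Real.pi), f θ η
    rcases le_or_gt ‖η‖ 1 with hη | hη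
    · have hη' : η ∈ Metric.closedBall (0 : V n) 1 := mem_closedBall_zero_iff.2 hη
      have h1 := Pool.Agent.Helper13.AM.SPsh.circle hΩ hv (a := E η) (b := ((2 * q : ℝ) : ℂ) • η)
        fun ζ hζ => hB (hnorm η hη' ζ hζ)
      rw [intervalIntegral.integral_of_le hpi] at h1
      rw [hf]
      simp only
      rw [integral_const_mul]
      have h2 := mul_le_mul_of_nonneg_left h1 (rho_nonneg η)
      linarith
    · rw [hf]
      simp only [rho_eq_zero hη.le, zero_mul, mul_zero, integral_zero, le_refl]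
  have hBd : ∫ θ in Ioc (0 : ℝ) (2 * Real.pi), ∫ η, f θ η ≤ 2 * Real.pi * Phi v 0 (2 * q * Real.exp 1) := by
    have h1 : ∫ θ in Ioc (0 : ℝ) (2 * Real.pi), ∫ η, f θ η ≤
        ∫ _θ in Ioc (0 : ℝ) (2 * Real.pi), Phi v 0 (2 * q * Real.exp 1) := by
      refine integral_mono hI3.integral_prod_left (integrable_const _) fun θ => ?_
      have h2 := step_b (b := Complex.exp (θ * Complex.I) * ((2 * q : ℝ) : ℂ)) hq hE hE0 hEq
        (by rw [norm_mul, Complex.norm_exp_ofReal_mul_I, Complex.norm_real, Real.norm_eq_abs,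
          abs_of_pos (by positivity), one_mul]) hΩ hv hB
      refine le_trans (le_of_eq ?_) h2
      rw [hf]
      refine integral_congr_ae (Eventually.of_forall fun η => ?_)
      simp only [mul_smul]
      rw [add_comm]
    refine h1.trans (le_of_eq ?_)
    rw [setIntegral_const, smul_eq_mul]
    congr 1
    simp [Measure.real, Real.volume_Ioc, Real.pi_pos.le]
  rw [← hsw] at hA
  have h3 := hA.trans hBd
  exact le_of_mul_le_mul_left h3 (by positivity)

theorem _root_.Pool.Agent.Helper29.AM.Bih.symm' {Ω' Ω : Set (V n)} {κ κi : V n → V n}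
    (h : Bih Ω' Ω κ κi) : Bih Ω Ω' κi κ :=
  ⟨h.open2, h.open1, h.hol', h.hol, h.maps', h.maps, h.right, h.left⟩

theorem lev_translate {u : V n → ℝ} {a z : V n} (hu : ContDiffAt ℝ 2 u (a + z)) (w : V n) :
    lev (fun y => u (a + y)) z w = lev u (a + z) w := by
  have h1 : ContDiffAt ℂ 2 (fun y : V n => a + y) z := contDiffAt_const.add contDiffAt_id
  have h2 := lev_comp_holo (κ := fun y : V n => a + y) h1 hu w
  rw [h2]
  congr 1
  have h3 : HasFDerivAt (𝕜 := ℂ) (fun y : V n => a + y) (ContinuousLinearMap.id ℂ (V n)) z :=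
    (hasFDerivAt_id z).const_add a
  rw [h3.fderiv]
  rfl

/-- (4.2), (4.3): comparison of the means in two systems of coordinates, for distributional
psh functions -/
theorem cmp_bih {Ω' Ω : Set (V n)} {κ κi : V n → V n} (h : Bih Ω' Ω κ κi) {K : Set (V n)}
    (hK : IsCompact K) (hKΩ : K ⊆ Ω') : ∃ C₂ d₁ : ℝ, 1 ≤ C₂ ∧ 0 < d₁ ∧ C₂ * d₁ ≤ 1 ∧
      (∀ z ∈ K, z ∈ shr Ω' (C₂ * d₁)) ∧ ∀ u : V n → ℝ, PSHd Ω u → ∀ z ∈ K, ∀ t, 0 < t → t ≤ d₁ →
        Phi u (κ z) t ≤ Phi (fun y => u (κ y)) z (C₂ * t) := by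
  have hκK : IsCompact (κ '' K) := hK.image_of_continuousOn (h.hol.continuousOn.mono hKΩ)
  have hκKΩ : κ '' K ⊆ Ω := by
    rintro _ ⟨z, hz, rfl⟩
    exact h.maps (hKΩ hz)
  obtain ⟨δ₁, hδ₁, hs1⟩ := hκK.exists_cthickening_subset_open h.open2 hκKΩ
  obtain ⟨δ₂, hδ₂, hs2⟩ := hK.exists_cthickening_subset_open h.open1 hKΩ
  have hL : IsCompact (Metric.cthickening δ₁ (κ '' K)) := hκK.cthickening
  obtain ⟨Λ₀, hΛ₀⟩ := hL.exists_bound_of_continuousOn ((continuousOn_fderiv h.open2 h.hol').mono hs1)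
  obtain ⟨Λ, hΛ⟩ : ∃ Λ : ℝ, Λ = max Λ₀ 1 := ⟨_, rfl⟩
  have hΛ1 : 1 ≤ Λ := by rw [hΛ]; exact le_max_right _ _
  have hΛ0 : 0 < Λ := by linarith
  have hΛb : ∀ y ∈ Metric.cthickening δ₁ (κ '' K), ‖fderiv ℂ κi y‖ ≤ Λ := fun y hy =>
    (hΛ₀ y hy).trans (by rw [hΛ]; exact le_max_left _ _)
  have he3 := exp_one_lt_3
  have he1 : 1 ≤ Real.exp 1 := Real.one_le_exp zero_le_one
  obtain ⟨d₁, hd₁⟩ : ∃ d₁ : ℝ, d₁ = min (δ₁ / 4) (min (δ₂ / (10 * Λ)) (1 / (6 * Λ))) := ⟨_, rfl⟩
  have hd0 : 0 < d₁ := by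
    rw [hd₁]
    exact lt_min (by positivity) (lt_min (by positivity) (by positivity))
  have hd1 : d₁ ≤ δ₁ / 4 := by rw [hd₁]; exact min_le_left _ _
  have hd2 : Λ * d₁ ≤ δ₂ / 10 := by
    have : d₁ ≤ δ₂ / (10 * Λ) := by rw [hd₁]; exact (min_le_right _ _).trans (min_le_left _ _)
    calc Λ * d₁ ≤ Λ * (δ₂ / (10 * Λ)) := mul_le_mul_of_nonneg_left this hΛ0.le
      _ = δ₂ / 10 := by field_simp
  have hd3 : Λ * d₁ ≤ 1 / 6 := by
    have : d₁ ≤ 1 / (6 * Λ) := by rw [hd₁]; exact (min_le_right _ _).trans (min_le_right _ _)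
    calc Λ * d₁ ≤ Λ * (1 / (6 * Λ)) := mul_le_mul_of_nonneg_left this hΛ0.le
      _ = 1 / 6 := by field_simp
  have hΛd : 0 < Λ * d₁ := mul_pos hΛ0 hd0
  have hsub2 : ∀ z ∈ K, ∀ y : V n, ‖y - z‖ ≤ δ₂ → y ∈ Ω' := by
    intro z hz y hy
    apply hs2
    refine Metric.mem_cthickening_of_dist_le y z δ₂ K hz ?_
    rw [dist_eq_norm]
    exact hy
  refine ⟨2 * Λ * Real.exp 1, d₁, ?_, hd0, ?_, ?_, ?_⟩
  · nlinarith
  · have : 2 * Λ * Real.exp 1 * d₁ = 2 * Real.exp 1 * (Λ * d₁) := by ring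
    rw [this]
    nlinarith
  · intro z hz y hy
    refine hsub2 z hz y ?_
    rw [Metric.mem_closedBall, dist_eq_norm] at hy
    refine hy.trans ?_
    have : 2 * Λ * Real.exp 1 * d₁ = 2 * Real.exp 1 * (Λ * d₁) := by ring
    rw [this]
    nlinarith
  · intro u hu z hz t ht htd
    have hκz : κ z ∈ κ '' K := ⟨z, hz, rfl⟩
    have htΛ : Λ * t ≤ δ₂ / 10 := (mul_le_mul_of_nonneg_left htd hΛ0.le).trans hd2
    have hq : 0 < Λ * t := mul_pos hΛ0 ht
    -- the holomorphic map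
    obtain ⟨E, hEdef⟩ : ∃ E : V n → V n, E = fun η => κi (κ z + (t : ℂ) • η) - z := ⟨_, rfl⟩
    have hin : ∀ η ∈ Metric.ball (0 : V n) 3, κ z + (t : ℂ) • η ∈ Metric.cthickening δ₁ (κ '' K) := by
      intro η hη
      refine Metric.mem_cthickening_of_dist_le _ (κ z) δ₁ _ hκz ?_
      rw [dist_eq_norm, add_sub_cancel_left, norm_smul, Complex.norm_real, Real.norm_eq_abs, abs_of_pos ht]
      rw [mem_ball_zero_iff] at hη
      have h1 : t * ‖η‖ ≤ (δ₁ / 4) * 3 := mul_le_mul (htd.trans hd1) hη.le (norm_nonneg _) (by positivity)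
      linarith
    have hEd : ∀ η ∈ Metric.ball (0 : V n) 3, HasFDerivAt E ((fderiv ℂ κi (κ z + (t : ℂ) • η)).comp
        ((t : ℂ) • ContinuousLinearMap.id ℂ (V n))) η := by
      intro η hη
      have h1 := hs1 (hin η hη)
      have h2 : HasFDerivAt κi (fderiv ℂ κi (κ z + (t : ℂ) • η)) (κ z + (t : ℂ) • η) :=
        ((h.hol' _ h1).differentiableAt (h.open2.mem_nhds h1)).hasFDerivAt
      have h3 : HasFDerivAt (fun η : V n => κ z + (t : ℂ) • η) ((t : ℂ) • ContinuousLinearMap.id ℂ (V n)) η :=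
        (((t : ℂ) • ContinuousLinearMap.id ℂ (V n)).hasFDerivAt).const_add _
      rw [hEdef]
      exact (HasFDerivAt.comp (f := fun η : V n => κ z + (t : ℂ) • η) η h2 h3).sub_const z
    have hE : DifferentiableOn ℂ E (Metric.ball 0 3) := fun η hη =>
      (hEd η hη).differentiableAt.differentiableWithinAt
    have hE0 : E 0 = 0 := by
      rw [hEdef]
      simp [h.left z (hKΩ hz)]
    have hEq : ∀ η ∈ Metric.ball (0 : V n) 3, ‖fderiv ℂ E η‖ ≤ Λ * t := by
      intro η hη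
      rw [(hEd η hη).fderiv]
      refine (ContinuousLinearMap.opNorm_comp_le _ _).trans ?_
      have h1 : ‖(t : ℂ) • ContinuousLinearMap.id ℂ (V n)‖ ≤ t := by
        rw [norm_smul, Complex.norm_real, Real.norm_eq_abs, abs_of_pos ht]
        calc t * ‖ContinuousLinearMap.id ℂ (V n)‖ ≤ t * 1 :=
              mul_le_mul_of_nonneg_left ContinuousLinearMap.norm_id_le ht.le
          _ = t := mul_one t
      exact mul_le_mul (hΛb _ (hin η hη)) h1 (norm_nonneg _) hΛ0.le
    -- the function in the first coordinates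
    obtain ⟨uk, huk⟩ : ∃ uk : V n → ℝ, uk = fun y => u (κ y) := ⟨_, rfl⟩
    have hukP : PSHd Ω' uk := by
      have h1 := GS.comp h hu
      simp only [mul_zero] at h1
      rw [huk]
      exact h1
    have hrad : 0 < 2 * (Λ * t) * Real.exp 1 := by positivity
    have hzs : z ∈ shr Ω' (2 * (Λ * t) * Real.exp 1) := by
      intro y hy
      refine hsub2 z hz y ?_
      rw [Metric.mem_closedBall, dist_eq_norm] at hy
      refine hy.trans ?_
      nlinarith
    have hlim := tendsto_Phi_mollify h.open1 hukP.int hrad hzs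
    have hgoal : 2 * Λ * Real.exp 1 * t = 2 * (Λ * t) * Real.exp 1 := by ring
    rw [hgoal]
    show Phi u (κ z) t ≤ Phi (fun y => u (κ y)) z _
    rw [← huk]
    refine ge_of_tendsto hlim ?_
    have hev : ∀ᶠ ε : ℝ in 𝓝[>] 0, ε < δ₂ / 10 :=
      (eventually_lt_nhds (by positivity : (0 : ℝ) < δ₂ / 10)).filter_mono nhdsWithin_le_nhds
    filter_upwards [hev, self_mem_nhdsWithin] with ε hε hε0
    have hε0' : 0 < ε := hε0
    have hsm := PSHd.mollify h.open1 hukP hε0'
    have hso : IsOpen (shr Ω' ε) := isOpen_shr h.open1 ε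
    obtain ⟨Ωv, hΩv⟩ : ∃ Ωv : Set (V n), Ωv = {y | z + y ∈ shr Ω' ε} := ⟨_, rfl⟩
    have hΩvo : IsOpen Ωv := by rw [hΩv]; exact hso.preimage (continuous_const_add z)
    have two_le : (2 : WithTop ℕ∞) ≤ ((⊤ : ℕ∞) : WithTop ℕ∞) := by
      have h : ((2 : ℕ∞) : WithTop ℕ∞) ≤ ((⊤ : ℕ∞) : WithTop ℕ∞) := WithTop.coe_le_coe.2 le_top
      exact h
    have hvS : SPsh Ωv fun y => Phi uk (z + y) ε := by
      refine ⟨?_, fun y hy w => ?_⟩
      · exact hsm.smooth.comp (f := fun y : V n => z + y) (contDiff_const.add contDiff_id).contDiffOn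
          fun y hy => by rw [hΩv] at hy; exact hy
      · rw [hΩv] at hy
        rw [lev_translate (u := fun y => Phi uk y ε) ((hsm.smooth.contDiffAt (hso.mem_nhds hy)).of_le two_le)]
        exact hsm.psh _ hy w
    have hnear : ∀ y : V n, ‖y‖ ≤ 9 * (Λ * t) → z + y ∈ shr Ω' ε := by
      intro y hy x hx
      refine hsub2 z hz x ?_
      rw [Metric.mem_closedBall, dist_eq_norm] at hx
      have h1 : x - z = (x - (z + y)) + y := by abel
      rw [h1]
      refine (norm_add_le _ _).trans ?_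
      linarith
    have hBv : Metric.closedBall 0 (9 * (Λ * t)) ⊆ Ωv := by
      intro y hy
      rw [hΩv]
      exact hnear y (mem_closedBall_zero_iff.1 hy)
    have hmain := cmp_smooth hq hE hE0 hEq hΩvo hvS hBv
    -- right side
    have hR : Phi (fun y => Phi uk (z + y) ε) 0 (2 * (Λ * t) * Real.exp 1) =
        Phi (fun y => Phi uk y ε) z (2 * (Λ * t) * Real.exp 1) := by
      unfold Phi M
      simp
    rw [hR] at hmain
    refine le_trans ?_ hmain
    -- left side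
    have hLeft : ∫ η, rho η * Phi uk (z + E η) ε = Phi (fun y => Phi uk (κi y) ε) (κ z) t := by
      unfold Phi M
      refine integral_congr_ae (Eventually.of_forall fun η => ?_)
      rw [hEdef]
      simp only [add_sub_cancel, sc_apply]
    rw [hLeft]
    obtain ⟨Ω₂, hΩ₂⟩ : ∃ Ω₂ : Set (V n), Ω₂ = Ω ∩ κi ⁻¹' (shr Ω' ε) := ⟨_, rfl⟩
    have hΩ₂o : IsOpen Ω₂ := by rw [hΩ₂]; exact h.hol'.continuousOn.isOpen_inter_preimage h.open2 hso
    have hΩ₂s : Ω₂ ⊆ Ω := by rw [hΩ₂]; exact inter_subset_left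
    refine Phi_mono hΩ₂o (hu.int.mono_set hΩ₂s) ?_ ?_ ht ?_
    · refine ContinuousOn.locallyIntegrableOn ?_ hΩ₂o.measurableSet
      refine hsm.smooth.continuousOn.comp (h.hol'.continuousOn.mono hΩ₂s) fun y hy => ?_
      rw [hΩ₂] at hy
      exact hy.2
    · have h1 := le_Phi h.open1 hukP
      have h2 := h.symm'.ae h1
      filter_upwards [h2] with y hy hyΩ
      rw [hΩ₂] at hyΩ
      have h3 := hy hyΩ.1 ε hε0' hyΩ.2
      rw [huk] at h3 ⊢
      simp only [h.right y hyΩ.1] at h3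
      exact h3
    · rw [mem_shr_iff ht.le]
      intro η hη
      rw [sc_apply, hΩ₂]
      have hη3 : η ∈ Metric.ball (0 : V n) 3 := by
        rw [mem_ball_zero_iff]
        linarith
      refine ⟨hs1 (hin η hη3), ?_⟩
      have h1 : κi (κ z + (t : ℂ) • η) = z + E η := by
        rw [hEdef]
        simp
      rw [mem_preimage, h1]
      apply hnear
      refine (norm_E_le hE hE0 hEq hη3).trans ?_
      have : Λ * t * ‖η‖ ≤ Λ * t * 1 := mul_le_mul_of_nonneg_left hη hq.le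
      linarith

end Pool.Agent.Helper22.AM
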