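import Pool.Agent.Helper22.AM.CC3
import Pool.Agent.Helper29.AM.GA2

/-!
# Project AM, section 4: comparison of the means of potentials in two charts
-/

set_option autoImplicit false

namespace Pool.Agent.Helper22.AM

open Pool.Agent.Helper29.AM
open MeasureTheory Set Filter Topology
open scoped ComplexOrder

theorem exists_pos_le {ι : Type*} [Finite ι] (f : ι → ℝ) (hf : ∀ i, 0 < f i) :
    ∃ m : ℝ, 0 < m ∧ ∀ i, m ≤ f i := by
  cases nonempty_fintype ι
  rcases isEmpty_or_nonempty ι with h | h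
  · exact ⟨1, one_pos, fun i => (h.false i).elim⟩
  · refine ⟨Finset.univ.inf' Finset.univ_nonempty f, ?_, fun i => Finset.inf'_le _ (Finset.mem_univ i)⟩
    rw [Finset.lt_inf'_iff]
    exact fun i _ => hf i

theorem exists_le_all {ι : Type*} [Finite ι] (f : ι → ℝ) : ∃ m : ℝ, 1 ≤ m ∧ ∀ i, f i ≤ m := by
  obtain ⟨M, hM⟩ := (Set.finite_range f).bddAbove
  exact ⟨max M 1, le_max_right _ _, fun i => (hM ⟨i, rfl⟩).trans (le_max_left _ _)⟩

variable {X : Type} [TopologicalSpace X] [MeasurableSpace X] {n N : ℕ} (A : Atl X n N)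

/-- pluriharmonic functions are equal to their means -/
theorem Phi_ph {Ω : Set (V n)} (hΩ : IsOpen Ω) {h : V n → ℝ} (hs : ContDiffOn ℝ (⊤ : ℕ∞) h Ω)
    (h0 : ∀ z ∈ Ω, ∀ w, lev h z w = 0) {t : ℝ} (ht : 0 ≤ t) {z : V n} (hz : z ∈ shr Ω t) :
    Phi h z t = h z := by
  have two_le : (2 : WithTop ℕ∞) ≤ ((⊤ : ℕ∞) : WithTop ℕ∞) := by
    have h : ((2 : ℕ∞) : WithTop ℕ∞) ≤ ((⊤ : ℕ∞) : WithTop ℕ∞) := WithTop.coe_le_coe.2 le_top
    exact h
  have h1 : SPsh Ω h := ⟨hs, fun z hz v => by rw [h0 z hz]⟩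
  have h2 : SPsh Ω fun z => (-1 : ℝ) * h z := by
    refine ⟨contDiffOn_const.mul hs, fun z hz v => ?_⟩
    rw [lev_const_mul (-1) ((hs.contDiffAt (hΩ.mem_nhds hz)).of_le two_le), h0 z hz]
    simp
  have h3 := SPsh.le_Phi hΩ h1 ht hz
  have h4 := SPsh.le_Phi hΩ h2 ht hz
  have h5 : Phi (fun z => (-1 : ℝ) * h z) z t = -Phi h z t := by
    unfold Phi M
    rw [← integral_neg]
    refine integral_congr_ae (Eventually.of_forall fun η => ?_)
    ring
  rw [h5] at h4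
  linarith

variable [CompactSpace X] [T2Space X] [BorelSpace X]

/-- (4.3) for two charts -/
theorem exists_cmp1 (_hn : 0 < n) : ∃ C₂ d₁ : ℝ, 1 ≤ C₂ ∧ 0 < d₁ ∧ C₂ * d₁ ≤ 1 ∧
    ∀ (v : X → ℝ), A.PSX v → ∀ (i j : Fin N) (x : X), x ∈ A.Ci i 2 → x ∈ A.Ci j 2 →
      ∀ t, 0 < t → t ≤ d₁ →
      Phi (A.pot j v) (A.e j x) t - A.g j (A.e j x) ≤
        Phi (A.pot i v) (A.e i x) (C₂ * t) - A.g i (A.e i x) := by
  -- the compact sets
  have hK : ∀ i j, IsCompact ((A.e i) '' (A.Ci i 2 ∩ A.Ci j 2)) := by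
    intro i j
    refine ((A.isCompact_Ci i (by norm_num)).inter_right (A.isCompact_Ci j (by norm_num)).isClosed).image_of_continuousOn ?_
    exact (A.e i).continuousOn.mono fun x hx => hx.1.1
  have hKs : ∀ i j, (A.e i) '' (A.Ci i 2 ∩ A.Ci j 2) ⊆ ((A.e i).symm.trans (A.e j)).source := by
    rintro i j _ ⟨x, hx, rfl⟩
    refine ⟨(A.e i).map_source hx.1.1, ?_⟩
    show (A.e i).symm (A.e i x) ∈ (A.e j).source
    rw [(A.e i).left_inv hx.1.1]
    exact hx.2.1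
  have hall : ∀ p : Fin N × Fin N, ∃ C₂ d₁ : ℝ, 1 ≤ C₂ ∧ 0 < d₁ ∧ C₂ * d₁ ≤ 1 ∧
      (∀ z ∈ (A.e p.1) '' (A.Ci p.1 2 ∩ A.Ci p.2 2),
        z ∈ shr ((A.e p.1).symm.trans (A.e p.2)).source (C₂ * d₁)) ∧
      ∀ u : V n → ℝ, PSHd ((A.e p.1).symm.trans (A.e p.2)).target u →
        ∀ z ∈ (A.e p.1) '' (A.Ci p.1 2 ∩ A.Ci p.2 2), ∀ t, 0 < t → t ≤ d₁ →
        Phi u (A.e p.2 ((A.e p.1).symm z)) t ≤ Phi (fun y => u (A.e p.2 ((A.e p.1).symm y))) z (C₂ * t) :=
    fun p => cmp_bih (A.bih p.1 p.2) (hK p.1 p.2) (hKs p.1 p.2)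
  choose C d hC1 hd0 hCd hshr hcmp using hall
  obtain ⟨C₂, hC₂1, hC₂⟩ := exists_le_all C
  obtain ⟨m, hm0, hm⟩ := exists_pos_le (fun p => min (d p) (C p * d p / C₂)) fun p =>
    lt_min (hd0 p) (div_pos (mul_pos (by linarith [hC1 p]) (hd0 p)) (by linarith))
  have hC₂0 : 0 < C₂ := by linarith
  refine ⟨C₂, min m (1 / C₂), hC₂1, lt_min hm0 (by positivity), ?_, ?_⟩
  · calc C₂ * min m (1 / C₂) ≤ C₂ * (1 / C₂) := mul_le_mul_of_nonneg_left (min_le_right _ _) hC₂0.le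
      _ = 1 := by field_simp
  intro v hv i j x hxi hxj t ht htd
  obtain ⟨z, hz⟩ : ∃ z, z = A.e i x := ⟨_, rfl⟩
  have hzK : z ∈ (A.e i) '' (A.Ci i 2 ∩ A.Ci j 2) := ⟨x, ⟨hxi, hxj⟩, hz.symm⟩
  have hκz : A.e j ((A.e i).symm z) = A.e j x := by rw [hz, (A.e i).left_inv hxi.1]
  have htm : t ≤ m := htd.trans (min_le_left _ _)
  have ht1 : t ≤ d (i, j) := htm.trans ((hm (i, j)).trans (min_le_left _ _))
  have ht2 : C₂ * t ≤ 1 := by
    calc C₂ * t ≤ C₂ * (1 / C₂) := mul_le_mul_of_nonneg_left (htd.trans (min_le_right _ _)) hC₂0.le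
      _ = 1 := by field_simp
  have hS : IsOpen ((A.e i).symm.trans (A.e j)).source := ((A.e i).symm.trans (A.e j)).open_source
  have hT : IsOpen ((A.e i).symm.trans (A.e j)).target := ((A.e i).symm.trans (A.e j)).open_target
  have hTs : ((A.e i).symm.trans (A.e j)).target ⊆ (A.e j).target := by
    rw [OpenPartialHomeomorph.trans_target]
    exact inter_subset_left
  have hSs : ((A.e i).symm.trans (A.e j)).source ⊆ (A.e i).target := by
    rw [OpenPartialHomeomorph.trans_source]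
    exact inter_subset_left
  have hPj : PSHd ((A.e i).symm.trans (A.e j)).target (A.pot j v) := (Atl.PSX.target A hv j).mono_set hT hTs
  have hPi : PSHd (A.e i).target (A.pot i v) := Atl.PSX.target A hv i
  have h1 := hcmp (i, j) _ hPj z hzK t ht ht1
  simp only at h1
  rw [hκz] at h1
  -- `pot j v ∘ κ = pot i v + h`
  obtain ⟨h, hh⟩ : ∃ h : V n → ℝ, h = fun y => A.g j (A.e j ((A.e i).symm y)) - A.g i y := ⟨_, rfl⟩
  have hκs : ContDiffOn ℝ (⊤ : ℕ∞) (fun y => A.e j ((A.e i).symm y)) ((A.e i).symm.trans (A.e j)).source :=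
    (contDiffOn_of_differentiableOn hS (A.hol i j)).restrict_scalars ℝ
  have hmapsT : MapsTo (fun y => A.e j ((A.e i).symm y)) ((A.e i).symm.trans (A.e j)).source (A.e j).target :=
    fun y hy => hTs (((A.e i).symm.trans (A.e j)).mapsTo hy)
  have hhs : ContDiffOn ℝ (⊤ : ℕ∞) h ((A.e i).symm.trans (A.e j)).source := by
    rw [hh]
    exact ((A.g_smooth j).comp hκs hmapsT).sub ((A.g_smooth i).mono hSs)
  have hh0 : ∀ y ∈ ((A.e i).symm.trans (A.e j)).source, ∀ w, lev h y w = 0 := by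
    intro y hy w
    rw [hh]
    exact A.g_compat i j y hy w
  have hr0 : 0 < C (i, j) * t := mul_pos (by linarith [hC1 (i, j)]) ht
  have hrd : C (i, j) * t ≤ C (i, j) * d (i, j) :=
    mul_le_mul_of_nonneg_left ht1 (by linarith [hC1 (i, j)])
  have hzs : z ∈ shr ((A.e i).symm.trans (A.e j)).source (C (i, j) * t) := by
    intro y hy
    exact hshr (i, j) z hzK (Metric.closedBall_subset_closedBall hrd hy)
  have h2 : Phi (fun y => A.pot j v (A.e j ((A.e i).symm y))) z (C (i, j) * t) =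
      Phi (A.pot i v) z (C (i, j) * t) + h z := by
    rw [← Phi_ph hS hhs hh0 hr0.le hzs, ← Phi_add hS (hPi.int.mono_set hSs)
      (hhs.continuousOn.locallyIntegrableOn hS.measurableSet) hr0 hzs]
    unfold Phi
    refine M_congr fun η hη => ?_
    have hmem : z + (sc (C (i, j) * t) : Lin n) η ∈ ((A.e i).symm.trans (A.e j)).source :=
      (mem_shr_iff hr0.le).1 hzs η hη.le
    rw [A.pot_comp i j v hmem, hh]
    ring
  rw [h2] at h1
  -- monotonicity in the radius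
  have hzn : ‖z‖ ≤ 2 := by rw [hz]; exact hxi.2
  have h3 : Phi (A.pot i v) z (C (i, j) * t) ≤ Phi (A.pot i v) z (C₂ * t) := by
    refine Phi_mono_radius (A.e i).open_target hPi hr0 (mul_le_mul_of_nonneg_right (hC₂ (i, j)) ht.le) ?_
    intro y hy
    apply A.ball i
    rw [mem_closedBall_zero_iff]
    rw [Metric.mem_closedBall, dist_eq_norm] at hy
    have h4 : y = (y - z) + z := by abel
    rw [h4]
    refine (norm_add_le _ _).trans ?_
    linarith
  have h5 : h z = A.g j (A.e j x) - A.g i z := by rw [hh]; simp only [hκz]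
  rw [h5] at h1
  rw [← hz]
  linarith

end Pool.Agent.Helper22.AM
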