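import Pool.Agent.Helper22.AM.Defs
import Pool.Agent.Helper99.EX.Trunc

/-!
# AM: no resonances. Definition
-/

set_option autoImplicit false

namespace Pool.Agent.Helper22.AM

open Pool.Agent.Helper22.AE

/-- a resonance between the frequencies `|k| H (tk k)` implies the same relation between the vectors `k` -/
def Res (H : ℝ → ℝ) : Prop :=
  ∀ (q : ℕ) (s : Fin q → ℤ) (k : Fin q → ℤ × ℤ), ∑ i, (s i : ℝ) * (nk (k i) * H (tk (k i))) = 0 → ∑ i, s i • k i = 0

end Pool.Agent.Helper22.AM
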