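import Pool.Agent.Helper22.AM.Defs
import Pool.Agent.Helper60.AD.Key

/-!
# AM-M4 (MP_fb29e9_nt): majorants for all blocks, from `low`, `high6` and `key2` (Borel-Cantelli)
-/

open MeasureTheory Real Set Filter Topology

set_option autoImplicit false

namespace Pool.Agent.Helper22.AM

open Pool.Agent.Helper22.AE
open Pool.Agent.Helper22.AC (cntc)
open Pool.Agent.Helper92.GC (dt sqa)
open Pool.Agent.Helper60.AD

private lemma fin_pow (x : ℝ) : ∃ n : ℕ, x ≤ 2 ^ n := by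
  obtain ⟨n, hn⟩ := pow_unbounded_of_one_lt x one_lt_two
  exact ⟨n, hn.le⟩

private lemma fin_bc {α : Type*} [MeasurableSpace α] {μ : Measure α} [IsFiniteMeasure μ] (s : ℕ → Set α) (b : ℕ → ℝ)
    (hb : Summable b) (h : ∀ N, μ.real (s N) ≤ b N) : ∀ᵐ x ∂μ, ∀ᶠ N in atTop, x ∉ s N := by
  have h1 : ∑' N, μ (s N) ≠ ⊤ := by
    have h2 : ∑' N, μ (s N) ≤ ∑' N, ENNReal.ofReal (b N) := by
      apply ENNReal.tsum_le_tsum
      intro N
      rw [← ofReal_measureReal]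
      exact ENNReal.ofReal_le_ofReal (h N)
    refine ne_top_of_le_ne_top ?_ h2
    exact hb.tsum_ofReal_ne_top
  exact ae_eventually_notMem h1

private lemma fin_summable {q : ℝ} (hq : 0 ≤ q) (hq1 : q < 1) (A : ℝ) : Summable (fun N : ℕ => ((N : ℝ) + 1) * (A * q ^ N)) := by
  have h1 : Summable (fun N : ℕ => ((N : ℝ) ^ 1 * q ^ N : ℝ)) :=
    summable_pow_mul_geometric_of_norm_lt_one 1 (by rw [Real.norm_of_nonneg hq]; exact hq1)
  have h2 : Summable (fun N : ℕ => q ^ N) := summable_geometric_of_lt_one hq hq1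
  have h3 := (h1.add h2).mul_left A
  refine h3.congr (fun N => ?_)
  ring

private lemma beta_le (N n : ℕ) (r : Fin 2) :
    ((2 : ℝ) ^ N * 2 ^ n) ^ (-(1 / 2) : ℝ) ≤ 2 * ((2 : ℝ) ^ N * 2 ^ (n + (r : ℕ))) ^ (-(1 / 2) : ℝ) := by
  have hA : (0 : ℝ) < 2 ^ N * 2 ^ n := by positivity
  have hr : (2 : ℝ) ^ (r : ℕ) ≤ 2 := by
    have : (r : ℕ) ≤ 1 := by omega
    calc (2 : ℝ) ^ (r : ℕ) ≤ 2 ^ 1 := pow_le_pow_right₀ (by norm_num) this
      _ = 2 := by norm_num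
  have hr0 : (0 : ℝ) < (2 : ℝ) ^ (r : ℕ) := by positivity
  have e : (2 : ℝ) ^ N * 2 ^ (n + (r : ℕ)) = (2 ^ N * 2 ^ n) * 2 ^ (r : ℕ) := by rw [pow_add]; ring
  rw [e, Real.mul_rpow hA.le hr0.le]
  have h1 : (2 : ℝ)⁻¹ ≤ ((2 : ℝ) ^ (r : ℕ)) ^ (-(1 / 2) : ℝ) := by
    have h2 : (4 : ℝ) ^ (-(1 / 2) : ℝ) = 2⁻¹ := by
      rw [Real.rpow_neg (by norm_num), show (4 : ℝ) = 2 ^ (2 : ℝ) by norm_num, ← Real.rpow_mul (by norm_num)]
      norm_num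
    rw [← h2]
    exact Real.rpow_le_rpow_of_nonpos hr0 (hr.trans (by norm_num)) (by norm_num)
  have h3 : 0 < ((2 : ℝ) ^ N * 2 ^ n) ^ (-(1 / 2) : ℝ) := Real.rpow_pos_of_pos hA _
  nlinarith

private lemma rp (N : ℕ) (t : ℝ) : ((2 : ℝ) ^ N) ^ t = ((2 : ℝ) ^ t) ^ N := by
  rw [← Real.rpow_natCast ((2 : ℝ) ^ t) N, ← Real.rpow_mul (by norm_num), ← Real.rpow_natCast 2 N, ← Real.rpow_mul (by norm_num)]
  congr 1
  ring

/-- a weaker bound for the integral -/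
theorem Maj.mono {h : ℝ → ℝ} {n : ℕ} {b : ℝ → ℤ × ℤ → ℂ} {β R₀ : ℝ} {p : ℕ} {A B : ℝ} (hM : Maj h n b β R₀ p A) (hAB : A ≤ B) :
    Maj h n b β R₀ p B := by
  obtain ⟨G, h1, h2, h3, h4⟩ := hM
  exact ⟨G, h1, h2, h3, h4.trans hAB⟩

/-- from the sixth moment and a bound for all radii to the moment of order `2 J` -/
theorem Maj.lift {h : ℝ → ℝ} {n : ℕ} {b : ℝ → ℤ × ℤ → ℂ} {β R₀ A S : ℝ} (hS : 0 ≤ S) {J : ℕ} (hJ : 3 ≤ J) (hM : Maj h n b β R₀ 6 A)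
    (hU : ∀ R ∈ Icc (R₀ / 2) (4 * R₀), ∀ c : ℝ × ℝ, Um h n b β R c ≤ S) : Maj h n b β R₀ (2 * J) (S ^ (2 * J - 6) * A) := by
  obtain ⟨G, h1, h2, h3, h4⟩ := hM
  refine ⟨fun R => min (G R) S, h1.min measurable_const, fun R => ⟨le_min (h2 R).1 hS, (min_le_left _ _).trans (h2 R).2⟩,
    fun R hR c => le_min (h3 R hR c) (hU R hR c), ?_⟩
  have hint : IntegrableOn (fun R => G R ^ 6) (Icc (R₀ / 2) (4 * R₀)) := by
    refine Integrable.of_bound (C := (500 * 4 ^ n) ^ 6) (h1.pow_const 6).aestronglyMeasurable (ae_of_all _ fun R => ?_)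
    rw [Real.norm_eq_abs, abs_of_nonneg (pow_nonneg (h2 R).1 6)]
    exact pow_le_pow_left₀ (h2 R).1 (h2 R).2 6
  have hle : ∀ R, (min (G R) S) ^ (2 * J) ≤ S ^ (2 * J - 6) * G R ^ 6 := by
    intro R
    have e : 2 * J = (2 * J - 6) + 6 := by omega
    rw [e, pow_add]
    have hm : 0 ≤ min (G R) S := le_min (h2 R).1 hS
    rw [Nat.add_sub_cancel]
    exact mul_le_mul (pow_le_pow_left₀ hm (min_le_right _ _) _) (pow_le_pow_left₀ hm (min_le_left _ _) _) (pow_nonneg hm _) (pow_nonneg hS _)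
  calc ∫ R in Icc (R₀ / 2) (4 * R₀), (min (G R) S) ^ (2 * J) ≤ ∫ R in Icc (R₀ / 2) (4 * R₀), S ^ (2 * J - 6) * G R ^ 6 := by
        refine integral_mono_of_nonneg (ae_of_all _ fun R => pow_nonneg (le_min (h2 R).1 hS) _) (hint.const_mul _) (ae_of_all _ hle)
    _ = S ^ (2 * J - 6) * ∫ R in Icc (R₀ / 2) (4 * R₀), G R ^ 6 := integral_const_mul _ _
    _ ≤ S ^ (2 * J - 6) * A := mul_le_mul_of_nonneg_left h4 (pow_nonneg hS _)

theorem all_maj_of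
    (low : ∀ {J : ℕ}, 6 ≤ J → ∀ {L : ℕ}, 2 * J ≤ L → ∀ {H₀ : ℝ → ℝ}, ContDiff ℝ 2 H₀ → Function.Periodic H₀ (2 * π) →
      ∃ C : ℝ, 0 < C ∧ ∀ R₀ : ℝ, 1 ≤ R₀ → ∀ n : ℕ, (2 : ℝ) ^ n ≤ R₀ ^ (1 / (24 * J) : ℝ) → ∀ β : ℝ, 0 < β →
      ∀ b : ℝ → ℤ × ℤ → ℂ, (∀ k, Continuous (fun α => b α k)) → (∀ α k, ‖b α k‖ ≤ 1) →
        ∃ E : Set ((Fin L → ℝ) × (Fin L → ℝ)), (gm L).real E ≤ C * R₀ ^ (-(1 / 4) : ℝ) ∧
          ∀ w ∉ E, Maj (Hw H₀ w) n b β R₀ (2 * J) (C * R₀ * (2 ^ n) ^ (3 * J - 3)))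
    (high6 : ∀ {L : ℕ}, 6 ≤ L → ∀ {H₀ : ℝ → ℝ}, ContDiff ℝ 2 H₀ → Function.Periodic H₀ (2 * π) →
      ∃ (e2 C R₁ : ℝ), 0 < e2 ∧ e2 ≤ 1 / 4 ∧ 0 < C ∧ 1 ≤ R₁ ∧ ∀ R₀ : ℝ, R₁ ≤ R₀ → ∀ n : ℕ,
      (2 : ℝ) ^ n ≤ R₀ ^ (1 / 2 + e2) → ∀ β : ℝ, 0 < β → β ≤ 2 * (R₀ * 2 ^ n) ^ (-(1 / 2) : ℝ) →
      ∀ b : ℝ → ℤ × ℤ → ℂ, (∀ k, Continuous (fun α => b α k)) → (∀ α k, ‖b α k‖ ≤ 1) →
        ∃ E : Set ((Fin L → ℝ) × (Fin L → ℝ)), (gm L).real E ≤ C * ((2 : ℝ) ^ n) ^ (-(1 / 10) : ℝ) ∧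
          ∀ w ∉ E, Maj (Hw H₀ w) n b β R₀ 6 (R₀ * ((2 : ℝ) ^ n) ^ (9 - 1 / 10 : ℝ)))
    {J : ℕ} (hJ : 6 ≤ J) {L : ℕ} (hL : 50 * J ≤ L) {H₀ : ℝ → ℝ} (h0 : ContDiff ℝ 2 H₀) (hp : Function.Periodic H₀ (2 * π))
    (Bd : ℝ) {nT : ℕ} (b : ℕ → Fin nT → ℝ → ℤ × ℤ → ℂ) (hbc : ∀ n i k, Continuous (fun α => b n i α k)) (hb1 : ∀ n i α k, ‖b n i α k‖ ≤ 1) :
    ∃ e2 : ℝ, 0 < e2 ∧ e2 ≤ 1 / 4 ∧ ∀ᵐ w ∂(gm L), ‖w‖ ≤ Bd → ∃ (C : ℝ) (N₁ : ℕ), 0 ≤ C ∧ ∀ N : ℕ, N₁ ≤ N → ∀ n : ℕ, ∀ i, ∀ r < 2,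
      (2 : ℝ) ^ (n + r) ≤ ((2 : ℝ) ^ N) ^ (1 / 2 + e2) →
      Maj (Hw H₀ w) (n + r) (b n i) (((2 : ℝ) ^ N * 2 ^ n) ^ (-(1 / 2) : ℝ)) (2 ^ N) (2 * J)
        (C * 2 ^ N * ((2 : ℝ) ^ (n + r)) ^ (3 * J - 1 / 20 : ℝ)) := by
  classical
  have hfin : IsFiniteMeasure (gm L) := ⟨by rw [gm_univ]; exact ENNReal.one_lt_top⟩
  have hJ6 : (6 : ℝ) ≤ J := by exact_mod_cast hJ
  have hJ0 : (0 : ℝ) < J := by linarith
  obtain ⟨ε, hε⟩ : ∃ ε : ℝ, ε = 1 / (24 * J) := ⟨_, rfl⟩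
  obtain ⟨e1, he1⟩ : ∃ e1 : ℝ, e1 = 1 / (40 * J) := ⟨_, rfl⟩
  have hε0 : 0 < ε := by rw [hε]; positivity
  have he10 : 0 < e1 := by rw [he1]; positivity
  have hε1 : ε ≤ 1 := by
    rw [hε, div_le_one (by positivity)]
    linarith
  have he11 : e1 ≤ 1 := by
    rw [he1, div_le_one (by positivity)]
    linarith
  have he1s : e1 ≤ 1 / 10 := by
    rw [he1]
    apply one_div_le_one_div_of_le (by norm_num)
    linarith
  have hεe : ε * e1 ≤ 1 / 4 := by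
    calc ε * e1 ≤ 1 * (1 / 10) := mul_le_mul hε1 he1s he10.le (by norm_num)
      _ ≤ 1 / 4 := by norm_num
  have hL1 : 2 / ε + 8 ≤ L := by
    have h1 : 2 / ε = 48 * J := by
      rw [hε]
      field_simp
      norm_num
    have h2 : (50 * J : ℝ) ≤ L := by exact_mod_cast hL
    rw [h1]
    linarith
  obtain ⟨e2k, Ck, Rk, he2k, he2k', hCk, hRk, hkey⟩ := key2 hε0 hε1 he10 he11 hL1 h0 hp Bd
  obtain ⟨e2h, Ch, Rh, he2h, he2h', hCh, hRh, hhigh⟩ := high6 (by omega : 6 ≤ L) h0 hp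
  obtain ⟨Cl, hCl, hlow⟩ := low hJ (by omega : 2 * J ≤ L) h0 hp
  obtain ⟨Na, hNa⟩ := fin_pow Rk
  obtain ⟨Nb, hNb⟩ := fin_pow Rh
  refine ⟨min e2k e2h, lt_min he2k he2h, (min_le_left _ _).trans he2k', ?_⟩
  set e2 : ℝ := min e2k e2h with he2d
  have he20 : 0 < e2 := lt_min he2k he2h
  set q : ℝ := (2 : ℝ) ^ (-(ε * e1)) with hq
  have hq0 : (0 : ℝ) ≤ q := by positivity
  have hq1 : q < 1 := Real.rpow_lt_one_of_one_lt_of_neg (by norm_num) (by nlinarith)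
  set Cm : ℝ := Cl + Ch + Ck with hCm
  have hCm0 : 0 < Cm := by positivity
  set Cf : ℝ := Cl + 1 with hCf
  have hCf0 : 0 ≤ Cf := by positivity
  have hex : ∀ (N n : ℕ) (i : Fin nT) (r : Fin 2), ∃ E : Set ((Fin L → ℝ) × (Fin L → ℝ)),
      (gm L).real E ≤ Cm * q ^ N ∧ (max Na Nb ≤ N → (2 : ℝ) ^ (n + (r : ℕ)) ≤ ((2 : ℝ) ^ N) ^ (1 / 2 + e2) → ∀ w ∉ E, ‖w‖ ≤ Bd →
        Maj (Hw H₀ w) (n + (r : ℕ)) (b n i) (((2 : ℝ) ^ N * 2 ^ n) ^ (-(1 / 2) : ℝ)) (2 ^ N) (2 * J)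
        (Cf * 2 ^ N * ((2 : ℝ) ^ (n + (r : ℕ))) ^ (3 * J - 1 / 20 : ℝ))) := by
    intro N n i r
    have h2N : (1 : ℝ) ≤ 2 ^ N := one_le_pow₀ (by norm_num)
    have h2N0 : (0 : ℝ) < 2 ^ N := by positivity
    have hβ : 0 < ((2 : ℝ) ^ N * 2 ^ n) ^ (-(1 / 2) : ℝ) := by positivity
    obtain ⟨x, hx⟩ : ∃ x : ℝ, x = (2 : ℝ) ^ (n + (r : ℕ)) := ⟨_, rfl⟩
    have hx1 : 1 ≤ x := by rw [hx]; exact one_le_pow₀ (by norm_num)
    have hx0 : 0 < x := by linarith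
    have hqN : ∀ t : ℝ, ε * e1 ≤ t → ((2 : ℝ) ^ N) ^ (-t) ≤ q ^ N := by
      intro t ht
      rw [hq, ← rp]
      exact Real.rpow_le_rpow_of_exponent_le h2N (by linarith)
    by_cases hc : (2 : ℝ) ^ (n + (r : ℕ)) ≤ ((2 : ℝ) ^ N) ^ ε
    · -- low
      obtain ⟨E, hE1, hE2⟩ := hlow (2 ^ N) h2N (n + (r : ℕ)) (by rw [← hε]; exact hc) _ hβ (b n i) (hbc n i) (hb1 n i)
      refine ⟨E, hE1.trans ?_, fun _ _ w hw _ => (hE2 w hw).mono ?_⟩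
      · have h1 := hqN (1 / 4) hεe
        calc Cl * ((2 : ℝ) ^ N) ^ (-(1 / 4) : ℝ) ≤ Cl * q ^ N := mul_le_mul_of_nonneg_left h1 hCl.le
          _ ≤ Cm * q ^ N := mul_le_mul_of_nonneg_right (by rw [hCm]; linarith) (pow_nonneg hq0 N)
      · rw [← hx]
        have h1 : x ^ (3 * J - 3) ≤ x ^ (3 * J - 1 / 20 : ℝ) := by
          rw [← Real.rpow_natCast x (3 * J - 3)]
          refine Real.rpow_le_rpow_of_exponent_le hx1 ?_
          rw [Nat.cast_sub (by omega)]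
          push_cast
          linarith
        have h2 : 0 ≤ x ^ (3 * J - 1 / 20 : ℝ) := Real.rpow_nonneg hx0.le _
        calc Cl * 2 ^ N * x ^ (3 * J - 3) ≤ Cl * 2 ^ N * x ^ (3 * J - 1 / 20 : ℝ) := mul_le_mul_of_nonneg_left h1 (by positivity)
          _ ≤ Cf * 2 ^ N * x ^ (3 * J - 1 / 20 : ℝ) := by
              have : Cl ≤ Cf := by rw [hCf]; linarith
              gcongr
    · -- high
      push Not at hc
      by_cases hok : max Na Nb ≤ N ∧ (2 : ℝ) ^ (n + (r : ℕ)) ≤ ((2 : ℝ) ^ N) ^ (1 / 2 + e2)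
      · obtain ⟨hN, h2⟩ := hok
        have hNa' : Rk ≤ 2 ^ N := hNa.trans (pow_le_pow_right₀ (by norm_num) ((le_max_left _ _).trans hN))
        have hNb' : Rh ≤ 2 ^ N := hNb.trans (pow_le_pow_right₀ (by norm_num) ((le_max_right _ _).trans hN))
        have h2k : (2 : ℝ) ^ (n + (r : ℕ)) ≤ ((2 : ℝ) ^ N) ^ (1 / 2 + e2k) :=
          h2.trans (Real.rpow_le_rpow_of_exponent_le h2N (by have := min_le_left e2k e2h; linarith))
        have h2h : (2 : ℝ) ^ (n + (r : ℕ)) ≤ ((2 : ℝ) ^ N) ^ (1 / 2 + e2h) :=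
          h2.trans (Real.rpow_le_rpow_of_exponent_le h2N (by have := min_le_right e2k e2h; linarith))
        obtain ⟨E1, hE1, hE1'⟩ := hkey (2 ^ N) hNa' (n + (r : ℕ)) hc.le h2k _ hβ (beta_le N n r) (b n i) (hbc n i) (hb1 n i)
        obtain ⟨E2, hE2, hE2'⟩ := hhigh (2 ^ N) hNb' (n + (r : ℕ)) h2h _ hβ (beta_le N n r) (b n i) (hbc n i) (hb1 n i)
        refine ⟨E1 ∪ E2, ?_, fun _ _ w hw hwB => ?_⟩
        · have h3 : ∀ t : ℝ, e1 ≤ t → ((2 : ℝ) ^ (n + (r : ℕ))) ^ (-t) ≤ q ^ N := by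
            intro t ht
            have ht0 : 0 < t := by linarith
            calc ((2 : ℝ) ^ (n + (r : ℕ))) ^ (-t) ≤ (((2 : ℝ) ^ N) ^ ε) ^ (-t) :=
                  Real.rpow_le_rpow_of_nonpos (Real.rpow_pos_of_pos h2N0 _) hc.le (by linarith)
              _ = ((2 : ℝ) ^ N) ^ (-(ε * t)) := by
                  rw [← Real.rpow_mul h2N0.le]
                  congr 1
                  ring
              _ ≤ q ^ N := hqN _ (mul_le_mul_of_nonneg_left ht hε0.le)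
          calc (gm L).real (E1 ∪ E2) ≤ (gm L).real E1 + (gm L).real E2 := measureReal_union_le _ _
            _ ≤ Ck * q ^ N + Ch * q ^ N := add_le_add (hE1.trans (mul_le_mul_of_nonneg_left (h3 e1 le_rfl) hCk.le))
                (hE2.trans (mul_le_mul_of_nonneg_left (h3 (1 / 10) he1s) hCh.le))
            _ ≤ Cm * q ^ N := by
                have h4 : 0 ≤ q ^ N := pow_nonneg hq0 N
                rw [hCm]
                nlinarith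
        · have hw1 : w ∉ E1 := fun h => hw (Or.inl h)
          have hw2 : w ∉ E2 := fun h => hw (Or.inr h)
          have h5 := hE1' w hw1 hwB
          have h6 := hE2' w hw2
          have h7 := Maj.lift (J := J) (S := ((2 : ℝ) ^ (n + (r : ℕ))) ^ (3 / 2 + e1)) (by positivity) (by omega) h6 (fun R hR c => h5 R hR c)
          refine h7.mono ?_
          rw [← hx]
          have h8 : (x ^ (3 / 2 + e1)) ^ (2 * J - 6) * (2 ^ N * x ^ (9 - 1 / 10 : ℝ)) ≤ 2 ^ N * x ^ (3 * J - 1 / 20 : ℝ) := by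
            have e : (x ^ (3 / 2 + e1)) ^ (2 * J - 6) = x ^ ((3 / 2 + e1) * (2 * J - 6)) := by
              rw [← Real.rpow_natCast, ← Real.rpow_mul hx0.le, Nat.cast_sub (by omega)]
              push_cast
              rfl
            rw [e]
            have h9 : x ^ ((3 / 2 + e1) * (2 * J - 6)) * x ^ (9 - 1 / 10 : ℝ) ≤ x ^ (3 * J - 1 / 20 : ℝ) := by
              rw [← Real.rpow_add hx0]
              refine Real.rpow_le_rpow_of_exponent_le hx1 ?_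
              have h10 : e1 * (2 * J - 6) ≤ 1 / 20 := by
                have h11 : e1 * (2 * J) = 1 / 20 := by
                  rw [he1]
                  field_simp
                  norm_num
                nlinarith
              nlinarith
            calc x ^ ((3 / 2 + e1) * (2 * J - 6)) * (2 ^ N * x ^ (9 - 1 / 10 : ℝ)) =
                2 ^ N * (x ^ ((3 / 2 + e1) * (2 * J - 6)) * x ^ (9 - 1 / 10 : ℝ)) := by ring
              _ ≤ 2 ^ N * x ^ (3 * J - 1 / 20 : ℝ) := mul_le_mul_of_nonneg_left h9 h2N0.le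
          refine h8.trans ?_
          have h12 : 0 ≤ 2 ^ N * x ^ (3 * J - 1 / 20 : ℝ) := by positivity
          have h13 : 1 ≤ Cf := by rw [hCf]; linarith
          calc 2 ^ N * x ^ (3 * J - 1 / 20 : ℝ) = 1 * (2 ^ N * x ^ (3 * J - 1 / 20 : ℝ)) := by ring
            _ ≤ Cf * (2 ^ N * x ^ (3 * J - 1 / 20 : ℝ)) := mul_le_mul_of_nonneg_right h13 h12
            _ = Cf * 2 ^ N * x ^ (3 * J - 1 / 20 : ℝ) := by ring
      · refine ⟨∅, ?_, fun h1 h2 => absurd ⟨h1, h2⟩ hok⟩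
        rw [measureReal_empty]
        positivity
  choose E hE1 hE2 using hex
  set bad : ℕ → Set ((Fin L → ℝ) × (Fin L → ℝ)) := fun N =>
    ⋃ n ∈ Finset.range (N + 1), ⋃ i ∈ (Finset.univ : Finset (Fin nT)), ⋃ r ∈ (Finset.univ : Finset (Fin 2)), E N n i r with hbad
  have hmeas : ∀ N, (gm L).real (bad N) ≤ ((N : ℝ) + 1) * ((nT * 2 * Cm) * q ^ N) := by
    intro N
    refine (measureReal_biUnion_finset_le _ _).trans ?_
    have h1 : ∀ n ∈ Finset.range (N + 1), (gm L).real (⋃ i ∈ (Finset.univ : Finset (Fin nT)),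
        ⋃ r ∈ (Finset.univ : Finset (Fin 2)), E N n i r) ≤ nT * (2 * (Cm * q ^ N)) := by
      intro n _
      refine (measureReal_biUnion_finset_le _ _).trans ?_
      refine (Finset.sum_le_card_nsmul _ _ (2 * (Cm * q ^ N)) fun i _ => ?_).trans (le_of_eq ?_)
      · refine (measureReal_biUnion_finset_le _ _).trans ?_
        refine (Finset.sum_le_card_nsmul _ _ (Cm * q ^ N) fun r _ => hE1 N n i r).trans (le_of_eq ?_)
        rw [Finset.card_univ, Fintype.card_fin, nsmul_eq_mul]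
        norm_num
      · rw [Finset.card_univ, Fintype.card_fin, nsmul_eq_mul]
    refine (Finset.sum_le_card_nsmul _ _ _ h1).trans (le_of_eq ?_)
    rw [Finset.card_range, nsmul_eq_mul]
    push_cast
    ring
  have hbcan := fin_bc (μ := gm L) bad _ (fin_summable hq0 hq1 (nT * 2 * Cm)) hmeas
  filter_upwards [hbcan] with w hw hwB
  obtain ⟨N₁, hN₁⟩ := eventually_atTop.1 hw
  refine ⟨Cf, max (max Na Nb) N₁, hCf0, ?_⟩
  intro N hN n i r hr h2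
  have hN0 : max Na Nb ≤ N := (le_max_left _ _).trans hN
  have hNN : N₁ ≤ N := (le_max_right _ _).trans hN
  have hnN : n ∈ Finset.range (N + 1) := by
    rw [Finset.mem_range]
    have h3 : (2 : ℝ) ^ (n + r) ≤ 2 ^ N := by
      refine h2.trans ?_
      calc ((2 : ℝ) ^ N) ^ (1 / 2 + e2) ≤ ((2 : ℝ) ^ N) ^ (1 : ℝ) :=
            Real.rpow_le_rpow_of_exponent_le (one_le_pow₀ (by norm_num)) (by have := min_le_left e2k e2h; linarith)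
        _ = 2 ^ N := Real.rpow_one _
    have h4 : n + r ≤ N := (pow_le_pow_iff_right₀ (by norm_num : (1 : ℝ) < 2)).1 h3
    omega
  have hnot : w ∉ E N n i ⟨r, hr⟩ := by
    intro hcon
    apply hN₁ N hNN
    simp only [hbad, mem_iUnion]
    exact ⟨n, hnN, i, Finset.mem_univ _, ⟨r, hr⟩, Finset.mem_univ _, hcon⟩
  exact hE2 N n i ⟨r, hr⟩ hN0 h2 w hnot hwB

end Pool.Agent.Helper22.AM
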