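import Pool.Agent.Helper22.AM.Defs2
import Pool.Agent.Helper22.AM.M4
import Pool.Agent.Helper85.AD.Types2
import Pool.Agent.Helper22.AD.BM
import Pool.Agent.Helper22.AE.F2

/-!
# AM (MP_fb29e9_nt): convergence of the moments, finite theorem and random series, from the blocks
-/

open MeasureTheory Real Set Filter Topology unitInterval

set_option autoImplicit false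

namespace Pool.Agent.Helper22.AM

open Pool.Agent.Helper22.AE
open Pool.Agent.Helper22.AC (cntc)
open Pool.Agent.Helper92.GC (dt sqa)
open Pool.Agent.Helper60.AD
open Pool.Agent.Helper93.EX (Mx)

/-- the moment of order `p` over the radii `X ≤ R ≤ 2 X` -/
noncomputable def mo (H : ℝ → ℝ) (p : ℕ) (X : ℝ) (c : ℝ × ℝ) : ℝ :=
  X⁻¹ * (∫ R in Icc X (2 * X), ((cntc H c R - area H * R ^ 2) / sqrt R) ^ p)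

/-- the moment of order `p` converges, uniformly in the centre, to a number independent of the centre -/
def Lim (H : ℝ → ℝ) (p : ℕ) : Prop :=
  ∃ m : ℝ, ∀ ε : ℝ, 0 < ε → ∃ X₀ : ℝ, 1 ≤ X₀ ∧ ∀ X : ℝ, X₀ ≤ X → ∀ c : ℝ × ℝ, |mo H p X c - m| ≤ ε

theorem fin_lim_of
    (low : ∀ {J : ℕ}, 6 ≤ J → ∀ {L : ℕ}, 2 * J ≤ L → ∀ {H₀ : ℝ → ℝ}, ContDiff ℝ 2 H₀ → Function.Periodic H₀ (2 * π) →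
      ∃ C : ℝ, 0 < C ∧ ∀ R₀ : ℝ, 1 ≤ R₀ → ∀ n : ℕ, (2 : ℝ) ^ n ≤ R₀ ^ (1 / (24 * J) : ℝ) → ∀ β : ℝ, 0 < β →
      ∀ b : ℝ → ℤ × ℤ → ℂ, (∀ k, Continuous (fun α => b α k)) → (∀ α k, ‖b α k‖ ≤ 1) →
        ∃ E : Set ((Fin L → ℝ) × (Fin L → ℝ)), (gm L).real E ≤ C * R₀ ^ (-(1 / 4) : ℝ) ∧
          ∀ w ∉ E, Maj (Hw H₀ w) n b β R₀ (2 * J) (C * R₀ * (2 ^ n) ^ (3 * J - 3)))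
    (high6 : ∀ {L : ℕ}, 6 ≤ L → ∀ {H₀ : ℝ → ℝ}, ContDiff ℝ 2 H₀ → Function.Periodic H₀ (2 * π) →
      ∃ (e2 C R₁ : ℝ), 0 < e2 ∧ e2 ≤ 1 / 4 ∧ 0 < C ∧ 1 ≤ R₁ ∧ ∀ R₀ : ℝ, R₁ ≤ R₀ → ∀ n : ℕ,
      (2 : ℝ) ^ n ≤ R₀ ^ (1 / 2 + e2) → ∀ β : ℝ, 0 < β → β ≤ 2 * (R₀ * 2 ^ n) ^ (-(1 / 2) : ℝ) →
      ∀ b : ℝ → ℤ × ℤ → ℂ, (∀ k, Continuous (fun α => b α k)) → (∀ α k, ‖b α k‖ ≤ 1) →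
        ∃ E : Set ((Fin L → ℝ) × (Fin L → ℝ)), (gm L).real E ≤ C * ((2 : ℝ) ^ n) ^ (-(1 / 10) : ℝ) ∧
          ∀ w ∉ E, Maj (Hw H₀ w) n b β R₀ 6 (R₀ * ((2 : ℝ) ^ n) ^ (9 - 1 / 10 : ℝ)))
    (sum_tail : ∀ {L : ℕ} {H₀ : ℝ → ℝ}, ContDiff ℝ 2 H₀ → Function.Periodic H₀ (2 * π) → ∀ {e2 : ℝ}, 0 < e2 → e2 ≤ 1 / 4 →
      ∀ {J : ℕ}, 1 ≤ J → ∀ {nT : ℕ} {C : ℝ}, 0 ≤ C →
      ∀ (b : ℕ → Fin nT → ℝ → ℤ × ℤ → ℂ), (∀ n i α k, ‖b n i α k‖ ≤ 1) → (∀ n i k, Continuous (fun α => b n i α k)) →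
      ∀ (w : (Fin L → ℝ) × (Fin L → ℝ)), (∀ θ, 0 < Hw H₀ w θ + deriv (deriv (Hw H₀ w)) θ) →
      (∀ (n : ℕ) (p : ℝ × ℝ) (R₀ R : ℝ), 1 ≤ R₀ →
        R ∈ Icc (R₀ / 2) (4 * R₀) → IsSupp (fun θ => R * (Hw H₀ w θ - (p.1 * cos θ + p.2 * sin θ))) → ∀ c : ℝ × ℝ, ∃ c' : ℝ × ℝ,
          ‖∑ k ∈ sqa (2 ^ n), ft (fun θ => R * (Hw H₀ w θ - (p.1 * cos θ + p.2 * sin θ))) k * ee (dt k c)‖ ≤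
            C * R₀ ^ (1 / 2 : ℝ) * ((2 : ℝ) ^ n) ^ (-(3 / 2) : ℝ) * (∑ i, ∑ r ∈ Finset.range 2,
              Um (Hw H₀ w) (n + r) (b n i) ((R₀ * 2 ^ n) ^ (-(1 / 2) : ℝ)) R c') + C) →
      ∀ {A : ℝ} {N₁ : ℕ}, 0 ≤ A → (∀ N : ℕ, N₁ ≤ N → ∀ n : ℕ, ∀ i, ∀ r < 2,
      (2 : ℝ) ^ (n + r) ≤ ((2 : ℝ) ^ N) ^ (1 / 2 + e2) →
      Maj (Hw H₀ w) (n + r) (b n i) (((2 : ℝ) ^ N * 2 ^ n) ^ (-(1 / 2) : ℝ)) (2 ^ N) (2 * J)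
        (A * 2 ^ N * ((2 : ℝ) ^ (n + r)) ^ (3 * J - 1 / 20 : ℝ))) →
      ∀ η : ℝ, 0 < η → ∃ (n0 : ℕ) (X₀ : ℝ), 1 ≤ X₀ ∧ ∀ X : ℝ, X₀ ≤ X → ∀ c : ℝ × ℝ,
        ∫ R in Icc X (2 * X), |cntc (Hw H₀ w) c R - area (Hw H₀ w) * R ^ 2 - sqrt R * Mx (Hw H₀ w) (2 ^ n0) R c| ^ (2 * J) ≤ η * X ^ (J + 1))
    (mx_mean : ∀ {H : ℝ → ℝ}, Res H → ∀ (N p : ℕ), ∃ m : ℝ, ∀ ε : ℝ, 0 < ε → ∃ X₀ : ℝ, 1 ≤ X₀ ∧ ∀ X : ℝ, X₀ ≤ X → ∀ c : ℝ × ℝ,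
      |X⁻¹ * (∫ R in Icc X (2 * X), Mx H N R c ^ p) - m| ≤ ε)
    (res_ae : ∀ {L : ℕ}, 2 ≤ L → ∀ (H₀ : ℝ → ℝ), ∀ᵐ w ∂(gm L), Res (Hw H₀ w))
    (mom_lim : ∀ {H : ℝ → ℝ}, ContDiff ℝ 2 H → Function.Periodic H (2 * π) → (∀ θ, 0 < H θ + deriv (deriv H) θ) → ∀ {J : ℕ}, 1 ≤ J →
      (∀ η : ℝ, 0 < η → ∃ (n0 : ℕ) (X₀ : ℝ), 1 ≤ X₀ ∧ ∀ X : ℝ, X₀ ≤ X → ∀ c : ℝ × ℝ,
        ∫ R in Icc X (2 * X), |cntc H c R - area H * R ^ 2 - sqrt R * Mx H (2 ^ n0) R c| ^ (2 * J) ≤ η * X ^ (J + 1)) →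
      (∀ N p : ℕ, ∃ m : ℝ, ∀ ε : ℝ, 0 < ε → ∃ X₀ : ℝ, 1 ≤ X₀ ∧ ∀ X : ℝ, X₀ ≤ X → ∀ c : ℝ × ℝ,
        |X⁻¹ * (∫ R in Icc X (2 * X), Mx H N R c ^ p) - m| ≤ ε) → ∀ {p : ℕ}, p ≤ 2 * J →
      ∃ m : ℝ, ∀ ε : ℝ, 0 < ε → ∃ X₀ : ℝ, 1 ≤ X₀ ∧ ∀ X : ℝ, X₀ ≤ X → ∀ c : ℝ × ℝ,
        |X⁻¹ * (∫ R in Icc X (2 * X), ((cntc H c R - area H * R ^ 2) / sqrt R) ^ p) - m| ≤ ε)
    {J : ℕ} (hJ : 6 ≤ J) {L : ℕ} (hL : 50 * J ≤ L) {H₀ : ℝ → ℝ} (h0 : ContDiff ℝ 2 H₀) (hp : Function.Periodic H₀ (2 * π)) :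
    ∀ᵐ w : (Fin L → ℝ) × (Fin L → ℝ), (∀ θ, 0 < Hw H₀ w θ + deriv (deriv (Hw H₀ w)) θ) → ∀ p ≤ 2 * J, Lim (Hw H₀ w) p := by
  classical
  apply (vol_ac L).ae_le
  have hmain : ∀ Bd : ℕ, ∀ᵐ w ∂(gm L), ‖w‖ ≤ Bd → (∀ θ, 0 < Hw H₀ w θ + deriv (deriv (Hw H₀ w)) θ) → ∀ p ≤ 2 * J, Lim (Hw H₀ w) p := by
    intro Bd
    obtain ⟨nT, Ct, hCt, hty⟩ := Pool.Agent.Helper85.AD.types2 L h0 hp (Bd : ℝ)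
    choose b hbc hb1 hbt using hty
    obtain ⟨e2, he2, he2', hae⟩ := all_maj_of low high6 hJ hL h0 hp (Bd : ℝ) b hbc hb1
    have hres := res_ae (by omega : 2 ≤ L) H₀
    filter_upwards [hae, hres] with w hw hr hwB hrho p hpJ
    obtain ⟨C, N₁, hC, hmaj⟩ := hw hwB
    have ht := sum_tail h0 hp he2 he2' (by omega : 1 ≤ J) hCt b hb1 hbc w hrho (hbt · w hwB) hC hmaj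
    exact mom_lim (Hw_smooth h0 w) (Hw_per hp w) hrho (by omega : 1 ≤ J) ht (mx_mean hr) hpJ
  have hall := ae_all_iff.2 hmain
  filter_upwards [hall] with w hw hS
  exact hw ⌈‖w‖⌉₊ (Nat.le_ceil _) hS

end Pool.Agent.Helper22.AM
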