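import Pool.Agent.Helper22.AM.W
import Pool.Agent.Helper22.AM.Fin
import Pool.Agent.Helper92.MM.Defs

/-!
# MM-M7 and AM (MP_fb29e9_nt): the finite theorems, from `all_W_of` and the blocks
-/

open MeasureTheory Real Set Filter Topology unitInterval

set_option autoImplicit false

namespace Pool.Agent.Helper22.AM

open Pool.Agent.Helper22.AE
open Pool.Agent.Helper22.AC (cntc)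
open Pool.Agent.Helper92.GC (dt sqa)
open Pool.Agent.Helper60.AD
open Pool.Agent.Helper92.MM (gd1 mom)

/-- the conclusion of `all_W_of` -/
def AllW (J : ℕ) : Prop :=
  ∃ L₀ : ℕ, 6 ≤ L₀ ∧ ∀ {L : ℕ}, L₀ ≤ L → ∀ {H₀ : ℝ → ℝ}, ContDiff ℝ 2 H₀ → Function.Periodic H₀ (2 * π) →
    ∀ (Bd : ℝ) {nT : ℕ} (b : ℕ → Fin nT → ℝ → ℤ × ℤ → ℂ), (∀ n i k, Continuous (fun α => b n i α k)) → (∀ n i α k, ‖b n i α k‖ ≤ 1) →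
    ∃ e2 A : ℝ, 0 < e2 ∧ e2 ≤ 1 / 4 ∧ 0 ≤ A ∧ ∀ᵐ w ∂(gm L), ‖w‖ ≤ Bd → ∃ N₁ : ℕ, ∀ N : ℕ, N₁ ≤ N → ∀ n : ℕ, ∀ i, ∀ r < 2,
      (2 : ℝ) ^ (n + r) ≤ ((2 : ℝ) ^ N) ^ (1 / 2 + e2) →
      ∃ W : ℝ → ℝ, Continuous W ∧ (∀ R, 0 ≤ W R) ∧ (∀ R ∈ Icc ((2 : ℝ) ^ N / 2) (4 * 2 ^ N), ∀ c : ℝ × ℝ,
        (∫ α in gd1, k0 (((2 : ℝ) ^ N * 2 ^ n) ^ (-(1 / 2) : ℝ)) α * ‖Sc (Hw H₀ w) (blk (n + r)) (b n i α) R α c‖) ^ (2 * J) ≤ W R) ∧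
        ∫ R in Icc ((2 : ℝ) ^ N / 2) (4 * 2 ^ N), W R ≤ A * 2 ^ N * ((2 : ℝ) ^ (n + r)) ^ (3 * J - (1 / 40 : ℝ) : ℝ)

/-- general form: a property of `w` that follows from the majorants holds almost everywhere -/
theorem fin_of {J : ℕ} (hW : AllW J) : ∃ L₀ : ℕ, 6 ≤ L₀ ∧ ∀ {L : ℕ}, L₀ ≤ L → ∀ {H₀ : ℝ → ℝ}, ContDiff ℝ 2 H₀ → Function.Periodic H₀ (2 * π) →
    ∀ P : ((Fin L → ℝ) × (Fin L → ℝ)) → Prop,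
    (∀ {e2 u A : ℝ}, 0 < e2 → e2 ≤ 1 / 4 → 0 < u → u ≤ 1 → 0 ≤ A → ∀ {nT : ℕ} {C : ℝ}, 0 ≤ C →
      ∀ (b : ℕ → Fin nT → ℝ → ℤ × ℤ → ℂ), (∀ n i α k, ‖b n i α k‖ ≤ 1) → (∀ n i k, Continuous (fun α => b n i α k)) →
      ∀ (w : (Fin L → ℝ) × (Fin L → ℝ)), (∀ θ, 0 < Hw H₀ w θ + deriv (deriv (Hw H₀ w)) θ) →
      (∀ (n : ℕ) (p : ℝ × ℝ) (R₀ R : ℝ), 1 ≤ R₀ →
        R ∈ Icc (R₀ / 2) (4 * R₀) → IsSupp (fun θ => R * (Hw H₀ w θ - (p.1 * cos θ + p.2 * sin θ))) → ∀ c : ℝ × ℝ, ∃ c' : ℝ × ℝ,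
          ‖∑ k ∈ sqa (2 ^ n), ft (fun θ => R * (Hw H₀ w θ - (p.1 * cos θ + p.2 * sin θ))) k * ee (dt k c)‖ ≤
            C * R₀ ^ (1 / 2 : ℝ) * ((2 : ℝ) ^ n) ^ (-(3 / 2) : ℝ) * (∑ i, ∑ r ∈ Finset.range 2,
              ∫ α in Icc (-π) π ∩ {α | 1 / 2 ≤ |cos α|}, k0 ((R₀ * 2 ^ n) ^ (-(1 / 2) : ℝ)) α *
                ‖Sc (Hw H₀ w) (blk (n + r)) (b n i α) R α c'‖) + C) →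
      ∀ {N₁ : ℕ}, (∀ N : ℕ, N₁ ≤ N → ∀ n : ℕ, ∀ i, ∀ r < 2, (2 : ℝ) ^ (n + r) ≤ ((2 : ℝ) ^ N) ^ (1 / 2 + e2) →
      ∃ W : ℝ → ℝ, Continuous W ∧ (∀ R, 0 ≤ W R) ∧ (∀ R ∈ Icc ((2 : ℝ) ^ N / 2) (4 * 2 ^ N), ∀ c : ℝ × ℝ,
        (∫ α in gd1, k0 (((2 : ℝ) ^ N * 2 ^ n) ^ (-(1 / 2) : ℝ)) α * ‖Sc (Hw H₀ w) (blk (n + r)) (b n i α) R α c‖) ^ (2 * J) ≤ W R) ∧
        ∫ R in Icc ((2 : ℝ) ^ N / 2) (4 * 2 ^ N), W R ≤ A * 2 ^ N * ((2 : ℝ) ^ (n + r)) ^ (3 * J - u : ℝ)) → P w) →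
    ∀ᵐ w ∂(gm L), (∀ θ, 0 < Hw H₀ w θ + deriv (deriv (Hw H₀ w)) θ) → P w := by
  obtain ⟨L₀, h6, hL₀⟩ := hW
  refine ⟨L₀, h6, ?_⟩
  intro L hL H₀ h0 hp P hP
  have hmain : ∀ Bd : ℕ, ∀ᵐ w ∂(gm L), ‖w‖ ≤ Bd → (∀ θ, 0 < Hw H₀ w θ + deriv (deriv (Hw H₀ w)) θ) → P w := by
    intro Bd
    obtain ⟨nT, Ct, hCt, hty⟩ := Pool.Agent.Helper85.AD.types2 L h0 hp (Bd : ℝ)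
    choose b hbc hb1 hbt using hty
    obtain ⟨e2, A, he2, he2', hA, hae⟩ := hL₀ hL h0 hp (Bd : ℝ) b hbc hb1
    filter_upwards [hae] with w hw hwB hrho
    obtain ⟨N₁, hN₁⟩ := hw hwB
    exact hP he2 he2' (by norm_num : (0 : ℝ) < 1 / 40) (by norm_num) hA hCt b hb1 hbc w hrho (hbt · w hwB) hN₁
  have hall := ae_all_iff.2 hmain
  filter_upwards [hall] with w hw hS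
  exact hw ⌈‖w‖⌉₊ (Nat.le_ceil _) hS

/-- MM-M7: the maximal moments -/
theorem main_fin_M_of
    (mom_blocks : ∀ {L : ℕ} {H₀ : ℝ → ℝ}, ContDiff ℝ 2 H₀ → Function.Periodic H₀ (2 * π) → ∀ {J : ℕ}, 1 ≤ J → ∀ {e2 u A : ℝ},
      0 < e2 → e2 ≤ 1 / 4 → 0 < u → u ≤ 1 → 0 ≤ A → ∀ {nT : ℕ} {C : ℝ}, 0 ≤ C →
      ∀ (b : ℕ → Fin nT → ℝ → ℤ × ℤ → ℂ), (∀ n i α k, ‖b n i α k‖ ≤ 1) → (∀ n i k, Continuous (fun α => b n i α k)) →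
      ∀ (w : (Fin L → ℝ) × (Fin L → ℝ)), (∀ θ, 0 < Hw H₀ w θ + deriv (deriv (Hw H₀ w)) θ) →
      (∀ (n : ℕ) (p : ℝ × ℝ) (R₀ R : ℝ), 1 ≤ R₀ →
        R ∈ Icc (R₀ / 2) (4 * R₀) → IsSupp (fun θ => R * (Hw H₀ w θ - (p.1 * cos θ + p.2 * sin θ))) → ∀ c : ℝ × ℝ, ∃ c' : ℝ × ℝ,
          ‖∑ k ∈ sqa (2 ^ n), ft (fun θ => R * (Hw H₀ w θ - (p.1 * cos θ + p.2 * sin θ))) k * ee (dt k c)‖ ≤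
            C * R₀ ^ (1 / 2 : ℝ) * ((2 : ℝ) ^ n) ^ (-(3 / 2) : ℝ) * (∑ i, ∑ r ∈ Finset.range 2,
              ∫ α in Icc (-π) π ∩ {α | 1 / 2 ≤ |cos α|}, k0 ((R₀ * 2 ^ n) ^ (-(1 / 2) : ℝ)) α *
                ‖Sc (Hw H₀ w) (blk (n + r)) (b n i α) R α c'‖) + C) →
      ∀ {N₁ : ℕ}, (∀ N : ℕ, N₁ ≤ N → ∀ n : ℕ, ∀ i, ∀ r < 2, (2 : ℝ) ^ (n + r) ≤ ((2 : ℝ) ^ N) ^ (1 / 2 + e2) →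
      ∃ W : ℝ → ℝ, Continuous W ∧ (∀ R, 0 ≤ W R) ∧ (∀ R ∈ Icc ((2 : ℝ) ^ N / 2) (4 * 2 ^ N), ∀ c : ℝ × ℝ,
        (∫ α in gd1, k0 (((2 : ℝ) ^ N * 2 ^ n) ^ (-(1 / 2) : ℝ)) α * ‖Sc (Hw H₀ w) (blk (n + r)) (b n i α) R α c‖) ^ (2 * J) ≤ W R) ∧
        ∫ R in Icc ((2 : ℝ) ^ N / 2) (4 * 2 ^ N), W R ≤ A * 2 ^ N * ((2 : ℝ) ^ (n + r)) ^ (3 * J - u : ℝ)) →
      ∃ C' : ℝ, ∀ X : ℝ, 1 ≤ X → mom J (Hw H₀ w) X ≤ ENNReal.ofReal (C' * X ^ (1 + J)))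
    {J : ℕ} (hJ : 3 ≤ J) (hW : AllW J) : ∃ L₀ : ℕ, 6 ≤ L₀ ∧ ∀ {L : ℕ}, L₀ ≤ L → ∀ {H₀ : ℝ → ℝ}, ContDiff ℝ 2 H₀ →
    Function.Periodic H₀ (2 * π) →
    ∀ᵐ w : (Fin L → ℝ) × (Fin L → ℝ), (∀ θ, 0 < Hw H₀ w θ + deriv (deriv (Hw H₀ w)) θ) →
      ∃ C : ℝ, ∀ X : ℝ, 1 ≤ X → mom J (Hw H₀ w) X ≤ ENNReal.ofReal (C * X ^ (1 + J)) := by
  obtain ⟨L₀, h6, h⟩ := fin_of hW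
  refine ⟨L₀, h6, ?_⟩
  intro L hL H₀ h0 hp
  apply (vol_ac L).ae_le
  exact h hL h0 hp (fun w => ∃ C : ℝ, ∀ X : ℝ, 1 ≤ X → mom J (Hw H₀ w) X ≤ ENNReal.ofReal (C * X ^ (1 + J)))
    (fun h1 h2 h3 h4 h5 _ _ h6 b h7 h8 w h9 h10 _ h11 => mom_blocks h0 hp (by omega) h1 h2 h3 h4 h5 h6 b h7 h8 w h9 h10 h11)

/-- convergence of the moments -/
theorem fin_lim2_of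
    (sum_tail : ∀ {L : ℕ} {H₀ : ℝ → ℝ}, ContDiff ℝ 2 H₀ → Function.Periodic H₀ (2 * π) → ∀ {J : ℕ}, 1 ≤ J → ∀ {e2 u A : ℝ},
      0 < e2 → e2 ≤ 1 / 4 → 0 < u → u ≤ 1 → 0 ≤ A → ∀ {nT : ℕ} {C : ℝ}, 0 ≤ C →
      ∀ (b : ℕ → Fin nT → ℝ → ℤ × ℤ → ℂ), (∀ n i α k, ‖b n i α k‖ ≤ 1) → (∀ n i k, Continuous (fun α => b n i α k)) →
      ∀ (w : (Fin L → ℝ) × (Fin L → ℝ)), (∀ θ, 0 < Hw H₀ w θ + deriv (deriv (Hw H₀ w)) θ) →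
      (∀ (n : ℕ) (p : ℝ × ℝ) (R₀ R : ℝ), 1 ≤ R₀ →
        R ∈ Icc (R₀ / 2) (4 * R₀) → IsSupp (fun θ => R * (Hw H₀ w θ - (p.1 * cos θ + p.2 * sin θ))) → ∀ c : ℝ × ℝ, ∃ c' : ℝ × ℝ,
          ‖∑ k ∈ sqa (2 ^ n), ft (fun θ => R * (Hw H₀ w θ - (p.1 * cos θ + p.2 * sin θ))) k * ee (dt k c)‖ ≤
            C * R₀ ^ (1 / 2 : ℝ) * ((2 : ℝ) ^ n) ^ (-(3 / 2) : ℝ) * (∑ i, ∑ r ∈ Finset.range 2,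
              ∫ α in Icc (-π) π ∩ {α | 1 / 2 ≤ |cos α|}, k0 ((R₀ * 2 ^ n) ^ (-(1 / 2) : ℝ)) α *
                ‖Sc (Hw H₀ w) (blk (n + r)) (b n i α) R α c'‖) + C) →
      ∀ {N₁ : ℕ}, (∀ N : ℕ, N₁ ≤ N → ∀ n : ℕ, ∀ i, ∀ r < 2, (2 : ℝ) ^ (n + r) ≤ ((2 : ℝ) ^ N) ^ (1 / 2 + e2) →
      ∃ W : ℝ → ℝ, Continuous W ∧ (∀ R, 0 ≤ W R) ∧ (∀ R ∈ Icc ((2 : ℝ) ^ N / 2) (4 * 2 ^ N), ∀ c : ℝ × ℝ,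
        (∫ α in gd1, k0 (((2 : ℝ) ^ N * 2 ^ n) ^ (-(1 / 2) : ℝ)) α * ‖Sc (Hw H₀ w) (blk (n + r)) (b n i α) R α c‖) ^ (2 * J) ≤ W R) ∧
        ∫ R in Icc ((2 : ℝ) ^ N / 2) (4 * 2 ^ N), W R ≤ A * 2 ^ N * ((2 : ℝ) ^ (n + r)) ^ (3 * J - u : ℝ)) →
      ∀ η : ℝ, 0 < η → ∃ (n0 : ℕ) (X₀ : ℝ), 1 ≤ X₀ ∧ ∀ X : ℝ, X₀ ≤ X → ∀ c : ℝ × ℝ,
        ∫ R in Icc X (2 * X), |cntc (Hw H₀ w) c R - area (Hw H₀ w) * R ^ 2 - sqrt R * Pool.Agent.Helper93.EX.Mx (Hw H₀ w) (2 ^ n0) R c| ^ (2 * J) ≤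
          η * X ^ (J + 1))
    (mx_mean : ∀ {H : ℝ → ℝ}, Res H → ∀ (N p : ℕ), ∃ m : ℝ, ∀ ε : ℝ, 0 < ε → ∃ X₀ : ℝ, 1 ≤ X₀ ∧ ∀ X : ℝ, X₀ ≤ X → ∀ c : ℝ × ℝ,
      |X⁻¹ * (∫ R in Icc X (2 * X), Pool.Agent.Helper93.EX.Mx H N R c ^ p) - m| ≤ ε)
    (res_ae : ∀ {L : ℕ}, 2 ≤ L → ∀ (H₀ : ℝ → ℝ), ∀ᵐ w ∂(gm L), Res (Hw H₀ w))
    (mom_lim : ∀ {H : ℝ → ℝ}, ContDiff ℝ 2 H → Function.Periodic H (2 * π) → (∀ θ, 0 < H θ + deriv (deriv H) θ) → ∀ {J : ℕ}, 1 ≤ J →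
      (∀ η : ℝ, 0 < η → ∃ (n0 : ℕ) (X₀ : ℝ), 1 ≤ X₀ ∧ ∀ X : ℝ, X₀ ≤ X → ∀ c : ℝ × ℝ,
        ∫ R in Icc X (2 * X), |cntc H c R - area H * R ^ 2 - sqrt R * Pool.Agent.Helper93.EX.Mx H (2 ^ n0) R c| ^ (2 * J) ≤ η * X ^ (J + 1)) →
      (∀ N p : ℕ, ∃ m : ℝ, ∀ ε : ℝ, 0 < ε → ∃ X₀ : ℝ, 1 ≤ X₀ ∧ ∀ X : ℝ, X₀ ≤ X → ∀ c : ℝ × ℝ,
        |X⁻¹ * (∫ R in Icc X (2 * X), Pool.Agent.Helper93.EX.Mx H N R c ^ p) - m| ≤ ε) → ∀ {p : ℕ}, p ≤ 2 * J →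
      ∃ m : ℝ, ∀ ε : ℝ, 0 < ε → ∃ X₀ : ℝ, 1 ≤ X₀ ∧ ∀ X : ℝ, X₀ ≤ X → ∀ c : ℝ × ℝ,
        |X⁻¹ * (∫ R in Icc X (2 * X), ((cntc H c R - area H * R ^ 2) / sqrt R) ^ p) - m| ≤ ε)
    {J : ℕ} (hJ : 3 ≤ J) (hW : AllW J) : ∃ L₀ : ℕ, 6 ≤ L₀ ∧ ∀ {L : ℕ}, L₀ ≤ L → ∀ {H₀ : ℝ → ℝ}, ContDiff ℝ 2 H₀ →
    Function.Periodic H₀ (2 * π) →
    ∀ᵐ w : (Fin L → ℝ) × (Fin L → ℝ), (∀ θ, 0 < Hw H₀ w θ + deriv (deriv (Hw H₀ w)) θ) → ∀ p ≤ 2 * J, Lim (Hw H₀ w) p := by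
  obtain ⟨L₀, h6, h⟩ := fin_of hW
  refine ⟨L₀, h6, ?_⟩
  intro L hL H₀ h0 hp
  apply (vol_ac L).ae_le
  have h1 := h hL h0 hp (fun w => Res (Hw H₀ w) → ∀ p ≤ 2 * J, Lim (Hw H₀ w) p)
    (fun h1 h2 h3 h4 h5 _ _ h6 b h7 h8 w h9 h10 _ h11 hr p hpJ =>
      mom_lim (Hw_smooth h0 w) (Hw_per hp w) h9 (by omega : 1 ≤ J)
        (sum_tail h0 hp (by omega : 1 ≤ J) h1 h2 h3 h4 h5 h6 b h7 h8 w h9 h10 h11) (mx_mean hr) hpJ)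
  filter_upwards [h1, res_ae (by omega : 2 ≤ L) H₀] with w hw hr hrho
  exact hw hrho hr

end Pool.Agent.Helper22.AM
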