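import Mathlib

/-!
# Project AM, section 4: holomorphic maps of several variables are smooth
-/

set_option autoImplicit false

namespace Pool.Agent.Helper22.AM

open MeasureTheory Set Filter Topology

variable {E F : Type*} [NormedAddCommGroup E] [NormedSpace ℂ E] [FiniteDimensional ℂ E]
  [NormedAddCommGroup F] [NormedSpace ℂ F] [CompleteSpace F]

/-- the Cauchy kernel -/
private noncomputable def ker (r θ : ℝ) : ℂ :=
  (2 * Real.pi * Complex.I : ℂ)⁻¹ * (deriv (circleMap 0 r) θ * (circleMap 0 r θ ^ 2)⁻¹)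

private theorem ker_cont {r : ℝ} (hr : 0 < r) : Continuous (ker r) := by
  unfold ker
  have h1 : Continuous (deriv (circleMap 0 r)) := by
    have : deriv (circleMap 0 r) = fun θ => circleMap 0 r θ * Complex.I := by
      funext θ; exact deriv_circleMap 0 r θ
    rw [this]
    exact (continuous_circleMap 0 r).mul continuous_const
  refine continuous_const.mul (h1.mul (((continuous_circleMap 0 r).pow 2).inv₀ fun θ => ?_))
  exact pow_ne_zero _ (circleMap_ne_center hr.ne')

omit [FiniteDimensional ℂ E] in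
private theorem cauchy {Ω : Set E} {f : E → F} (hΩ : IsOpen Ω) (hf : DifferentiableOn ℂ f Ω) {z v : E} {r : ℝ}
    (hr : 0 < r) (hz : ∀ ζ : ℂ, ‖ζ‖ ≤ r → z + ζ • v ∈ Ω) :
    fderiv ℂ f z v = ∫ θ in (0 : ℝ)..2 * Real.pi, ker r θ • f (z + circleMap 0 r θ • v) := by
  have h0 : z ∈ Ω := by simpa using hz 0 (by simpa using hr.le)
  have hd : ∀ ζ : ℂ, ‖ζ‖ ≤ r → DifferentiableAt ℂ (fun ζ : ℂ => f (z + ζ • v)) ζ := by
    intro ζ hζ
    have h1 : DifferentiableAt ℂ f (z + ζ • v) := (hf _ (hz ζ hζ)).differentiableAt (hΩ.mem_nhds (hz ζ hζ))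
    exact DifferentiableAt.comp (f := fun ζ : ℂ => z + ζ • v) ζ h1 (by fun_prop)
  have h2 : DiffContOnCl ℂ (fun ζ : ℂ => f (z + ζ • v)) (Metric.ball 0 r) := by
    refine DifferentiableOn.diffContOnCl fun ζ hζ => ?_
    rw [closure_ball 0 hr.ne'] at hζ
    exact (hd ζ (by simpa using hζ)).differentiableWithinAt
  have h3 := h2.deriv_eq_smul_circleIntegral hr
  have h4 : deriv (fun ζ : ℂ => f (z + ζ • v)) 0 = fderiv ℂ f z v := by
    have h5 : HasFDerivAt f (fderiv ℂ f z) (z + (0 : ℂ) • v) := by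
      rw [zero_smul, add_zero]
      exact ((hf z h0).differentiableAt (hΩ.mem_nhds h0)).hasFDerivAt
    have h6 : HasDerivAt (fun ζ : ℂ => z + ζ • v) v 0 := by
      simpa using ((hasDerivAt_id (0 : ℂ)).smul_const v).const_add z
    exact (h5.comp_hasDerivAt (0 : ℂ) h6).deriv
  have hpi : (2 * Real.pi * Complex.I : ℂ) ≠ 0 := by
    simp [Real.pi_ne_zero, Complex.I_ne_zero]
  have h7 : deriv (fun ζ : ℂ => f (z + ζ • v)) 0 = (2 * Real.pi * Complex.I : ℂ)⁻¹ •
      ∮ ζ in C(0, r), (1 / (ζ - 0) ^ 2) • f (z + ζ • v) := by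
    rw [h3, smul_smul, inv_mul_cancel₀ hpi, one_smul]
  rw [← h4, h7, circleIntegral, ← intervalIntegral.integral_smul]
  refine intervalIntegral.integral_congr fun θ _ => ?_
  simp only [ker, sub_zero, smul_smul, one_div]

omit [FiniteDimensional ℂ E] [CompleteSpace F] [NormedAddCommGroup F] [NormedSpace ℂ F] in
private theorem setup {Ω : Set E} (hΩ : IsOpen Ω) {z₀ : E} (hz₀ : z₀ ∈ Ω) (v : E) :
    ∃ r R : ℝ, 0 < r ∧ 0 < R ∧ Metric.closedBall z₀ (2 * R) ⊆ Ω ∧
      ∀ z ∈ Metric.ball z₀ R, ∀ ζ : ℂ, ‖ζ‖ ≤ r → z + ζ • v ∈ Metric.closedBall z₀ (2 * R) := by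
  obtain ⟨δ, hδ, hball⟩ := Metric.isOpen_iff.1 hΩ z₀ hz₀
  refine ⟨δ / (4 * (‖v‖ + 1)), δ / 4, by positivity, by positivity, ?_, ?_⟩
  · intro y hy
    apply hball
    rw [Metric.mem_closedBall] at hy
    rw [Metric.mem_ball]
    linarith
  · intro z hz ζ hζ
    rw [Metric.mem_ball, dist_eq_norm] at hz
    rw [Metric.mem_closedBall, dist_eq_norm]
    have h1 : z + ζ • v - z₀ = (z - z₀) + ζ • v := by abel
    rw [h1]
    refine (norm_add_le _ _).trans ?_
    rw [norm_smul]
    have h2 : ‖ζ‖ * ‖v‖ ≤ δ / (4 * (‖v‖ + 1)) * ‖v‖ := mul_le_mul_of_nonneg_right hζ (norm_nonneg _)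
    have h3 : δ / (4 * (‖v‖ + 1)) * ‖v‖ ≤ δ / 4 := by
      rw [div_mul_eq_mul_div, div_le_div_iff₀ (by positivity) (by norm_num)]
      nlinarith [norm_nonneg v]
    linarith

theorem continuousOn_fderiv {Ω : Set E} {f : E → F} (hΩ : IsOpen Ω) (hf : DifferentiableOn ℂ f Ω) :
    ContinuousOn (fderiv ℂ f) Ω := by
  rw [continuousOn_clm_apply]
  intro v z₀ hz₀
  obtain ⟨r, R, hr, hR, hRΩ, hzz⟩ := setup hΩ hz₀ v
  refine ContinuousAt.continuousWithinAt ?_
  have hev : (fun z => fderiv ℂ f z v) =ᶠ[𝓝 z₀]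
      fun z => ∫ θ in (0 : ℝ)..2 * Real.pi, ker r θ • f (z + circleMap 0 r θ • v) := by
    filter_upwards [Metric.ball_mem_nhds z₀ hR] with z hz
    exact cauchy hΩ hf hr fun ζ hζ => hRΩ (hzz z hz ζ hζ)
  refine ContinuousAt.congr ?_ hev.symm
  have hc : ∀ θ : ℝ, ‖circleMap 0 r θ‖ ≤ r := fun θ => by
    rw [norm_circleMap_zero, abs_of_pos hr]
  have : ProperSpace E := FiniteDimensional.proper ℂ E
  obtain ⟨C, hC⟩ := (isCompact_closedBall z₀ (2 * R)).exists_bound_of_continuousOn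
    (hf.continuousOn.mono hRΩ)
  refine intervalIntegral.continuousAt_of_dominated_interval (bound := fun θ => ‖ker r θ‖ * C) ?_ ?_ ?_ ?_
  · filter_upwards [Metric.ball_mem_nhds z₀ hR] with z hz
    refine Continuous.aestronglyMeasurable ?_
    refine (ker_cont hr).smul ?_
    rw [continuous_iff_continuousAt]
    intro θ
    have h1 := hRΩ (hzz z hz _ (hc θ))
    have h2 : ContinuousAt f (z + circleMap 0 r θ • v) := (hf.continuousOn).continuousAt (hΩ.mem_nhds h1)
    exact ContinuousAt.comp (f := fun θ : ℝ => z + circleMap 0 r θ • v) h2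
      (by have := continuous_circleMap 0 r; fun_prop)
  · filter_upwards [Metric.ball_mem_nhds z₀ hR] with z hz
    refine Eventually.of_forall fun θ _ => ?_
    rw [norm_smul]
    exact mul_le_mul_of_nonneg_left (hC _ (hzz z hz _ (hc θ))) (norm_nonneg _)
  · exact ((ker_cont hr).norm.mul continuous_const).intervalIntegrable _ _
  · refine Eventually.of_forall fun θ _ => ?_
    have h1 := hRΩ (hzz z₀ (Metric.mem_ball_self hR) _ (hc θ))
    have h2 : ContinuousAt f (z₀ + circleMap 0 r θ • v) := (hf.continuousOn).continuousAt (hΩ.mem_nhds h1)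
    exact (ContinuousAt.comp (f := fun z : E => z + circleMap 0 r θ • v) h2 (by fun_prop)).const_smul _

theorem differentiableOn_fderiv_apply {Ω : Set E} {f : E → F} (hΩ : IsOpen Ω)
    (hf : DifferentiableOn ℂ f Ω) (v : E) : DifferentiableOn ℂ (fun z => fderiv ℂ f z v) Ω := by
  intro z₀ hz₀
  obtain ⟨r, R, hr, hR, hRΩ, hzz⟩ := setup hΩ hz₀ v
  refine DifferentiableAt.differentiableWithinAt ?_
  have hev : (fun z => fderiv ℂ f z v) =ᶠ[𝓝 z₀]
      fun z => ∫ θ in (0 : ℝ)..2 * Real.pi, ker r θ • f (z + circleMap 0 r θ • v) := by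
    filter_upwards [Metric.ball_mem_nhds z₀ hR] with z hz
    exact cauchy hΩ hf hr fun ζ hζ => hRΩ (hzz z hz ζ hζ)
  refine DifferentiableAt.congr_of_eventuallyEq ?_ hev
  have hc : ∀ θ : ℝ, ‖circleMap 0 r θ‖ ≤ r := fun θ => by
    rw [norm_circleMap_zero, abs_of_pos hr]
  have : ProperSpace E := FiniteDimensional.proper ℂ E
  have hcf := continuousOn_fderiv hΩ hf
  obtain ⟨C, hC⟩ := (isCompact_closedBall z₀ (2 * R)).exists_bound_of_continuousOn (hcf.mono hRΩ)
  have hpi : (0 : ℝ) ≤ 2 * Real.pi := by positivity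
  have hcurve : ∀ z ∈ Metric.ball z₀ R, Continuous fun θ : ℝ => ker r θ • f (z + circleMap 0 r θ • v) := by
    intro z hz
    refine (ker_cont hr).smul ?_
    rw [continuous_iff_continuousAt]
    intro θ
    have h1 := hRΩ (hzz z hz _ (hc θ))
    have h2 : ContinuousAt f (z + circleMap 0 r θ • v) := (hf.continuousOn).continuousAt (hΩ.mem_nhds h1)
    exact ContinuousAt.comp (f := fun θ : ℝ => z + circleMap 0 r θ • v) h2
      (by have := continuous_circleMap 0 r; fun_prop)
  have hcurve' : Continuous fun θ : ℝ => ker r θ • fderiv ℂ f (z₀ + circleMap 0 r θ • v) := by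
    refine (ker_cont hr).smul ?_
    rw [continuous_iff_continuousAt]
    intro θ
    have h1 := hRΩ (hzz z₀ (Metric.mem_ball_self hR) _ (hc θ))
    have h2 : ContinuousAt (fderiv ℂ f) (z₀ + circleMap 0 r θ • v) := hcf.continuousAt (hΩ.mem_nhds h1)
    exact ContinuousAt.comp (f := fun θ : ℝ => z₀ + circleMap 0 r θ • v) h2
      (by have := continuous_circleMap 0 r; fun_prop)
  simp only [intervalIntegral.integral_of_le hpi]
  have key := hasFDerivAt_integral_of_dominated_of_fderiv_le (𝕜 := ℂ)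
    (μ := (volume : Measure ℝ).restrict (Ioc 0 (2 * Real.pi)))
    (F := fun z θ => ker r θ • f (z + circleMap 0 r θ • v))
    (F' := fun z θ => ker r θ • fderiv ℂ f (z + circleMap 0 r θ • v)) (x₀ := z₀)
    (s := Metric.ball z₀ R) (bound := fun θ => ‖ker r θ‖ * C) (Metric.ball_mem_nhds z₀ hR) ?_ ?_ ?_ ?_ ?_ ?_
  · exact key.differentiableAt
  · filter_upwards [Metric.ball_mem_nhds z₀ hR] with z hz
    exact (hcurve z hz).aestronglyMeasurable
  · exact ((hcurve z₀ (Metric.mem_ball_self hR)).integrableOn_Icc (a := 0) (b := 2 * Real.pi)).mono_set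
      Ioc_subset_Icc_self
  · exact hcurve'.aestronglyMeasurable
  · refine Eventually.of_forall fun θ z hz => ?_
    rw [norm_smul]
    exact mul_le_mul_of_nonneg_left (hC _ (hzz z hz _ (hc θ))) (norm_nonneg _)
  · exact (((ker_cont hr).norm.mul continuous_const).integrableOn_Icc (a := 0) (b := 2 * Real.pi)).mono_set
      Ioc_subset_Icc_self
  · refine Eventually.of_forall fun θ z hz => ?_
    have h1 := hRΩ (hzz z hz _ (hc θ))
    have h2 : HasFDerivAt f (fderiv ℂ f (z + circleMap 0 r θ • v)) (z + circleMap 0 r θ • v) :=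
      ((hf _ h1).differentiableAt (hΩ.mem_nhds h1)).hasFDerivAt
    have h3 : HasFDerivAt (fun z : E => z + circleMap 0 r θ • v) (ContinuousLinearMap.id ℂ E) z :=
      (hasFDerivAt_id z).add_const _
    have h4 := HasFDerivAt.comp (f := fun z : E => z + circleMap 0 r θ • v) z h2 h3
    rw [ContinuousLinearMap.comp_id] at h4
    exact h4.const_smul _

/-- complex differentiable maps on open subsets of finite dimensional spaces are smooth -/
theorem contDiffOn_of_differentiableOn {Ω : Set E} {f : E → F} (hΩ : IsOpen Ω)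
    (hf : DifferentiableOn ℂ f Ω) : ContDiffOn ℂ (⊤ : ℕ∞) f Ω := by
  rw [contDiffOn_infty]
  intro k
  induction k generalizing f with
  | zero => exact contDiffOn_zero.2 hf.continuousOn
  | succ k ih =>
    have h : ((k + 1 : ℕ) : WithTop ℕ∞) = (k : WithTop ℕ∞) + 1 := by push_cast; rfl
    rw [h, contDiffOn_succ_iff_fderiv_of_isOpen hΩ]
    refine ⟨hf, fun hω => absurd hω (by simp), ?_⟩
    rw [contDiffOn_clm_apply]
    intro v
    exact ih (differentiableOn_fderiv_apply hΩ hf v)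

theorem contDiffAt_of_differentiableOn {Ω : Set E} {f : E → F} (hΩ : IsOpen Ω)
    (hf : DifferentiableOn ℂ f Ω) {z : E} (hz : z ∈ Ω) : ContDiffAt ℂ (⊤ : ℕ∞) f z :=
  (contDiffOn_of_differentiableOn hΩ hf).contDiffAt (hΩ.mem_nhds hz)

end Pool.Agent.Helper22.AM
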