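import Pool.Agent.Helper22.AM.Fin

/-!
# AM (MP_fb29e9_nt): convergence of the moments for the random series, from the finite theorem
-/

open MeasureTheory Real Set Filter Topology unitInterval

set_option autoImplicit false

namespace Pool.Agent.Helper22.AM

open Pool.Agent.Helper22.AE
open Pool.Agent.Helper22.AC (cntc)

theorem lim_set_meas
    (rat_lim : ∀ {H : ℝ → ℝ}, ContDiff ℝ 2 H → Function.Periodic H (2 * π) → (∀ θ, 0 < H θ + deriv (deriv H) θ) → ∀ (p : ℕ),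
      (∃ m : ℝ, ∀ ε : ℝ, 0 < ε → ∃ X₀ : ℝ, 1 ≤ X₀ ∧ ∀ X : ℝ, X₀ ≤ X → ∀ c : ℝ × ℝ,
      |X⁻¹ * (∫ R in Icc X (2 * X), ((cntc H c R - area H * R ^ 2) / sqrt R) ^ p) - m| ≤ ε) ↔
      (∀ n : ℕ, ∃ X₀ : ℕ, ∀ X Y : ℚ, ((X₀ : ℚ) + 1 ≤ X) → ((X₀ : ℚ) + 1 ≤ Y) → ∀ c d : ℚ × ℚ,
      |(X : ℝ)⁻¹ * (∫ R in Icc (X : ℝ) (2 * X), ((cntc H ((c.1 : ℝ), (c.2 : ℝ)) R - area H * R ^ 2) / sqrt R) ^ p) -
        (Y : ℝ)⁻¹ * (∫ R in Icc (Y : ℝ) (2 * Y), ((cntc H ((d.1 : ℝ), (d.2 : ℝ)) R - area H * R ^ 2) / sqrt R) ^ p)| ≤ 1 / ((n : ℝ) + 1)))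
    (lim_meas : ∀ {H₀ : ℝ → ℝ}, ContDiff ℝ 2 H₀ → Function.Periodic H₀ (2 * π) → ∀ {s : ℕ → ℝ},
      Summable (fun l : ℕ => (l : ℝ) ^ 2 * |s l|) → ∀ (c : ℝ × ℝ) {X : ℝ}, 1 ≤ X → ∀ (p : ℕ),
      Measurable (fun x : ℕ → I × I => ∫ R in Icc X (2 * X), ((cntc (Hx H₀ s x) c R - area (Hx H₀ s x) * R ^ 2) / sqrt R) ^ p))
    {H₀ : ℝ → ℝ} (h0 : ContDiff ℝ 2 H₀) (hp : Function.Periodic H₀ (2 * π)) {s : ℕ → ℝ}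
    (hs : Summable (fun l : ℕ => (l : ℝ) ^ 2 * |s l|)) (p : ℕ) :
    MeasurableSet {x : ℕ → I × I | (∀ θ, 0 < Hx H₀ s x θ + deriv (deriv (Hx H₀ s x)) θ) → Lim (Hx H₀ s x) p} := by
  have hS := Pool.Agent.Helper22.AD.rho_meas h0 hp hs
  have hB : MeasurableSet {x : ℕ → I × I | ∀ n : ℕ, ∃ X₀ : ℕ, ∀ X Y : ℚ, ((X₀ : ℚ) + 1 ≤ X) → ((X₀ : ℚ) + 1 ≤ Y) → ∀ c d : ℚ × ℚ,
      |(X : ℝ)⁻¹ * (∫ R in Icc (X : ℝ) (2 * X), ((cntc (Hx H₀ s x) ((c.1 : ℝ), (c.2 : ℝ)) R - area (Hx H₀ s x) * R ^ 2) / sqrt R) ^ p) -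
        (Y : ℝ)⁻¹ * (∫ R in Icc (Y : ℝ) (2 * Y), ((cntc (Hx H₀ s x) ((d.1 : ℝ), (d.2 : ℝ)) R - area (Hx H₀ s x) * R ^ 2) / sqrt R) ^ p)| ≤
          1 / ((n : ℝ) + 1)} := by
    have hset : {x : ℕ → I × I | ∀ n : ℕ, ∃ X₀ : ℕ, ∀ X Y : ℚ, ((X₀ : ℚ) + 1 ≤ X) → ((X₀ : ℚ) + 1 ≤ Y) → ∀ c d : ℚ × ℚ,
      |(X : ℝ)⁻¹ * (∫ R in Icc (X : ℝ) (2 * X), ((cntc (Hx H₀ s x) ((c.1 : ℝ), (c.2 : ℝ)) R - area (Hx H₀ s x) * R ^ 2) / sqrt R) ^ p) -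
        (Y : ℝ)⁻¹ * (∫ R in Icc (Y : ℝ) (2 * Y), ((cntc (Hx H₀ s x) ((d.1 : ℝ), (d.2 : ℝ)) R - area (Hx H₀ s x) * R ^ 2) / sqrt R) ^ p)| ≤
          1 / ((n : ℝ) + 1)} =
        ⋂ n : ℕ, ⋃ X₀ : ℕ, ⋂ X : ℚ, ⋂ Y : ℚ, ⋂ _ : (X₀ : ℚ) + 1 ≤ X, ⋂ _ : (X₀ : ℚ) + 1 ≤ Y, ⋂ c : ℚ × ℚ, ⋂ d : ℚ × ℚ, {x : ℕ → I × I |
        |(X : ℝ)⁻¹ * (∫ R in Icc (X : ℝ) (2 * X), ((cntc (Hx H₀ s x) ((c.1 : ℝ), (c.2 : ℝ)) R - area (Hx H₀ s x) * R ^ 2) / sqrt R) ^ p) -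
        (Y : ℝ)⁻¹ * (∫ R in Icc (Y : ℝ) (2 * Y), ((cntc (Hx H₀ s x) ((d.1 : ℝ), (d.2 : ℝ)) R - area (Hx H₀ s x) * R ^ 2) / sqrt R) ^ p)| ≤
          1 / ((n : ℝ) + 1)} := by
      ext x
      simp only [mem_ofPred_eq, mem_iUnion, mem_iInter]
    rw [hset]
    refine MeasurableSet.iInter fun n => MeasurableSet.iUnion fun X₀ => MeasurableSet.iInter fun X => MeasurableSet.iInter fun Y =>
      MeasurableSet.iInter fun hX => MeasurableSet.iInter fun hY => MeasurableSet.iInter fun c => MeasurableSet.iInter fun d => ?_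
    have h1 : ∀ Z : ℚ, ((X₀ : ℚ) + 1 ≤ Z) → (1 : ℝ) ≤ (Z : ℝ) := by
      intro Z hZ
      have h2 : (0 : ℚ) ≤ (X₀ : ℚ) := Nat.cast_nonneg X₀
      have h3 : (1 : ℚ) ≤ Z := by linarith
      exact_mod_cast h3
    refine measurableSet_le ?_ measurable_const
    refine continuous_abs.measurable.comp ?_
    exact ((lim_meas h0 hp hs _ (h1 X hX) p).const_mul _).sub ((lim_meas h0 hp hs _ (h1 Y hY) p).const_mul _)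
  have hset : {x : ℕ → I × I | (∀ θ, 0 < Hx H₀ s x θ + deriv (deriv (Hx H₀ s x)) θ) → Lim (Hx H₀ s x) p} =
      {x : ℕ → I × I | ∀ θ, 0 < Hx H₀ s x θ + deriv (deriv (Hx H₀ s x)) θ}ᶜ ∪
      {x : ℕ → I × I | ∀ n : ℕ, ∃ X₀ : ℕ, ∀ X Y : ℚ, ((X₀ : ℚ) + 1 ≤ X) → ((X₀ : ℚ) + 1 ≤ Y) → ∀ c d : ℚ × ℚ,
      |(X : ℝ)⁻¹ * (∫ R in Icc (X : ℝ) (2 * X), ((cntc (Hx H₀ s x) ((c.1 : ℝ), (c.2 : ℝ)) R - area (Hx H₀ s x) * R ^ 2) / sqrt R) ^ p) -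
        (Y : ℝ)⁻¹ * (∫ R in Icc (Y : ℝ) (2 * Y), ((cntc (Hx H₀ s x) ((d.1 : ℝ), (d.2 : ℝ)) R - area (Hx H₀ s x) * R ^ 2) / sqrt R) ^ p)| ≤
          1 / ((n : ℝ) + 1)} := by
    ext x
    by_cases hx : ∀ θ, 0 < Hx H₀ s x θ + deriv (deriv (Hx H₀ s x)) θ
    · have h1 := rat_lim (Hx_smooth h0 hs x) (Hx_per hp s x) hx p
      constructor
      · intro h
        exact Or.inr (h1.1 (h hx))
      · rintro (h | h)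
        · exact absurd hx h
        · exact fun _ => h1.2 h
    · constructor
      · intro _
        exact Or.inl hx
      · intro _ h
        exact absurd h hx
  rw [hset]
  exact hS.compl.union hB

theorem ser_lim_of
    (fin : ∀ {J : ℕ}, 6 ≤ J → ∀ {L : ℕ}, 50 * J ≤ L → ∀ {H₀ : ℝ → ℝ}, ContDiff ℝ 2 H₀ → Function.Periodic H₀ (2 * π) →
      ∀ᵐ w : (Fin L → ℝ) × (Fin L → ℝ), (∀ θ, 0 < Hw H₀ w θ + deriv (deriv (Hw H₀ w)) θ) → ∀ p ≤ 2 * J, Lim (Hw H₀ w) p)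
    (meas : ∀ {H₀ : ℝ → ℝ}, ContDiff ℝ 2 H₀ → Function.Periodic H₀ (2 * π) → ∀ {s : ℕ → ℝ},
      Summable (fun l : ℕ => (l : ℝ) ^ 2 * |s l|) → ∀ p : ℕ,
      MeasurableSet {x : ℕ → I × I | (∀ θ, 0 < Hx H₀ s x θ + deriv (deriv (Hx H₀ s x)) θ) → Lim (Hx H₀ s x) p})
    {H₀ : ℝ → ℝ} (h0 : ContDiff ℝ 2 H₀) (hp : Function.Periodic H₀ (2 * π)) {s : ℕ → ℝ}
    (hs : Summable (fun l : ℕ => (l : ℝ) ^ 2 * |s l|)) :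
    ∀ᵐ x ∂(Measure.infinitePi fun _ : ℕ => (volume : Measure (I × I))),
      (∀ θ, 0 < Hx H₀ s x θ + deriv (deriv (Hx H₀ s x)) θ) → ∀ p : ℕ, (∀ l < 50 * (p + 6), s l ≠ 0) → Lim (Hx H₀ s x) p := by
  have key : ∀ p : ℕ, (∀ l < 50 * (p + 6), s l ≠ 0) →
      ∀ᵐ x ∂(Measure.infinitePi fun _ : ℕ => (volume : Measure (I × I))),
        (∀ θ, 0 < Hx H₀ s x θ + deriv (deriv (Hx H₀ s x)) θ) → Lim (Hx H₀ s x) p := by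
    intro p hsL
    refine ae_cmb (50 * (p + 6)) (meas h0 hp hs p) ?_
    intro t
    obtain ⟨H₁, h1, h1p, hH⟩ := Hx_cmb h0 hp hs (50 * (p + 6)) t
    have hm := fin (J := p + 6) (by omega) (L := 50 * (p + 6)) le_rfl h1 h1p
    have hm' : ∀ᵐ w : (Fin (50 * (p + 6)) → ℝ) × (Fin (50 * (p + 6)) → ℝ),
        (∀ θ, 0 < Hw H₁ w θ + deriv (deriv (Hw H₁ w)) θ) → Lim (Hw H₁ w) p := by
      filter_upwards [hm] with w hw h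
      exact hw h p (by omega)
    have hh := head_ae (s := fun l : Fin (50 * (p + 6)) => s l) (fun l => hsL l l.2) hm'
    filter_upwards [hh] with q hq
    show (∀ θ, 0 < Hx H₀ s (cmb (50 * (p + 6)) q t) θ + deriv (deriv (Hx H₀ s (cmb (50 * (p + 6)) q t))) θ) → _
    rw [hH q]
    exact hq
  have hall : ∀ᵐ x ∂(Measure.infinitePi fun _ : ℕ => (volume : Measure (I × I))), ∀ p : ℕ, (∀ l < 50 * (p + 6), s l ≠ 0) →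
      (∀ θ, 0 < Hx H₀ s x θ + deriv (deriv (Hx H₀ s x)) θ) → Lim (Hx H₀ s x) p := by
    rw [ae_all_iff]
    intro p
    by_cases h2 : ∀ l < 50 * (p + 6), s l ≠ 0
    · filter_upwards [key p h2] with x hx _
      exact hx
    · filter_upwards with x h
      exact absurd h h2
  filter_upwards [hall] with x hx hsupp p hne
  exact hx p hne hsupp

end Pool.Agent.Helper22.AM
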