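import Pool.Agent.Helper22.AM.Fin2
import Pool.Agent.Helper22.AM.Ser

/-!
# AM (MP_fb29e9_nt): convergence of the moments for the random series with all coefficients nonzero
-/

open MeasureTheory Real Set Filter Topology unitInterval

set_option autoImplicit false

namespace Pool.Agent.Helper22.AM

open Pool.Agent.Helper22.AE
open Pool.Agent.Helper22.AC (cntc)

theorem ser_lim2_of
    (fin : ∀ {J : ℕ}, 3 ≤ J → ∃ L₀ : ℕ, 6 ≤ L₀ ∧ ∀ {L : ℕ}, L₀ ≤ L → ∀ {H₀ : ℝ → ℝ}, ContDiff ℝ 2 H₀ → Function.Periodic H₀ (2 * π) →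
      ∀ᵐ w : (Fin L → ℝ) × (Fin L → ℝ), (∀ θ, 0 < Hw H₀ w θ + deriv (deriv (Hw H₀ w)) θ) → ∀ p ≤ 2 * J, Lim (Hw H₀ w) p)
    (meas : ∀ {H₀ : ℝ → ℝ}, ContDiff ℝ 2 H₀ → Function.Periodic H₀ (2 * π) → ∀ {s : ℕ → ℝ},
      Summable (fun l : ℕ => (l : ℝ) ^ 2 * |s l|) → ∀ p : ℕ,
      MeasurableSet {x : ℕ → I × I | (∀ θ, 0 < Hx H₀ s x θ + deriv (deriv (Hx H₀ s x)) θ) → Lim (Hx H₀ s x) p})
    {H₀ : ℝ → ℝ} (h0 : ContDiff ℝ 2 H₀) (hp : Function.Periodic H₀ (2 * π)) {s : ℕ → ℝ}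
    (hs : Summable (fun l : ℕ => (l : ℝ) ^ 2 * |s l|)) (hs0 : ∀ l, s l ≠ 0) :
    ∀ᵐ x ∂(Measure.infinitePi fun _ : ℕ => (volume : Measure (I × I))),
      (∀ θ, 0 < Hx H₀ s x θ + deriv (deriv (Hx H₀ s x)) θ) → ∀ p : ℕ, Lim (Hx H₀ s x) p := by
  have key : ∀ p : ℕ,
      ∀ᵐ x ∂(Measure.infinitePi fun _ : ℕ => (volume : Measure (I × I))),
        (∀ θ, 0 < Hx H₀ s x θ + deriv (deriv (Hx H₀ s x)) θ) → Lim (Hx H₀ s x) p := by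
    intro p
    obtain ⟨L, -, hL⟩ := fin (J := p + 3) (by omega)
    refine ae_cmb L (meas h0 hp hs p) ?_
    intro t
    obtain ⟨H₁, h1, h1p, hH⟩ := Hx_cmb h0 hp hs L t
    have hm' : ∀ᵐ w : (Fin L → ℝ) × (Fin L → ℝ),
        (∀ θ, 0 < Hw H₁ w θ + deriv (deriv (Hw H₁ w)) θ) → Lim (Hw H₁ w) p := by
      filter_upwards [hL le_rfl h1 h1p] with w hw h
      exact hw h p (by omega)
    have hh := head_ae (s := fun l : Fin L => s l) (fun l => hs0 l) hm'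
    filter_upwards [hh] with q hq
    show (∀ θ, 0 < Hx H₀ s (cmb L q t) θ + deriv (deriv (Hx H₀ s (cmb L q t))) θ) → _
    rw [hH q]
    exact hq
  have hall := ae_all_iff.2 key
  filter_upwards [hall] with x hx hsupp p
  exact hx p hsupp

/-- MM-M8: the series for the maximal moments of order `2 J`, `J ≥ 3` -/
theorem ser_mom_of {P : (ℝ → ℝ) → ℕ → Prop}
    (fin : ∀ {J : ℕ}, 3 ≤ J → ∃ L₀ : ℕ, 6 ≤ L₀ ∧ ∀ {L : ℕ}, L₀ ≤ L → ∀ {H₀ : ℝ → ℝ}, ContDiff ℝ 2 H₀ → Function.Periodic H₀ (2 * π) →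
      ∀ᵐ w : (Fin L → ℝ) × (Fin L → ℝ), (∀ θ, 0 < Hw H₀ w θ + deriv (deriv (Hw H₀ w)) θ) → P (Hw H₀ w) J)
    (meas : ∀ {H₀ : ℝ → ℝ}, ContDiff ℝ 2 H₀ → Function.Periodic H₀ (2 * π) → ∀ {s : ℕ → ℝ},
      Summable (fun l : ℕ => (l : ℝ) ^ 2 * |s l|) → ∀ J : ℕ,
      MeasurableSet {x : ℕ → I × I | (∀ θ, 0 < Hx H₀ s x θ + deriv (deriv (Hx H₀ s x)) θ) → P (Hx H₀ s x) J})
    {H₀ : ℝ → ℝ} (h0 : ContDiff ℝ 2 H₀) (hp : Function.Periodic H₀ (2 * π)) {s : ℕ → ℝ}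
    (hs : Summable (fun l : ℕ => (l : ℝ) ^ 2 * |s l|)) (hs0 : ∀ l, s l ≠ 0) :
    ∀ᵐ x ∂(Measure.infinitePi fun _ : ℕ => (volume : Measure (I × I))),
      (∀ θ, 0 < Hx H₀ s x θ + deriv (deriv (Hx H₀ s x)) θ) → ∀ J : ℕ, 3 ≤ J → P (Hx H₀ s x) J := by
  have key : ∀ J : ℕ, 3 ≤ J →
      ∀ᵐ x ∂(Measure.infinitePi fun _ : ℕ => (volume : Measure (I × I))),
        (∀ θ, 0 < Hx H₀ s x θ + deriv (deriv (Hx H₀ s x)) θ) → P (Hx H₀ s x) J := by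
    intro J hJ
    obtain ⟨L, -, hL⟩ := fin hJ
    refine ae_cmb L (meas h0 hp hs J) ?_
    intro t
    obtain ⟨H₁, h1, h1p, hH⟩ := Hx_cmb h0 hp hs L t
    have hh := head_ae (s := fun l : Fin L => s l) (fun l => hs0 l) (hL le_rfl h1 h1p)
    filter_upwards [hh] with q hq
    show (∀ θ, 0 < Hx H₀ s (cmb L q t) θ + deriv (deriv (Hx H₀ s (cmb L q t))) θ) → _
    rw [hH q]
    exact hq
  have hall : ∀ᵐ x ∂(Measure.infinitePi fun _ : ℕ => (volume : Measure (I × I))), ∀ J : ℕ, 3 ≤ J →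
      (∀ θ, 0 < Hx H₀ s x θ + deriv (deriv (Hx H₀ s x)) θ) → P (Hx H₀ s x) J := by
    rw [ae_all_iff]
    intro J
    by_cases h : 3 ≤ J
    · filter_upwards [key J h] with x hx _
      exact hx
    · filter_upwards with x hx
      exact absurd hx h
  filter_upwards [hall] with x hx hsupp J hJ
  exact hx J hJ hsupp

end Pool.Agent.Helper22.AM
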