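import Pool.Agent.Helper22.AM.Hol
import Pool.Agent.Helper29.AM.Lev
import Pool.Agent.Helper29.AM.LA2
import Pool.Agent.Helper29.AM.Ker

/-!
# Project AM, section 4: radial derivatives dominate holomorphic vector fields

`star`: `f` psh near the closed unit ball, `q` a holomorphic field of matrices with `‖q‖ ≤ 1`:
`∫ ρ(η) Df(η)(q(η)η) dη ≤ ∫ ρ(η) Df(η)(η) dη` (integration by parts and the trace inequality).
-/

set_option autoImplicit false

namespace Pool.Agent.Helper22.AM

open Pool.Agent.Helper29.AM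
open MeasureTheory Set Filter Topology
open scoped ComplexOrder Manifold

variable {n : ℕ}

theorem inner_e (η : V n) (m : Fin n) : (inner ℂ η (e m)).re = (η m).re := by
  rw [e, EuclideanSpace.inner_single_right]
  simp

theorem inner_Ie (η : V n) (m : Fin n) : (inner ℂ η (Complex.I • e m)).re = (η m).im := by
  rw [inner_smul_right, e, EuclideanSpace.inner_single_right]
  simp

theorem sum_e (η : V n) : η = ∑ m, η m • e m := by
  ext j
  rw [WithLp.ofLp_sum, Finset.sum_apply, Finset.sum_eq_single j]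
  · simp [e]
  · intro m _ hm
    simp [e, Ne.symm hm]
  · intro h
    exact absurd (Finset.mem_univ j) h

theorem lf_add_vec {H : Mat n} (hH : H.IsHermitian) (v w : V n) :
    lf H (v + w) = lf H v + lf H w + 2 * (∑ j, ∑ k, H j k * w j * (starRingEnd ℂ) (v k)).re := by
  have h4 : (∑ j, ∑ k, H j k * v j * (starRingEnd ℂ) (w k)) =
      (starRingEnd ℂ) (∑ j, ∑ k, H j k * w j * (starRingEnd ℂ) (v k)) := by
    rw [map_sum, Finset.sum_comm]
    refine Finset.sum_congr rfl fun k _ => ?_
    rw [map_sum]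
    refine Finset.sum_congr rfl fun j _ => ?_
    rw [map_mul, map_mul, Complex.conj_conj]
    have h5 : (starRingEnd ℂ) (H k j) = H j k := hH.apply j k
    rw [h5]
    ring
  have h6 := congrArg Complex.re h4
  rw [Complex.conj_re] at h6
  have h7 : (∑ j, ∑ k, H j k * (v + w : V n) j * (starRingEnd ℂ) ((v + w : V n) k)) =
      (∑ j, ∑ k, H j k * v j * (starRingEnd ℂ) (v k)) +
      (∑ j, ∑ k, H j k * w j * (starRingEnd ℂ) (w k)) +
      ((∑ j, ∑ k, H j k * w j * (starRingEnd ℂ) (v k)) +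
      (∑ j, ∑ k, H j k * v j * (starRingEnd ℂ) (w k))) := by
    simp only [← Finset.sum_add_distrib]
    refine Finset.sum_congr rfl fun j _ => Finset.sum_congr rfl fun k _ => ?_
    rw [PiLp.add_apply, PiLp.add_apply, map_add]
    ring
  unfold lf
  rw [h7, Complex.add_re, Complex.add_re, Complex.add_re, h6]
  ring

theorem trace_cross_le {H : Mat n} (hH : H.PosSemidef) (N : Lin n) (hN : ‖N‖ ≤ 1) :
    ∑ l, (∑ j, ∑ k, H j k * (N (e l)) j * (starRingEnd ℂ) ((e l : V n) k)).re ≤ ∑ l, lf H (e l) := by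
  classical
  set Q : Mat n := (Matrix.toEuclideanCLM (n := Fin n) (𝕜 := ℂ)).symm N with hQ
  have hQN : Matrix.toEuclideanCLM (n := Fin n) (𝕜 := ℂ) Q = N := by
    rw [hQ]
    exact StarAlgEquiv.apply_symm_apply _ _
  have hNe : ∀ l j, (N (e l)) j = Q j l := by
    intro l j
    rw [← hQN]
    have : (Matrix.toEuclideanCLM (n := Fin n) (𝕜 := ℂ) Q (e l)) j =
        (Matrix.mulVec Q (fun i => (e l : V n) i)) j := rfl
    rw [this]
    have h2 : (fun i => (e l : V n) i) = Pi.single l (1 : ℂ) := by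
      ext i
      simp [e, Pi.single_apply]
    rw [h2, Matrix.mulVec_single_one]
    rfl
  have hHt : (H.transpose).PosSemidef := hH.transpose
  have hab := abs_trace_mul_le hHt Q (q := 1) (by norm_num) (fun x => by
    rw [hQN]
    exact (N.le_opNorm x).trans (mul_le_mul_of_nonneg_right hN (norm_nonneg x)))
  have htr : (Matrix.trace H.transpose).re = ∑ l, lf H (e l) := by
    rw [Matrix.trace_transpose, ← sA_one]
    rfl
  rw [htr, one_mul] at hab
  have hcross : ∑ l, (∑ j, ∑ k, H j k * (N (e l)) j * (starRingEnd ℂ) ((e l : V n) k)).re =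
      (Matrix.trace (H.transpose * Q)).re := by
    rw [Matrix.trace, Complex.re_sum]
    refine Finset.sum_congr rfl fun l _ => ?_
    congr 1
    rw [Matrix.diag_apply, Matrix.mul_apply]
    refine Finset.sum_congr rfl fun j _ => ?_
    rw [Finset.sum_eq_single l]
    · rw [hNe, Matrix.transpose_apply]
      simp [e]
    · intro k _ hk
      simp [e, hk]
    · simp
  rw [hcross]
  exact (abs_le.mp hab).2

/-- the polarised Levi form (times 4) -/
noncomputable def BB (u : V n → ℝ) (z v w : V n) : ℝ :=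
  D2 u z v w + D2 u z (Complex.I • v) (Complex.I • w)

theorem BB_polar {u : V n → ℝ} {z : V n} (hu : ContDiffAt ℝ 2 u z) (v w : V n) :
    BB u z v w = 2 * (lev u z (v + w) - lev u z v - lev u z w) := by
  have h1 := D2_symm hu v w
  have h2 := D2_symm hu (Complex.I • v) (Complex.I • w)
  unfold BB lev
  rw [smul_add]
  unfold D2 at *
  simp only [map_add, _root_.add_apply]
  rw [h1, h2]
  ring

theorem trace_BB_le {u : V n → ℝ} {z : V n} (hu : ContDiffAt ℝ 2 u z) (hpsh : ∀ v, 0 ≤ lev u z v)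
    (q : Lin n) (hq : ‖q‖ ≤ 1) : ∑ m, BB u z (e m) (q (e m)) ≤ ∑ m, BB u z (e m) (e m) := by
  have hH := hess_isHermitian hu
  have hP : (hess u z).PosSemidef := (posSemidef_iff_lf hH).mpr fun v => by
    rw [← lev_eq_lf hu]; exact hpsh v
  have h1 : ∀ m (w : V n), BB u z (e m) w =
      4 * (∑ j, ∑ k, hess u z j k * w j * (starRingEnd ℂ) ((e m : V n) k)).re := by
    intro m w
    rw [BB_polar hu, lev_eq_lf hu, lev_eq_lf hu, lev_eq_lf hu, lf_add_vec hH]
    ring
  have h2 : ∀ m, BB u z (e m) (e m) = 4 * lf (hess u z) (e m) := by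
    intro m
    rw [← lev_eq_lf hu]
    unfold BB lev
    ring
  simp only [h2]
  simp only [h1]
  rw [← Finset.mul_sum, ← Finset.mul_sum]
  have := trace_cross_le hP q hq
  linarith

/-- integrals against kernels supported in the closed unit ball -/
theorem intg {κ : V n → ℝ} (hκ : Continuous κ) (hκ0 : ∀ η : V n, 1 ≤ ‖η‖ → κ η = 0) {g : V n → ℝ}
    (hg : ContinuousOn g (Metric.closedBall 0 1)) : Integrable (fun η => κ η * g η) := by
  have h1 : IntegrableOn (fun η => κ η * g η) (Metric.closedBall (0 : V n) 1) volume :=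
    (hκ.continuousOn.mul hg).integrableOn_compact (isCompact_closedBall _ _)
  refine (integrableOn_iff_integrable_of_support_subset fun η hη => ?_).1 h1
  rw [mem_closedBall_zero_iff]
  by_contra h
  exact hη (by show κ η * g η = 0; rw [hκ0 η (not_le.1 h).le, zero_mul])

theorem cutoff {k : WithTop ℕ∞} (hk : k ≤ ((⊤ : ℕ∞) : WithTop ℕ∞)) {Ω K : Set (V n)} (hΩ : IsOpen Ω)
    (hK : IsCompact K) (hKΩ : K ⊆ Ω) {u : V n → ℝ}
    (hu : ContDiffOn ℝ k u Ω) : ∃ u' : V n → ℝ, ContDiff ℝ k u' ∧ ∀ᶠ y in 𝓝ˢ K, u' y = u y := by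
  obtain ⟨K', hK', hKK', hK'Ω⟩ := exists_compact_between hK hΩ hKΩ
  obtain ⟨f, hf1, hf0, -⟩ := exists_contMDiffMap_one_nhds_of_subset_interior (n := (⊤ : ℕ∞))
    𝓘(ℝ, V n) (s := K) (t := K') hK.isClosed hKK'
  have hfc : ContDiff ℝ k f := f.contMDiff.contDiff.of_le hk
  refine ⟨fun y => f y * u y, ?_, ?_⟩
  · rw [contDiff_iff_contDiffAt]
    intro y
    by_cases hy : y ∈ Ω
    · exact hfc.contDiffAt.mul (hu.contDiffAt (hΩ.mem_nhds hy))
    · have h1 : (fun y => f y * u y) =ᶠ[𝓝 y] fun _ => 0 := by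
        filter_upwards [hK'.isClosed.isOpen_compl.mem_nhds fun h => hy (hK'Ω h)] with x hx
        rw [hf0 x hx, zero_mul]
      exact contDiffAt_const.congr_of_eventuallyEq h1
  · filter_upwards [hf1] with y hy
    rw [hy, one_mul]

/-- local integration by parts -/
theorem ibp {Ω : Set (V n)} (hΩ : IsOpen Ω) (hB : Metric.closedBall 0 1 ⊆ Ω) {g : V n → ℝ}
    (hg : ContDiffOn ℝ 1 g Ω) (w : V n) :
    ∫ η, rho η * ((inner ℂ η w).re * g η) = (1 / 2) * ∫ η, rho1 η * fderiv ℝ g η w := by
  obtain ⟨g', hg', hev⟩ := cutoff (by exact_mod_cast (le_top : (1 : ℕ∞) ≤ ⊤)) hΩ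
    (isCompact_closedBall (0 : V n) 1) hB hg
  have h0 : ∀ η : V n, ‖η‖ ≤ 1 → g' =ᶠ[𝓝 η] g := by
    intro η hη
    exact hev.filter_mono (nhds_le_nhdsSet (mem_closedBall_zero_iff.2 hη))
  have h1 := integral_rho_inner_mul hg' w
  have e1 : ∀ η : V n, rho η * ((inner ℂ η w).re * g' η) = rho η * ((inner ℂ η w).re * g η) := by
    intro η
    rcases le_or_gt ‖η‖ 1 with hη | hη
    · rw [(h0 η hη).eq_of_nhds]
    · rw [rho_eq_zero hη.le, zero_mul, zero_mul]
  have e2 : ∀ η : V n, rho1 η * fderiv ℝ g' η w = rho1 η * fderiv ℝ g η w := by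
    intro η
    rcases le_or_gt ‖η‖ 1 with hη | hη
    · rw [(h0 η hη).fderiv_eq]
    · rw [rho1_eq_zero hη.le, zero_mul, zero_mul]
  simp only [e1, e2] at h1
  exact h1

theorem fderiv_pair {Ω : Set (V n)} (hΩ : IsOpen Ω) {f : V n → ℝ} (hf : ContDiffOn ℝ 2 f Ω)
    {c : V n → V n} (hc : DifferentiableOn ℂ c Ω) {η : V n} (hη : η ∈ Ω) (w : V n) :
    fderiv ℝ (fun η => fderiv ℝ f η (c η)) η w =
      D2 f η w (c η) + fderiv ℝ f η (fderiv ℂ c η w) := by
  have h1 : DifferentiableAt ℝ (fderiv ℝ f) η :=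
    (((hf.contDiffAt (hΩ.mem_nhds hη)).fderiv_right (m := 1) (by norm_num)).differentiableAt (by norm_num))
  have h2 : HasFDerivAt c ((fderiv ℂ c η).restrictScalars ℝ) η :=
    (((hc η hη).differentiableAt (hΩ.mem_nhds hη)).hasFDerivAt).restrictScalars ℝ
  have h3 := h1.hasFDerivAt.clm_apply h2
  rw [h3.fderiv]
  simp only [_root_.add_apply, ContinuousLinearMap.comp_apply,
    ContinuousLinearMap.flip_apply, ContinuousLinearMap.coe_restrictScalars']
  rw [add_comm]
  rfl

theorem star_formula {Ω : Set (V n)} (hΩ : IsOpen Ω) (hB : Metric.closedBall 0 1 ⊆ Ω) {f : V n → ℝ}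
    (hf : ContDiffOn ℝ 2 f Ω) {q : V n → Lin n} (hq : DifferentiableOn ℂ q Ω) :
    ∫ η, rho η * fderiv ℝ f η (q η η) = (1 / 2) * ∫ η, rho1 η * ∑ m, BB f η (e m) (q η (e m)) := by
  have hfc : ContDiffOn ℝ 1 (fderiv ℝ f) Ω := hf.fderiv_of_isOpen hΩ (by norm_num)
  -- the columns
  have hcC : ∀ m, DifferentiableOn ℂ (fun η => q η (e m)) Ω := fun m =>
    hq.clm_apply (differentiableOn_const _)
  have hIcC : ∀ m, DifferentiableOn ℂ (fun η => Complex.I • q η (e m)) Ω := fun m =>
    (hcC m).fun_const_smul _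
  have one_le : (1 : WithTop ℕ∞) ≤ ((⊤ : ℕ∞) : WithTop ℕ∞) := by exact_mod_cast (le_top : (1 : ℕ∞) ≤ ⊤)
  have hcR : ∀ m, ContDiffOn ℝ 1 (fun η => q η (e m)) Ω := fun m =>
    ((contDiffOn_of_differentiableOn hΩ (hcC m)).restrict_scalars ℝ).of_le one_le
  have hIcR : ∀ m, ContDiffOn ℝ 1 (fun η => Complex.I • q η (e m)) Ω := fun m =>
    ((contDiffOn_of_differentiableOn hΩ (hIcC m)).restrict_scalars ℝ).of_le one_le
  have hg : ∀ m, ContDiffOn ℝ 1 (fun η => fderiv ℝ f η (q η (e m))) Ω := fun m =>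
    hfc.clm_apply (hcR m)
  have hh : ∀ m, ContDiffOn ℝ 1 (fun η => fderiv ℝ f η (Complex.I • q η (e m))) Ω := fun m =>
    hfc.clm_apply (hIcR m)
  have hcont : ∀ m, Continuous fun η : V n => (inner ℂ η (e m)).re := fun m =>
    Complex.continuous_re.comp (continuous_id.inner continuous_const)
  have hcont' : ∀ m, Continuous fun η : V n => (inner ℂ η (Complex.I • e m)).re := fun m =>
    Complex.continuous_re.comp (continuous_id.inner continuous_const)
  have hI1 : ∀ m, Integrable fun η : V n => rho η * ((inner ℂ η (e m)).re * fderiv ℝ f η (q η (e m))) := fun m =>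
    intg rho_contDiff.continuous (fun _ h => rho_eq_zero h)
      ((hcont m).continuousOn.mul ((hg m).continuousOn.mono hB))
  have hI2 : ∀ m, Integrable fun η : V n =>
      rho η * ((inner ℂ η (Complex.I • e m)).re * fderiv ℝ f η (Complex.I • q η (e m))) := fun m =>
    intg rho_contDiff.continuous (fun _ h => rho_eq_zero h)
      ((hcont' m).continuousOn.mul ((hh m).continuousOn.mono hB))
  -- the left side
  have e1 : ∀ η : V n, rho η * fderiv ℝ f η (q η η) =
      ∑ m, (rho η * ((inner ℂ η (e m)).re * fderiv ℝ f η (q η (e m))) +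
        rho η * ((inner ℂ η (Complex.I • e m)).re * fderiv ℝ f η (Complex.I • q η (e m)))) := by
    intro η
    have h1 : q η η = ∑ m, ((η m).re • q η (e m) + (η m).im • (Complex.I • q η (e m))) := by
      refine (congrArg (q η) (sum_e η)).trans ?_
      rw [map_sum]
      refine Finset.sum_congr rfl fun m _ => ?_
      rw [map_smul]
      conv_lhs => rw [← Complex.re_add_im (η m)]
      rw [add_smul, mul_smul, Complex.coe_smul, Complex.coe_smul]
    rw [h1, map_sum, Finset.mul_sum]
    refine Finset.sum_congr rfl fun m _ => ?_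
    rw [map_add, map_smul, map_smul, inner_e, inner_Ie, smul_eq_mul, smul_eq_mul]
    ring
  -- continuity of second derivatives
  have hD2c : ∀ (c c' : V n → V n), ContinuousOn c Ω → ContinuousOn c' Ω →
      ContinuousOn (fun η => D2 f η (c η) (c' η)) Ω := by
    intro c c' hc hc'
    have h1 : ContinuousOn (fderiv ℝ (fderiv ℝ f)) Ω := hfc.continuousOn_fderiv_of_isOpen hΩ le_rfl
    exact (h1.clm_apply hc).clm_apply hc'
  have hcc : ∀ m, ContinuousOn (fun η => q η (e m)) Ω := fun m => (hcR m).continuousOn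
  have hIcc : ∀ m, ContinuousOn (fun η => Complex.I • q η (e m)) Ω := fun m => (hIcR m).continuousOn
  have hBBc : ∀ m, ContinuousOn (fun η => BB f η (e m) (q η (e m))) Ω := fun m =>
    (hD2c _ _ continuousOn_const (hcc m)).add (hD2c _ _ continuousOn_const (hIcc m))
  have hI3 : ∀ m, Integrable fun η : V n => rho1 η * BB f η (e m) (q η (e m)) := fun m =>
    intg rho1_contDiff.continuous (fun _ h => rho1_eq_zero h) ((hBBc m).mono hB)
  have hcf : ∀ m, ContinuousOn (fun η => fderiv ℝ f η (fderiv ℂ (fun η => q η (e m)) η (e m))) Ω := fun m =>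
    hfc.continuousOn.clm_apply ((continuousOn_fderiv hΩ (hcC m)).clm_apply continuousOn_const)
  have hpart : ∀ m, ∫ η, (rho η * ((inner ℂ η (e m)).re * fderiv ℝ f η (q η (e m))) +
        rho η * ((inner ℂ η (Complex.I • e m)).re * fderiv ℝ f η (Complex.I • q η (e m)))) =
      (1 / 2) * ∫ η, rho1 η * BB f η (e m) (q η (e m)) := by
    intro m
    rw [integral_add (hI1 m) (hI2 m), ibp hΩ hB (hg m) (e m), ibp hΩ hB (hh m) (Complex.I • e m), ← mul_add]
    congr 1
    have ha : ∀ η : V n, rho1 η * fderiv ℝ (fun η => fderiv ℝ f η (q η (e m))) η (e m) =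
        rho1 η * (D2 f η (e m) (q η (e m)) + fderiv ℝ f η (fderiv ℂ (fun η => q η (e m)) η (e m))) := by
      intro η
      rcases le_or_gt ‖η‖ 1 with hη | hη
      · rw [fderiv_pair hΩ hf (hcC m) (hB (mem_closedBall_zero_iff.2 hη))]
      · rw [rho1_eq_zero hη.le, zero_mul, zero_mul]
    have hb : ∀ η : V n, rho1 η * fderiv ℝ (fun η => fderiv ℝ f η (Complex.I • q η (e m))) η (Complex.I • e m) =
        rho1 η * (D2 f η (Complex.I • e m) (Complex.I • q η (e m)) -
          fderiv ℝ f η (fderiv ℂ (fun η => q η (e m)) η (e m))) := by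
      intro η
      rcases le_or_gt ‖η‖ 1 with hη | hη
      · have hηΩ := hB (mem_closedBall_zero_iff.2 hη)
        rw [fderiv_pair hΩ hf (hIcC m) hηΩ]
        have hd : DifferentiableAt ℂ (fun η => q η (e m)) η := (hcC m η hηΩ).differentiableAt (hΩ.mem_nhds hηΩ)
        have h1 : fderiv ℂ (fun η => Complex.I • q η (e m)) η (Complex.I • e m) =
            -fderiv ℂ (fun η => q η (e m)) η (e m) := by
          have h2 : fderiv ℂ (fun η => Complex.I • q η (e m)) η = Complex.I • fderiv ℂ (fun η => q η (e m)) η :=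
            fderiv_fun_const_smul hd _
          rw [h2, _root_.smul_apply, map_smul, smul_smul, Complex.I_mul_I, neg_smul, one_smul]
        rw [h1, map_neg]
        ring
      · rw [rho1_eq_zero hη.le, zero_mul, zero_mul]
    simp only [ha, hb]
    rw [← integral_add]
    · refine integral_congr_ae (Eventually.of_forall fun η => ?_)
      simp only [BB]
      ring
    · exact intg rho1_contDiff.continuous (fun _ h => rho1_eq_zero h)
        (((hD2c _ _ continuousOn_const (hcc m)).add (hcf m)).mono hB)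
    · exact intg rho1_contDiff.continuous (fun _ h => rho1_eq_zero h)
        (((hD2c _ _ continuousOn_const (hIcc m)).sub (hcf m)).mono hB)
  simp only [e1]
  rw [integral_finsetSum (f := fun m η => rho η * ((inner ℂ η (e m)).re * fderiv ℝ f η (q η (e m))) +
        rho η * ((inner ℂ η (Complex.I • e m)).re * fderiv ℝ f η (Complex.I • q η (e m)))) _
    fun m _ => (hI1 m).add (hI2 m)]
  simp only [Finset.mul_sum]
  rw [integral_finsetSum _ fun m _ => hI3 m, Finset.mul_sum]
  exact Finset.sum_congr rfl fun m _ => hpart m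

/-- radial derivatives dominate holomorphic fields of norm at most one -/
theorem star {Ω : Set (V n)} (hΩ : IsOpen Ω) (hB : Metric.closedBall 0 1 ⊆ Ω) {f : V n → ℝ}
    (hf : ContDiffOn ℝ 2 f Ω) (hpsh : ∀ z ∈ Ω, ∀ v, 0 ≤ lev f z v) {q : V n → Lin n}
    (hq : DifferentiableOn ℂ q Ω) (hq1 : ∀ η : V n, ‖η‖ ≤ 1 → ‖q η‖ ≤ 1) :
    ∫ η, rho η * fderiv ℝ f η (q η η) ≤ ∫ η, rho η * fderiv ℝ f η η := by
  have h1 := star_formula hΩ hB hf hq
  have h2 := star_formula hΩ hB hf (q := fun _ => 1) (differentiableOn_const _)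
  simp only [one_apply_eq_self] at h2
  rw [h1, h2]
  have hfc : ContDiffOn ℝ 1 (fderiv ℝ f) Ω := hf.fderiv_of_isOpen hΩ (by norm_num)
  have hD2c : ∀ (c c' : V n → V n), ContinuousOn c Ω → ContinuousOn c' Ω →
      ContinuousOn (fun η => D2 f η (c η) (c' η)) Ω := by
    intro c c' hc hc'
    have h1 : ContinuousOn (fderiv ℝ (fderiv ℝ f)) Ω := hfc.continuousOn_fderiv_of_isOpen hΩ le_rfl
    exact (h1.clm_apply hc).clm_apply hc'
  have hcc : ∀ m, ContinuousOn (fun η => q η (e m)) Ω := fun m =>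
    hq.continuousOn.clm_apply continuousOn_const
  refine mul_le_mul_of_nonneg_left (integral_mono ?_ ?_ fun η => ?_) (by norm_num)
  · refine intg rho1_contDiff.continuous (fun _ h => rho1_eq_zero h) (ContinuousOn.mono ?_ hB)
    refine continuousOn_finsetSum _ fun m _ => ?_
    exact (hD2c _ _ continuousOn_const (hcc m)).add (hD2c _ _ continuousOn_const ((hcc m).fun_const_smul _))
  · refine intg rho1_contDiff.continuous (fun _ h => rho1_eq_zero h) (ContinuousOn.mono ?_ hB)
    refine continuousOn_finsetSum _ fun m _ => ?_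
    exact (hD2c _ _ continuousOn_const continuousOn_const).add (hD2c _ _ continuousOn_const continuousOn_const)
  · rcases le_or_gt ‖η‖ 1 with hη | hη
    · have hηΩ := hB (mem_closedBall_zero_iff.2 hη)
      exact mul_le_mul_of_nonneg_left (trace_BB_le (hf.contDiffAt (hΩ.mem_nhds hηΩ)) (hpsh η hηΩ) _ (hq1 η hη))
        (rho1_nonneg η)
    · show rho1 η * _ ≤ rho1 η * _
      rw [rho1_eq_zero hη.le, zero_mul, zero_mul]

end Pool.Agent.Helper22.AM
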