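import Pool.Agent.Helper92.MM.Defs
import Pool.Agent.Helper60.AD.Key

/-!
# MM-M7 (MP_fb29e9_nt): majorants for all blocks, from `small_set`, `large_set`, `Z_pow` and `key2` (Borel-Cantelli)
-/

open MeasureTheory Real Set Filter Topology

set_option autoImplicit false

namespace Pool.Agent.Helper22.AM

open Pool.Agent.Helper22.AE
open Pool.Agent.Helper22.AC (cntc)
open Pool.Agent.Helper92.GC (dt sqa)
open Pool.Agent.Helper60.AD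
open Pool.Agent.Helper92.MM

private lemma w_pow (x : ℝ) : ∃ n : ℕ, x ≤ 2 ^ n := by
  obtain ⟨n, hn⟩ := pow_unbounded_of_one_lt x one_lt_two
  exact ⟨n, hn.le⟩

private lemma w_bc {α : Type*} [MeasurableSpace α] {μ : Measure α} [IsFiniteMeasure μ] (s : ℕ → Set α) (b : ℕ → ℝ)
    (hb : Summable b) (h : ∀ N, μ.real (s N) ≤ b N) : ∀ᵐ x ∂μ, ∀ᶠ N in atTop, x ∉ s N := by
  have h1 : ∑' N, μ (s N) ≠ ⊤ := by
    have h2 : ∑' N, μ (s N) ≤ ∑' N, ENNReal.ofReal (b N) := by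
      apply ENNReal.tsum_le_tsum
      intro N
      rw [← ofReal_measureReal]
      exact ENNReal.ofReal_le_ofReal (h N)
    refine ne_top_of_le_ne_top ?_ h2
    exact hb.tsum_ofReal_ne_top
  exact ae_eventually_notMem h1

private lemma w_summable {q : ℝ} (hq : 0 ≤ q) (hq1 : q < 1) (A : ℝ) : Summable (fun N : ℕ => ((N : ℝ) + 1) * (A * q ^ N)) := by
  have h1 : Summable (fun N : ℕ => ((N : ℝ) ^ 1 * q ^ N : ℝ)) :=
    summable_pow_mul_geometric_of_norm_lt_one 1 (by rw [Real.norm_of_nonneg hq]; exact hq1)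
  have h2 : Summable (fun N : ℕ => q ^ N) := summable_geometric_of_lt_one hq hq1
  have h3 := (h1.add h2).mul_left A
  refine h3.congr (fun N => ?_)
  ring

private lemma w_beta_le (N n : ℕ) (r : Fin 2) :
    ((2 : ℝ) ^ N * 2 ^ n) ^ (-(1 / 2) : ℝ) ≤ 2 * ((2 : ℝ) ^ N * 2 ^ (n + (r : ℕ))) ^ (-(1 / 2) : ℝ) := by
  have hA : (0 : ℝ) < 2 ^ N * 2 ^ n := by positivity
  have hr : (2 : ℝ) ^ (r : ℕ) ≤ 2 := by
    have : (r : ℕ) ≤ 1 := by omega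
    calc (2 : ℝ) ^ (r : ℕ) ≤ 2 ^ 1 := pow_le_pow_right₀ (by norm_num) this
      _ = 2 := by norm_num
  have hr0 : (0 : ℝ) < (2 : ℝ) ^ (r : ℕ) := by positivity
  have e : (2 : ℝ) ^ N * 2 ^ (n + (r : ℕ)) = (2 ^ N * 2 ^ n) * 2 ^ (r : ℕ) := by rw [pow_add]; ring
  rw [e, Real.mul_rpow hA.le hr0.le]
  have h1 : (2 : ℝ)⁻¹ ≤ ((2 : ℝ) ^ (r : ℕ)) ^ (-(1 / 2) : ℝ) := by
    have h2 : (4 : ℝ) ^ (-(1 / 2) : ℝ) = 2⁻¹ := by
      rw [Real.rpow_neg (by norm_num), show (4 : ℝ) = 2 ^ (2 : ℝ) by norm_num, ← Real.rpow_mul (by norm_num)]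
      norm_num
    rw [← h2]
    exact Real.rpow_le_rpow_of_nonpos hr0 (hr.trans (by norm_num)) (by norm_num)
  have h3 : 0 < ((2 : ℝ) ^ N * 2 ^ n) ^ (-(1 / 2) : ℝ) := Real.rpow_pos_of_pos hA _
  nlinarith

private lemma w_rp (N : ℕ) (t : ℝ) : ((2 : ℝ) ^ N) ^ t = ((2 : ℝ) ^ t) ^ N := by
  rw [← Real.rpow_natCast ((2 : ℝ) ^ t) N, ← Real.rpow_mul (by norm_num), ← Real.rpow_natCast 2 N, ← Real.rpow_mul (by norm_num)]
  congr 1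
  ring

private lemma w_k0c {β : ℝ} (hβ : 0 < β) : Continuous (k0 β) := by
  unfold k0
  exact continuous_const.div (by fun_prop) (fun α => by positivity)

private lemma w_k0n {β : ℝ} (hβ : 0 < β) (α : ℝ) : 0 ≤ k0 β α := by
  unfold k0
  positivity

private lemma w_gd1 : IsCompact gd1 :=
  isCompact_Icc.inter_right (isClosed_le continuous_const (by fun_prop))

/-- the majorant `∫ k0 Maj` -/
private noncomputable def WW (J n : ℕ) (h : ℝ → ℝ) (b : ℝ → ℤ × ℤ → ℂ) (β R : ℝ) : ℝ :=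
  ∫ α in gd1, k0 β α * Pool.Agent.Helper92.MM.Maj J (Mx n) 22 h n (b α) R α

theorem all_W_of
    (small : ∀ {J : ℕ}, 3 ≤ J → ∃ δ : ℝ, 0 < δ ∧ δ ≤ 1 / 4 ∧ ∀ {L : ℕ}, 2 * J ≤ L → ∀ {H₀ : ℝ → ℝ}, ContDiff ℝ 2 H₀ →
      ∃ C : ℝ, 0 < C ∧ ∀ (R₀ : ℝ) (n : ℕ), 1 ≤ R₀ → (2 : ℝ) ^ n ≤ R₀ ^ δ →
      ∀ β : ℝ, 0 < β → ∀ b : ℝ → ℤ × ℤ → ℂ, (∀ k, Continuous (fun α => b α k)) → (∀ α k, ‖b α k‖ ≤ 1) →
        1 ≤ Mx n ∧ ∃ E : Set ((Fin L → ℝ) × (Fin L → ℝ)), (gm L).real E ≤ C * R₀ ^ (-(1 / 4) : ℝ) ∧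
          ∀ w ∉ E, ∫ R in Icc (R₀ / 2) (4 * R₀), ∫ α in gd1, k0 β α * Maj J (Mx n) 22 (Hw H₀ w) n (b α) R α ≤
            C * R₀ * ((2 : ℝ) ^ n) ^ (3 * J - 1 / 20 : ℝ))
    (large : ∀ {L : ℕ}, 6 ≤ L → ∀ {H₀ : ℝ → ℝ}, ContDiff ℝ 2 H₀ →
      ∃ C x₀ : ℝ, 0 < C ∧ 1 ≤ x₀ ∧ ∀ (R₀ : ℝ) (n : ℕ), 1 ≤ R₀ → x₀ ≤ (2 : ℝ) ^ n → (2 : ℝ) ^ n ≤ R₀ ^ (51 / 100 : ℝ) →
      ∀ β : ℝ, 0 < β → ∀ b : ℝ → ℤ × ℤ → ℂ, (∀ k, Continuous (fun α => b α k)) → (∀ α k, ‖b α k‖ ≤ 1) →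
        1 ≤ Mx n ∧ ∃ E : Set ((Fin L → ℝ) × (Fin L → ℝ)), (gm L).real E ≤ C * ((2 : ℝ) ^ n) ^ (-(1 / 20) : ℝ) ∧
          ∀ w ∉ E, ∫ R in Icc (R₀ / 2) (4 * R₀), ∫ α in gd1, k0 β α * Maj 3 (Mx n) 22 (Hw H₀ w) n (b α) R α ≤
            R₀ * ((2 : ℝ) ^ n) ^ (9 - 1 / 20 : ℝ))
    (Z_pow : ∀ {L J M m n : ℕ}, 1 ≤ J → 1 ≤ M → ∀ {H₀ : ℝ → ℝ}, ContDiff ℝ 2 H₀ → ∀ {β : ℝ}, 0 < β →
      ∀ (b : ℝ → ℤ × ℤ → ℂ), (∀ k, Continuous (fun α => b α k)) → (∀ α k, ‖b α k‖ ≤ 1) →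
      ∀ (w : (Fin L → ℝ) × (Fin L → ℝ)) (R : ℝ) (c : ℝ × ℝ),
      (∫ α in gd1, k0 β α * ‖Sc (Hw H₀ w) (blk n) (b α) R α c‖) ^ (2 * J) ≤
      20 ^ (2 * J) * ∫ α in gd1, k0 β α * Maj J M m (Hw H₀ w) n (b α) R α)
    (Maj_cont : ∀ {L : ℕ} (J M m n : ℕ) {H₀ : ℝ → ℝ}, ContDiff ℝ 2 H₀ → ∀ (b : ℝ → ℤ × ℤ → ℂ), (∀ k, Continuous (fun α => b α k)) →
      Continuous (fun q : (ℝ × ℝ) × ((Fin L → ℝ) × (Fin L → ℝ)) => Maj J M m (Hw H₀ q.2) n (b q.1.2) q.1.1 q.1.2))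
    (Maj_bdd : ∀ (J M m n : ℕ), ∃ C : ℝ, ∀ (h : ℝ → ℝ) (b : ℤ × ℤ → ℂ), (∀ k, ‖b k‖ ≤ 1) → ∀ R α : ℝ,
      0 ≤ Maj J M m h n b R α ∧ Maj J M m h n b R α ≤ C)
    {J : ℕ} (hJ : 3 ≤ J) : ∃ L₀ : ℕ, 6 ≤ L₀ ∧ ∀ {L : ℕ}, L₀ ≤ L → ∀ {H₀ : ℝ → ℝ}, ContDiff ℝ 2 H₀ → Function.Periodic H₀ (2 * π) →
    ∀ (Bd : ℝ) {nT : ℕ} (b : ℕ → Fin nT → ℝ → ℤ × ℤ → ℂ), (∀ n i k, Continuous (fun α => b n i α k)) → (∀ n i α k, ‖b n i α k‖ ≤ 1) →
    ∃ e2 A : ℝ, 0 < e2 ∧ e2 ≤ 1 / 4 ∧ 0 ≤ A ∧ ∀ᵐ w ∂(gm L), ‖w‖ ≤ Bd → ∃ N₁ : ℕ, ∀ N : ℕ, N₁ ≤ N → ∀ n : ℕ, ∀ i, ∀ r < 2,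
      (2 : ℝ) ^ (n + r) ≤ ((2 : ℝ) ^ N) ^ (1 / 2 + e2) →
      ∃ W : ℝ → ℝ, Continuous W ∧ (∀ R, 0 ≤ W R) ∧ (∀ R ∈ Icc ((2 : ℝ) ^ N / 2) (4 * 2 ^ N), ∀ c : ℝ × ℝ,
        (∫ α in gd1, k0 (((2 : ℝ) ^ N * 2 ^ n) ^ (-(1 / 2) : ℝ)) α * ‖Sc (Hw H₀ w) (blk (n + r)) (b n i α) R α c‖) ^ (2 * J) ≤ W R) ∧
        ∫ R in Icc ((2 : ℝ) ^ N / 2) (4 * 2 ^ N), W R ≤ A * 2 ^ N * ((2 : ℝ) ^ (n + r)) ^ (3 * J - (1 / 40 : ℝ) : ℝ) := by
  classical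
  have hJ3 : (3 : ℝ) ≤ J := by exact_mod_cast hJ
  have hJ0 : (0 : ℝ) < J := by linarith
  obtain ⟨ε, hε0, hε4, hsmall⟩ := small hJ
  obtain ⟨e1, he1⟩ : ∃ e1 : ℝ, e1 = 1 / (80 * J) := ⟨_, rfl⟩
  have he10 : 0 < e1 := by rw [he1]; positivity
  have hε1 : ε ≤ 1 := by linarith
  have he11 : e1 ≤ 1 := by
    rw [he1, div_le_one (by positivity)]
    linarith
  have he1s : e1 ≤ 1 / 20 := by
    rw [he1]
    apply one_div_le_one_div_of_le (by norm_num)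
    linarith
  have hεe : ε * e1 ≤ 1 / 4 := by
    calc ε * e1 ≤ 1 * (1 / 20) := mul_le_mul hε1 he1s he10.le (by norm_num)
      _ ≤ 1 / 4 := by norm_num
  refine ⟨max (2 * J) ⌈2 / ε + 8⌉₊, le_max_of_le_left (by omega), ?_⟩
  intro L hL H₀ h0 hp Bd nT b hbc hb1
  have hfin : IsFiniteMeasure (gm L) := ⟨by rw [gm_univ]; exact ENNReal.one_lt_top⟩
  have hL2 : 2 * J ≤ L := (le_max_left _ _).trans hL
  have hL1 : 2 / ε + 8 ≤ L := by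
    have h1 : 2 / ε + 8 ≤ (⌈2 / ε + 8⌉₊ : ℝ) := Nat.le_ceil _
    have h2 : ((⌈2 / ε + 8⌉₊ : ℕ) : ℝ) ≤ L := by exact_mod_cast (le_max_right _ _).trans hL
    linarith
  obtain ⟨e2k, Ck, Rk, he2k, he2k', hCk, hRk, hkey⟩ := key2 hε0 hε1 he10 he11 hL1 h0 hp Bd
  obtain ⟨Ch, x₀, hCh, hx₀, hhigh⟩ := large (by omega : 6 ≤ L) h0
  obtain ⟨Cl, hCl, hlow⟩ := hsmall hL2 h0
  obtain ⟨Na, hNa⟩ := w_pow Rk
  obtain ⟨Nb, hNb⟩ := w_pow (x₀ ^ (1 / ε))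
  set e2 : ℝ := min e2k (1 / 100) with he2d
  have he20 : 0 < e2 := lt_min he2k (by norm_num)
  have he2k1 : e2 ≤ e2k := min_le_left _ _
  have he2h1 : e2 ≤ 1 / 100 := min_le_right _ _
  set q : ℝ := (2 : ℝ) ^ (-(ε * e1)) with hq
  have hq0 : (0 : ℝ) ≤ q := by positivity
  have hq1 : q < 1 := Real.rpow_lt_one_of_one_lt_of_neg (by norm_num) (by nlinarith)
  set Cm : ℝ := Cl + Ch + Ck with hCm
  have hCm0 : 0 < Cm := by positivity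
  set Cf : ℝ := 20 ^ (2 * J) * (Cl + 1) + 20 ^ 6 with hCf
  have hCf0 : 0 ≤ Cf := by positivity
  have hWc : ∀ (K n : ℕ) (β : ℝ), 0 < β → ∀ (b' : ℝ → ℤ × ℤ → ℂ), (∀ k, Continuous (fun α => b' α k)) →
      ∀ w : (Fin L → ℝ) × (Fin L → ℝ), Continuous (WW K n (Hw H₀ w) b' β) := by
    intro K n β hβ b' hb' w
    have h1 : Continuous (fun z : ℝ × ℝ => k0 β z.2 * Maj K (Mx n) 22 (Hw H₀ w) n (b' z.2) z.1 z.2) := by
      have h2 := (Maj_cont (L := L) K (Mx n) 22 n h0 b' hb').comp (Continuous.prodMk (continuous_id (X := ℝ × ℝ)) (continuous_const (y := w)))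
      exact ((w_k0c hβ).comp continuous_snd).mul h2
    exact continuous_parametric_integral_of_continuous (f := fun (R : ℝ) (α : ℝ) => k0 β α * Maj K (Mx n) 22 (Hw H₀ w) n (b' α) R α) h1 w_gd1
  have hWn : ∀ (K n : ℕ) (β : ℝ), 0 < β → ∀ (b' : ℝ → ℤ × ℤ → ℂ), (∀ α k, ‖b' α k‖ ≤ 1) →
      ∀ (w : (Fin L → ℝ) × (Fin L → ℝ)) (R : ℝ), 0 ≤ WW K n (Hw H₀ w) b' β R := by
    intro K n β hβ b' hb' w R
    obtain ⟨C, hC⟩ := Maj_bdd K (Mx n) 22 n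
    unfold WW
    exact integral_nonneg fun α => mul_nonneg (w_k0n hβ α) (hC _ _ (hb' α) R α).1
  refine ⟨e2, Cf, he20, he2h1.trans (by norm_num), hCf0, ?_⟩
  have hex : ∀ (N n : ℕ) (i : Fin nT) (r : Fin 2), ∃ E : Set ((Fin L → ℝ) × (Fin L → ℝ)),
      (gm L).real E ≤ Cm * q ^ N ∧ (max Na Nb ≤ N → (2 : ℝ) ^ (n + (r : ℕ)) ≤ ((2 : ℝ) ^ N) ^ (1 / 2 + e2) → ∀ w ∉ E, ‖w‖ ≤ Bd →
        ∃ W : ℝ → ℝ, Continuous W ∧ (∀ R, 0 ≤ W R) ∧ (∀ R ∈ Icc ((2 : ℝ) ^ N / 2) (4 * 2 ^ N), ∀ c : ℝ × ℝ,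
        (∫ α in gd1, k0 (((2 : ℝ) ^ N * 2 ^ n) ^ (-(1 / 2) : ℝ)) α * ‖Sc (Hw H₀ w) (blk (n + (r : ℕ))) (b n i α) R α c‖) ^ (2 * J) ≤ W R) ∧
        ∫ R in Icc ((2 : ℝ) ^ N / 2) (4 * 2 ^ N), W R ≤ Cf * 2 ^ N * ((2 : ℝ) ^ (n + (r : ℕ))) ^ (3 * J - (1 / 40 : ℝ) : ℝ)) := by
    intro N n i r
    have h2N : (1 : ℝ) ≤ 2 ^ N := one_le_pow₀ (by norm_num)
    have h2N0 : (0 : ℝ) < 2 ^ N := by positivity
    have hβ : 0 < ((2 : ℝ) ^ N * 2 ^ n) ^ (-(1 / 2) : ℝ) := by positivity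
    obtain ⟨β, hβd⟩ : ∃ β : ℝ, β = ((2 : ℝ) ^ N * 2 ^ n) ^ (-(1 / 2) : ℝ) := ⟨_, rfl⟩
    have hβ0 : 0 < β := by rw [hβd]; exact hβ
    rw [← hβd]
    obtain ⟨x, hx⟩ : ∃ x : ℝ, x = (2 : ℝ) ^ (n + (r : ℕ)) := ⟨_, rfl⟩
    have hx1 : 1 ≤ x := by rw [hx]; exact one_le_pow₀ (by norm_num)
    have hx0 : 0 < x := by linarith
    have hqN : ∀ t : ℝ, ε * e1 ≤ t → ((2 : ℝ) ^ N) ^ (-t) ≤ q ^ N := by
      intro t ht
      rw [hq, ← w_rp]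
      exact Real.rpow_le_rpow_of_exponent_le h2N (by linarith)
    by_cases hc : (2 : ℝ) ^ (n + (r : ℕ)) ≤ ((2 : ℝ) ^ N) ^ ε
    · -- low
      obtain ⟨hM1, E, hE1, hE2⟩ := hlow (2 ^ N) (n + (r : ℕ)) h2N hc β hβ0 (b n i) (hbc n i) (hb1 n i)
      refine ⟨E, hE1.trans ?_, fun _ _ w hw _ => ?_⟩
      · have h1 := hqN (1 / 4) hεe
        calc Cl * ((2 : ℝ) ^ N) ^ (-(1 / 4) : ℝ) ≤ Cl * q ^ N := mul_le_mul_of_nonneg_left h1 hCl.le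
          _ ≤ Cm * q ^ N := mul_le_mul_of_nonneg_right (by rw [hCm]; linarith) (pow_nonneg hq0 N)
      · refine ⟨fun R => 20 ^ (2 * J) * WW J (n + (r : ℕ)) (Hw H₀ w) (b n i) β R, continuous_const.mul (hWc J _ β hβ0 (b n i) (hbc n i) w),
          fun R => mul_nonneg (by positivity) (hWn J _ β hβ0 (b n i) (hb1 n i) w R), fun R _ c => ?_, ?_⟩
        · exact Z_pow (by omega : 1 ≤ J) hM1 h0 hβ0 (b n i) (hbc n i) (hb1 n i) w R c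
        · rw [integral_const_mul]
          have h3 := hE2 w hw
          rw [← hx] at h3 ⊢
          have h1 : x ^ (3 * J - 1 / 20 : ℝ) ≤ x ^ (3 * J - (1 / 40 : ℝ) : ℝ) :=
            Real.rpow_le_rpow_of_exponent_le hx1 (by linarith)
          have h2 : 0 ≤ x ^ (3 * J - (1 / 40 : ℝ) : ℝ) := Real.rpow_nonneg hx0.le _
          calc 20 ^ (2 * J) * ∫ R in Icc ((2 : ℝ) ^ N / 2) (4 * 2 ^ N), WW J (n + (r : ℕ)) (Hw H₀ w) (b n i) β R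
              ≤ 20 ^ (2 * J) * (Cl * 2 ^ N * x ^ (3 * J - 1 / 20 : ℝ)) := mul_le_mul_of_nonneg_left h3 (by positivity)
            _ ≤ 20 ^ (2 * J) * (Cl * 2 ^ N * x ^ (3 * J - (1 / 40 : ℝ) : ℝ)) := by gcongr
            _ = (20 ^ (2 * J) * Cl) * (2 ^ N * x ^ (3 * J - (1 / 40 : ℝ) : ℝ)) := by ring
            _ ≤ Cf * (2 ^ N * x ^ (3 * J - (1 / 40 : ℝ) : ℝ)) := by
                refine mul_le_mul_of_nonneg_right ?_ (by positivity)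
                rw [hCf]
                have : (0 : ℝ) < 20 ^ (2 * J) := by positivity
                nlinarith
            _ = Cf * 2 ^ N * x ^ (3 * J - (1 / 40 : ℝ) : ℝ) := by ring
    · -- high
      push Not at hc
      by_cases hok : max Na Nb ≤ N ∧ (2 : ℝ) ^ (n + (r : ℕ)) ≤ ((2 : ℝ) ^ N) ^ (1 / 2 + e2)
      · obtain ⟨hN, h2⟩ := hok
        have hNa' : Rk ≤ 2 ^ N := hNa.trans (pow_le_pow_right₀ (by norm_num) ((le_max_left _ _).trans hN))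
        have hNb' : x₀ ≤ (2 : ℝ) ^ (n + (r : ℕ)) := by
          have h3 : x₀ ^ (1 / ε) ≤ 2 ^ N := hNb.trans (pow_le_pow_right₀ (by norm_num) ((le_max_right _ _).trans hN))
          have h4 : (x₀ ^ (1 / ε)) ^ ε ≤ ((2 : ℝ) ^ N) ^ ε := Real.rpow_le_rpow (by positivity) h3 hε0.le
          rw [← Real.rpow_mul (by linarith), one_div_mul_cancel hε0.ne', Real.rpow_one] at h4
          exact h4.trans hc.le
        have h2k : (2 : ℝ) ^ (n + (r : ℕ)) ≤ ((2 : ℝ) ^ N) ^ (1 / 2 + e2k) :=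
          h2.trans (Real.rpow_le_rpow_of_exponent_le h2N (by linarith))
        have h2h : (2 : ℝ) ^ (n + (r : ℕ)) ≤ ((2 : ℝ) ^ N) ^ (51 / 100 : ℝ) :=
          h2.trans (Real.rpow_le_rpow_of_exponent_le h2N (by linarith))
        obtain ⟨E1, hE1, hE1'⟩ := hkey (2 ^ N) hNa' (n + (r : ℕ)) hc.le h2k β hβ0 (by rw [hβd]; exact w_beta_le N n r) (b n i) (hbc n i) (hb1 n i)
        obtain ⟨hM1, E2, hE2, hE2'⟩ := hhigh (2 ^ N) (n + (r : ℕ)) h2N hNb' h2h β hβ0 (b n i) (hbc n i) (hb1 n i)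
        refine ⟨E1 ∪ E2, ?_, fun _ _ w hw hwB => ?_⟩
        · have h3 : ∀ t : ℝ, e1 ≤ t → ((2 : ℝ) ^ (n + (r : ℕ))) ^ (-t) ≤ q ^ N := by
            intro t ht
            have ht0 : 0 < t := by linarith
            calc ((2 : ℝ) ^ (n + (r : ℕ))) ^ (-t) ≤ (((2 : ℝ) ^ N) ^ ε) ^ (-t) :=
                  Real.rpow_le_rpow_of_nonpos (Real.rpow_pos_of_pos h2N0 _) hc.le (by linarith)
              _ = ((2 : ℝ) ^ N) ^ (-(ε * t)) := by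
                  rw [← Real.rpow_mul h2N0.le]
                  congr 1
                  ring
              _ ≤ q ^ N := hqN _ (mul_le_mul_of_nonneg_left ht hε0.le)
          calc (gm L).real (E1 ∪ E2) ≤ (gm L).real E1 + (gm L).real E2 := measureReal_union_le _ _
            _ ≤ Ck * q ^ N + Ch * q ^ N := add_le_add (hE1.trans (mul_le_mul_of_nonneg_left (h3 e1 le_rfl) hCk.le))
                (hE2.trans (mul_le_mul_of_nonneg_left (h3 (1 / 20) he1s) hCh.le))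
            _ ≤ Cm * q ^ N := by
                have h4 : 0 ≤ q ^ N := pow_nonneg hq0 N
                rw [hCm]
                nlinarith
        · have hw1 : w ∉ E1 := fun h => hw (Or.inl h)
          have hw2 : w ∉ E2 := fun h => hw (Or.inr h)
          have h5 := hE1' w hw1 hwB
          have h6 := hE2' w hw2
          rw [← hx] at h5 h6 ⊢
          obtain ⟨S, hSd⟩ : ∃ S : ℝ, S = x ^ (3 / 2 + e1) := ⟨_, rfl⟩
          have hS0 : 0 ≤ S := by rw [hSd]; positivity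
          rw [← hSd] at h5
          refine ⟨fun R => S ^ (2 * J - 6) * (20 ^ 6 * WW 3 (n + (r : ℕ)) (Hw H₀ w) (b n i) β R),
            continuous_const.mul (continuous_const.mul (hWc 3 _ β hβ0 (b n i) (hbc n i) w)),
            fun R => mul_nonneg (by positivity) (mul_nonneg (by positivity) (hWn 3 _ β hβ0 (b n i) (hb1 n i) w R)), fun R hR c => ?_, ?_⟩
          · have h7 := Z_pow (J := 3) (m := 22) (n := n + (r : ℕ)) (by norm_num) hM1 h0 hβ0 (b n i) (hbc n i) (hb1 n i) w R c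
            have h8 := h5 R hR c
            obtain ⟨U, hU⟩ : ∃ U : ℝ, U = ∫ α in gd1, k0 β α * ‖Sc (Hw H₀ w) (blk (n + (r : ℕ))) (b n i α) R α c‖ := ⟨_, rfl⟩
            have hU0 : 0 ≤ U := by
              rw [hU]
              exact integral_nonneg fun α => mul_nonneg (w_k0n hβ0 α) (norm_nonneg _)
            have h8' : U ≤ S := by rw [hU]; exact h8
            rw [← hU] at h7 ⊢
            have e : 2 * J = (2 * J - 6) + 6 := by omega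
            rw [e, pow_add, Nat.add_sub_cancel]
            refine mul_le_mul (pow_le_pow_left₀ hU0 h8' _) ?_ (pow_nonneg hU0 _) (pow_nonneg hS0 _)
            exact h7
          · rw [integral_const_mul, integral_const_mul]
            have h9 : S ^ (2 * J - 6) * (20 ^ 6 * (2 ^ N * x ^ (9 - 1 / 20 : ℝ))) ≤ 20 ^ 6 * (2 ^ N * x ^ (3 * J - (1 / 40 : ℝ) : ℝ)) := by
              have e : S ^ (2 * J - 6) = x ^ ((3 / 2 + e1) * (2 * J - 6)) := by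
                rw [hSd, ← Real.rpow_natCast, ← Real.rpow_mul hx0.le, Nat.cast_sub (by omega)]
                push_cast
                rfl
              rw [e]
              have h10 : x ^ ((3 / 2 + e1) * (2 * J - 6)) * x ^ (9 - 1 / 20 : ℝ) ≤ x ^ (3 * J - (1 / 40 : ℝ) : ℝ) := by
                rw [← Real.rpow_add hx0]
                refine Real.rpow_le_rpow_of_exponent_le hx1 ?_
                have h11 : e1 * (2 * J) = 1 / 40 := by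
                  rw [he1]
                  field_simp
                  norm_num
                nlinarith
              calc x ^ ((3 / 2 + e1) * (2 * J - 6)) * (20 ^ 6 * (2 ^ N * x ^ (9 - 1 / 20 : ℝ))) =
                  20 ^ 6 * (2 ^ N * (x ^ ((3 / 2 + e1) * (2 * J - 6)) * x ^ (9 - 1 / 20 : ℝ))) := by ring
                _ ≤ 20 ^ 6 * (2 ^ N * x ^ (3 * J - (1 / 40 : ℝ) : ℝ)) := by gcongr
            calc S ^ (2 * J - 6) * (20 ^ 6 * ∫ R in Icc ((2 : ℝ) ^ N / 2) (4 * 2 ^ N), WW 3 (n + (r : ℕ)) (Hw H₀ w) (b n i) β R)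
                ≤ S ^ (2 * J - 6) * (20 ^ 6 * (2 ^ N * x ^ (9 - 1 / 20 : ℝ))) := by
                  refine mul_le_mul_of_nonneg_left (mul_le_mul_of_nonneg_left h6 (by norm_num)) (pow_nonneg hS0 _)
              _ ≤ 20 ^ 6 * (2 ^ N * x ^ (3 * J - (1 / 40 : ℝ) : ℝ)) := h9
              _ ≤ Cf * (2 ^ N * x ^ (3 * J - (1 / 40 : ℝ) : ℝ)) := by
                  refine mul_le_mul_of_nonneg_right ?_ (by positivity)
                  rw [hCf]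
                  have : (0 : ℝ) ≤ 20 ^ (2 * J) * (Cl + 1) := by positivity
                  linarith
              _ = Cf * 2 ^ N * x ^ (3 * J - (1 / 40 : ℝ) : ℝ) := by ring
      · refine ⟨∅, ?_, fun h1 h2 => absurd ⟨h1, h2⟩ hok⟩
        rw [measureReal_empty]
        positivity
  choose E hE1 hE2 using hex
  set bad : ℕ → Set ((Fin L → ℝ) × (Fin L → ℝ)) := fun N =>
    ⋃ n ∈ Finset.range (N + 1), ⋃ i ∈ (Finset.univ : Finset (Fin nT)), ⋃ r ∈ (Finset.univ : Finset (Fin 2)), E N n i r with hbad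
  have hmeas : ∀ N, (gm L).real (bad N) ≤ ((N : ℝ) + 1) * ((nT * 2 * Cm) * q ^ N) := by
    intro N
    refine (measureReal_biUnion_finset_le _ _).trans ?_
    have h1 : ∀ n ∈ Finset.range (N + 1), (gm L).real (⋃ i ∈ (Finset.univ : Finset (Fin nT)),
        ⋃ r ∈ (Finset.univ : Finset (Fin 2)), E N n i r) ≤ nT * (2 * (Cm * q ^ N)) := by
      intro n _
      refine (measureReal_biUnion_finset_le _ _).trans ?_
      refine (Finset.sum_le_card_nsmul _ _ (2 * (Cm * q ^ N)) fun i _ => ?_).trans (le_of_eq ?_)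
      · refine (measureReal_biUnion_finset_le _ _).trans ?_
        refine (Finset.sum_le_card_nsmul _ _ (Cm * q ^ N) fun r _ => hE1 N n i r).trans (le_of_eq ?_)
        rw [Finset.card_univ, Fintype.card_fin, nsmul_eq_mul]
        norm_num
      · rw [Finset.card_univ, Fintype.card_fin, nsmul_eq_mul]
    refine (Finset.sum_le_card_nsmul _ _ _ h1).trans (le_of_eq ?_)
    rw [Finset.card_range, nsmul_eq_mul]
    push_cast
    ring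
  have hbcan := w_bc (μ := gm L) bad _ (w_summable hq0 hq1 (nT * 2 * Cm)) hmeas
  filter_upwards [hbcan] with w hw hwB
  obtain ⟨N₁, hN₁⟩ := eventually_atTop.1 hw
  refine ⟨max (max Na Nb) N₁, ?_⟩
  intro N hN n i r hr h2
  have hN0 : max Na Nb ≤ N := (le_max_left _ _).trans hN
  have hNN : N₁ ≤ N := (le_max_right _ _).trans hN
  have hnN : n ∈ Finset.range (N + 1) := by
    rw [Finset.mem_range]
    have h3 : (2 : ℝ) ^ (n + r) ≤ 2 ^ N := by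
      refine h2.trans ?_
      calc ((2 : ℝ) ^ N) ^ (1 / 2 + e2) ≤ ((2 : ℝ) ^ N) ^ (1 : ℝ) :=
            Real.rpow_le_rpow_of_exponent_le (one_le_pow₀ (by norm_num)) (by linarith)
        _ = 2 ^ N := Real.rpow_one _
    have h4 : n + r ≤ N := (pow_le_pow_iff_right₀ (by norm_num : (1 : ℝ) < 2)).1 h3
    omega
  have hnot : w ∉ E N n i ⟨r, hr⟩ := by
    intro hcon
    apply hN₁ N hNN
    simp only [hbad, mem_iUnion]
    exact ⟨n, hnN, i, Finset.mem_univ _, ⟨r, hr⟩, Finset.mem_univ _, hcon⟩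
  exact hE2 N n i ⟨r, hr⟩ hN0 h2 w hnot hwB

end Pool.Agent.Helper22.AM
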